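import Mathlib
import Pool.Agent.Lib_helper21.TR.Defs
import Pool.Agent.ACC.Defs

/-!
# Randomised machines with random access to the input graph, to a memory whose registers have
prices, and with a stack that is free and unlimited
-/

set_option autoImplicit false

open MeasureTheory

namespace Pool.Agent.RSA

open Pool.Agent.TS Pool.Agent.TR Pool.Agent.ACC

/-- What a machine does next: it makes a step, or it pushes the letter `a` on the stack and goes to
the state `q`, or it pops the top letter `a` and goes to the state `f (some a)` (to the state
`f none` if the stack is empty). -/
inductive Act (Q Λ : Type) : Type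
  | step : Act Q Λ
  | push (a : Λ) (q : Q) : Act Q Λ
  | pop (f : Option Λ → Q) : Act Q Λ

/-- A configuration: the number of the steps made so far, the state, the contents of the registers
and the stack. -/
structure Conf (Q A Γ Λ : Type) where
  steps : ℕ
  state : Q
  reg : A → Γ
  stack : List Λ

/-- A randomised, nonuniform machine with random access to a graph on `Fin n` and to a work memory,
with control states in `Q`, one register, with content in `Γ`, for every member of `A`, a stack of
letters from `Λ` (an arbitrary, possibly infinite alphabet), and random seeds in `Ω`. With seed `ω` it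
starts in the state `start ω` with the contents `init ω` of the registers and with the empty stack.
If after `t` steps it is in the state `q`, then `act ω t q` says whether it uses the stack (any number
of times) or makes a step. The step: it reads the register `rd ω t q` (or none); `γ` being the content
read, it asks the question `ask ω t q γ` about the graph; `a` being the answer and
`(q', w) = next ω t q γ a`, it goes to the state `q'` and, if `w = some (x, v)`, writes `v` into the
register `x` (arbitrary functions). `output q = some b`: in the state `q` the machine stops with the
answer `b` (`true`: there is a triangle). -/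
structure RMachine (n : ℕ) (Q A Γ Λ Ω : Type) where
  start : Ω → Q
  init : Ω → A → Γ
  act : Ω → ℕ → Q → Act Q Λ
  rd : Ω → ℕ → Q → Option A
  ask : Ω → ℕ → Q → Option Γ → Query n
  next : Ω → ℕ → Q → Option Γ → Option (Fin n) → Q × Option (A × Γ)
  output : Q → Option Bool

variable {n : ℕ} {Q A Γ Λ Ω : Type}

/-- The next state and the write if the machine makes a step in the configuration `x`. -/
noncomputable def RMachine.move (M : RMachine n Q A Γ Λ Ω) (ω : Ω) (G : SimpleGraph (Fin n))
    (x : Conf Q A Γ Λ) : Q × Option (A × Γ) :=
  M.next ω x.steps x.state ((M.rd ω x.steps x.state).map x.reg)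
    (answer G (M.ask ω x.steps x.state ((M.rd ω x.steps x.state).map x.reg)))

/-- The configuration after the next operation (a step or a stack operation). -/
noncomputable def RMachine.op (M : RMachine n Q A Γ Λ Ω) (ω : Ω) (G : SimpleGraph (Fin n))
    (x : Conf Q A Γ Λ) : Conf Q A Γ Λ :=
  match M.act ω x.steps x.state with
  | .step => ⟨x.steps + 1, (M.move ω G x).1, write x.reg (M.move ω G x).2, x.stack⟩
  | .push a q => ⟨x.steps, q, x.reg, a :: x.stack⟩
  | .pop f => ⟨x.steps, f x.stack.head?, x.reg, x.stack.tail⟩

/-- The configuration after `k` operations on the graph `G` with seed `ω`; a machine that has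
answered does not change it any more. -/
noncomputable def RMachine.run (M : RMachine n Q A Γ Λ Ω) (ω : Ω) (G : SimpleGraph (Fin n)) :
    ℕ → Conf Q A Γ Λ
  | 0 => ⟨0, M.start ω, M.init ω, []⟩
  | k + 1 => if (M.output (M.run ω G k).state).isSome then M.run ω G k else
      M.op ω G (M.run ω G k)

/-- The answer given after `k` operations, if any. -/
noncomputable def RMachine.out (M : RMachine n Q A Γ Λ Ω) (ω : Ω) (G : SimpleGraph (Fin n))
    (k : ℕ) : Option Bool := M.output (M.run ω G k).state

/-- The register read (if `b = false`), respectively written (if `b = true`), in the operation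
number `k`, if any; none if this is a stack operation or the machine has answered. -/
noncomputable def RMachine.access (M : RMachine n Q A Γ Λ Ω) (b : Bool) (ω : Ω)
    (G : SimpleGraph (Fin n)) (k : ℕ) : Option A :=
  if (M.out ω G k).isSome then none
  else match M.act ω (M.run ω G k).steps (M.run ω G k).state with
    | .step => if b then (M.move ω G (M.run ω G k)).2.map Prod.fst
        else M.rd ω (M.run ω G k).steps (M.run ω G k).state
    | _ => none

/-- On every graph with degree sequence `δ` the machine answers correctly whether there is a
triangle with probability at least `2 / 3`, the seed being distributed according to `μ`. (First two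
clauses: the number of steps and the state after `k` operations and the registers read and written
are random variables.) -/
def RMachine.DetectsTriangles [MeasurableSpace Ω] (M : RMachine n Q A Γ Λ Ω) (μ : Measure Ω)
    (δ : Fin n → ℕ) : Prop :=
  ∀ G : SimpleGraph (Fin n), HasDegrees G δ →
    (∀ k t x, MeasurableSet {ω | (M.run ω G k).steps = t ∧ (M.run ω G k).state = x}) ∧
    (∀ b k y, MeasurableSet {ω | M.access b ω G k = y}) ∧
    2 / 3 ≤ μ.real {ω | ∃ k b, M.out ω G k = some b ∧ (b = true ↔ ¬ G.CliqueFree 3)}

/-- The cost of the first `m` operations if the reads (`b = false`), respectively the writes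
(`b = true`), are paid and `f a` is the price of the register `a`: the number of the steps, and in
addition the prices of the registers read, respectively written. The stack operations cost
nothing. -/
noncomputable def RMachine.cost (M : RMachine n Q A Γ Λ Ω) (f : A → ℝ) (b : Bool) (ω : Ω)
    (G : SimpleGraph (Fin n)) (m : ℕ) : ℝ :=
  (M.run ω G m).steps + ∑ k ∈ Finset.range m, (M.access b ω G k).elim 0 f

/-- The expected cost on every graph with degree sequence `δ` is at most `T`. -/
def RMachine.ExpectedCostLE [MeasurableSpace Ω] (M : RMachine n Q A Γ Λ Ω) (μ : Measure Ω)
    (δ : Fin n → ℕ) (f : A → ℝ) (b : Bool) (T : ℝ) : Prop :=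
  ∀ G : SimpleGraph (Fin n), HasDegrees G δ → ∀ m : ℕ,
    ∫⁻ ω, ENNReal.ofReal (M.cost f b ω G m) ∂μ ≤ ENNReal.ofReal T

end Pool.Agent.RSA
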