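import Mathlib
import Pool.Agent.RAC.Stmts
import Pool.Agent.RSA.Defs

/-!
# Randomised machines with prices and a free stack: statements

Architect: helper83 (version of the hand-in RandomizedAccessCost of MP_ad5e8e_lc with a free stack).

MAIN THEOREM (`S_MAIN`). As `Pool.Agent.RAC.main_bound`, for machines with a free unlimited stack and
with `2 ^ (s ^ (1 - ε))` states.

Every module proves one theorem `t_XXX : S_XXX` or `t_XXX (h : S_YYY) ... : S_XXX`. The complete paper
proof is in the comment at the statement. Namespace `Pool.Agent.RSA`; prefix helper lemmas by the name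
of the module. Most modules are adapted copies of the modules of `Pool/Agent/RAC`.
-/

set_option autoImplicit false
set_option linter.unusedVariables false

open MeasureTheory

namespace Pool.Agent.RSA

open Finset Equiv Pool.Agent.TS Pool.Agent.TR Pool.Agent.HR Pool.Agent.HM
open Pool.Agent.ACC (write farR farW valOf nearW cont)
open Pool.Agent.RAC (Simp Sparse HS ES Cond K0 S_GOOD S_TFC S_HM S_CHO)

/-! ### the main theorem -/

/-- MAIN THEOREM. Module MAIN0 (about 60 lines; assumes `S_SIZ`, `RAC.S_CHO`).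
PROOF. Copy `RAC.t_MAIN0`; `S_CHO` is used for `κ' = 100 * κ + 1000` instead of `κ`. The number of the
states: `s ^ (1 - ε) ≤ s ^ (1 - ε')` for `ε' = min ε 1`, and `Real.rpow_le_rpow_of_exponent_le` for the
power of `2`. -/
def S_MAIN : Prop :=
  ∀ (κ : ℕ) (ε : ℝ), 0 < ε → ∃ c : ℝ, 0 < c ∧ ∃ s₀ : ℕ, ∀ (s : ℕ) (φ : ℝ), s₀ ≤ s →
    (s₀ : ℝ) ≤ φ → ∃ (n : ℕ) (δ : Fin n → ℕ), 2 * n + ∑ v, δ v = 2 * s ∧
      ∀ (Q A Γ Λ Ω : Type) [Fintype Q] [Fintype A] [Fintype Γ] [MeasurableSpace Ω]
        (μ : Measure Ω) [IsProbabilityMeasure μ] (M : RMachine n Q A Γ Λ Ω) (g : ℕ) (f : A → ℝ)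
        (b : Bool) (T : ℝ), 1 ≤ g → (Fintype.card Q : ℝ) ≤ 2 ^ ((s : ℝ) ^ (1 - ε)) →
        Fintype.card A ≤ s ^ κ → Fintype.card Γ ≤ s ^ (κ * g) → (∀ a, 0 ≤ f a) →
        (Nat.card {a : A // f a < φ * g} : ℝ) * g ≤ (s : ℝ) ^ (1 - ε) →
        M.DetectsTriangles μ δ → M.ExpectedCostLE μ δ f b T →
        c * s * (min (Real.log s) (Real.log φ) / Real.log (min (Real.log s) (Real.log φ))) ≤ T

/-! ### deterministic machines -/

/-- Deterministic machines reading permutations, with registers `A` of content `Γ` and a stack. -/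
structure SDM (K U Q A Γ Λ : Type) where
  start : Q
  init : A → Γ
  act : ℕ → Q → Act Q Λ
  rd : ℕ → Q → Option A
  ask : ℕ → Q → Option Γ → Option (K × Bool × U)
  step : ℕ → Q → Option Γ → Option U → Q × Option (A × Γ)

section Det

variable {K U Q A Γ Λ : Type}

/-- The content read. -/
def SDM.val (M : SDM K U Q A Γ Λ) (x : Conf Q A Γ Λ) : Option Γ := (M.rd x.steps x.state).map x.reg

/-- The question. -/
def SDM.qu (M : SDM K U Q A Γ Λ) (x : Conf Q A Γ Λ) : Option (K × Bool × U) :=
  M.ask x.steps x.state (M.val x)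

/-- The next state and the write of a step. -/
def SDM.mv (M : SDM K U Q A Γ Λ) (z : K → Perm U) (x : Conf Q A Γ Λ) : Q × Option (A × Γ) :=
  M.step x.steps x.state (M.val x) ((M.qu x).map (qans z))

/-- The next configuration. -/
noncomputable def SDM.op (M : SDM K U Q A Γ Λ) (z : K → Perm U) (x : Conf Q A Γ Λ) :
    Conf Q A Γ Λ :=
  match M.act x.steps x.state with
  | .step => ⟨x.steps + 1, (M.mv z x).1, write x.reg (M.mv z x).2, x.stack⟩
  | .push a q => ⟨x.steps, q, x.reg, a :: x.stack⟩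
  | .pop f => ⟨x.steps, f x.stack.head?, x.reg, x.stack.tail⟩

/-- The run; the time is the number of the operations. -/
noncomputable def SDM.run (M : SDM K U Q A Γ Λ) (z : K → Perm U) : ℕ → Conf Q A Γ Λ
  | 0 => ⟨0, M.start, M.init, []⟩
  | k + 1 => M.op z (M.run z k)

/-- The register read (`b = false`) or written (`b = true`) in the next operation. -/
noncomputable def SDM.acs (M : SDM K U Q A Γ Λ) (b : Bool) (z : K → Perm U) (x : Conf Q A Γ Λ) :
    Option A :=
  match M.act x.steps x.state with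
  | .step => if b then (M.mv z x).2.map Prod.fst else M.rd x.steps x.state
  | _ => none

open Classical in
/-- The number of accesses of kind `b` outside `P` in the first `N` operations. -/
noncomputable def SDM.cnt (M : SDM K U Q A Γ Λ) (P : A → Prop) (b : Bool) (z : K → Perm U) (N : ℕ) :
    ℕ :=
  ((range N).filter fun k => ∃ a, M.acs b z (M.run z k) = some a ∧ ¬ P a).card

/-- Module DS (helper83). A machine with at most `F` accesses of kind `b` is an abstract computation
with few transcripts; `st` of the transcript is the state in which the step number `N` would be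
made. -/
def S_DS : Prop :=
  ∀ (K U Q A Γ Λ : Type) [Fintype K] [Fintype U] [DecidableEq K] [DecidableEq U] [Fintype Q]
    [Fintype A] [Fintype Γ] (M : SDM K U Q A Γ Λ) (b : Bool) (ℓ r N F : ℕ), 0 < ℓ → N < ℓ * r →
    (∀ z k, M.cnt (fun _ => False) b z k ≤ F) →
    ∃ (X : Type) (Y : DS K U X r) (st : X → Option Q),
      (∀ z q, st (Y.tr z) = some q ↔
        ∃ k, (M.run z k).steps = N ∧ (M.run z k).state = q ∧ M.act N q = Act.step) ∧
      (∀ z j, (Y.hit z j).card ≤ 2 * ℓ + 1) ∧ (∀ z, ∑ j, (Y.hit z j).card ≤ N) ∧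
      Y.tg.card ≤ (100 * (N + 1) ^ 2 * (Fintype.card Q + 1) ^ 2) ^ (r + 2) *
        (N * ((N + 1) * (Fintype.card A * Fintype.card Γ)) + 1) ^ F

variable (M : SDM K U Q A Γ Λ) (P : A → Prop) [DecidablePred P] (b : Bool) (F : ℕ)

/-- The machine with the registers in `P` as a part of the state, stopped (state `none`, idle steps
for ever) before the access number `F + 1` of kind `b` outside `P`. -/
noncomputable def capm : SDM K U (Option (Fin (F + 1) × Q × ({a : A // P a} → Γ))) A Γ Λ where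
  start := some (0, M.start, fun a => M.init a.1)
  init := M.init
  act t s := match s with
    | none => .step
    | some (i, q, ν) => match M.act t q with
      | .step => .step
      | .push a q' => .push a (some (i, q', ν))
      | .pop f => .pop fun o => some (i, f o, ν)
  rd τ s := match s with
    | none => none
    | some (i, q, _) => if b = false ∧ (i : ℕ) = F then none else farR P (M.rd τ q)
  ask τ s γ := match s with
    | none => none
    | some (i, q, ν) =>
      if b = false ∧ (i : ℕ) = F ∧ (farR P (M.rd τ q)).isSome then none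
      else M.ask τ q (valOf P (M.rd τ q) ν γ)
  step τ s γ a := match s with
    | none => (none, none)
    | some (i, q, ν) =>
      if ((if b then (farW P (M.step τ q (valOf P (M.rd τ q) ν γ) a).2).isSome
        else (farR P (M.rd τ q)).isSome) : Bool) then
        (if h : (i : ℕ) + 1 < F + 1 then
          (some (⟨i + 1, h⟩, (M.step τ q (valOf P (M.rd τ q) ν γ) a).1,
            nearW P ν (M.step τ q (valOf P (M.rd τ q) ν γ) a).2),
            farW P (M.step τ q (valOf P (M.rd τ q) ν γ) a).2)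
        else (none, none))
      else (some (i, (M.step τ q (valOf P (M.rd τ q) ν γ) a).1,
            nearW P ν (M.step τ q (valOf P (M.rd τ q) ν γ) a).2),
            farW P (M.step τ q (valOf P (M.rd τ q) ν γ) a).2)

end Det

/-- Module CAP (about 250 lines). The stopped machine.
PROOF. As `RAC.t_CAP` (`Pool/Agent/RAC/Cap.lean`), the time is now the number of the operations.
(1) Claim, by induction on `k`: if `M.cnt P b z k ≤ F` then `(capm M P b F).run z k = ⟨(M.run z
k).steps, some (i, (M.run z k).state, ν), c', (M.run z k).stack⟩` with `i = M.cnt P b z k` and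
`cont P ν c' = (M.run z k).reg` (`ACC.valOf_eq`, `ACC.cont_write`). (2) If `F < M.cnt P b z k` then the
state of the stopped machine after `k` operations is `none`. (3) The number of the accesses of kind `b`
made by the stopped machine before `k` is at most its counter `i` (at most `F` if it is stopped).
The second clause follows from (1) and (2). -/
def S_CAP : Prop :=
  ∀ (K U Q A Γ Λ : Type) (M : SDM K U Q A Γ Λ) (P : A → Prop) [DecidablePred P] (b : Bool) (F : ℕ)
    (z : K → Perm U),
    (∀ k, (capm M P b F).cnt (fun _ => False) b z k ≤ F) ∧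
    ∀ (N : ℕ) (R : Q → Prop),
      (∃ k, ((capm M P b F).run z k).steps = N ∧
        ∃ i q ν, ((capm M P b F).run z k).state = some (i, q, ν) ∧ R q) ↔
      ∃ k, (M.run z k).steps = N ∧ R (M.run z k).state ∧ M.cnt P b z k ≤ F

section Enc

variable {J B U : Type} {t d w pad : ℕ} (eJ : J ≃ Fin t) (eB : B ≃ Fin d) (eU : U ≃ Fin w)
  {Q A Γ Λ Ω : Type}

open Classical in
/-- The deterministic machine of a seed; when it has answered it makes idle steps for ever. -/
noncomputable def dfm (E : B × U → B × U → Prop)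
    (M : RMachine (t * w + (d * w + (d * w + pad))) Q A Γ Λ Ω)
    (ω : Ω) : SDM (Bool × (J × B)) U Q A Γ Λ where
  start := M.start ω
  init := M.init ω
  act i x := if (M.output x).isSome then .step else M.act ω i x
  rd i x := if (M.output x).isSome then none else M.rd ω i x
  ask i x γ := (tr eJ eB eU pad (M.ask ω i x γ)).map qconv
  step i x γ a := if (M.output x).isSome then (x, none) else
    if h : ∃ z : Bool × (J × B) → Perm U,
      ((tr eJ eB eU pad (M.ask ω i x γ)).map qconv).map (qans z) = a then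
      M.next ω i x γ (answer (theGraph eJ eB eU pad E (toInp h.choose)) (M.ask ω i x γ))
    else (x, none)

end Enc

/-! ### probabilities -/

open Classical in
/-- The number of accesses of kind `b` outside `P` in the first `N` operations. -/
noncomputable def fcnt {n : ℕ} {Q A Γ Λ Ω : Type} (M : RMachine n Q A Γ Λ Ω) (P : A → Prop)
    (b : Bool) (ω : Ω) (G : SimpleGraph (Fin n)) (N : ℕ) : ℕ :=
  ((range N).filter fun k => ∃ a, M.access b ω G k = some a ∧ ¬ P a).card

/-- The event: the answer `no triangle`, after at most `N` steps and few accesses. -/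
def AE {n : ℕ} {Q A Γ Λ Ω : Type} (M : RMachine n Q A Γ Λ Ω) (P : A → Prop) (b : Bool)
    (G : SimpleGraph (Fin n)) (N F : ℕ) : Set Ω :=
  {ω | ∃ k, M.out ω G k = some false ∧ (M.run ω G k).steps ≤ N ∧ fcnt M P b ω G k ≤ F}

/-- Module ENC (about 150 lines). The deterministic machine of a seed accepts if and only if the seed
is in the event.
PROOF. As `RAC.t_ENC` (`Pool/Agent/RAC/Enc.lean`) one shows by induction on `k`: as long as
`M.out ω G j = none` for all `j < k` (`G = theGraph ...`), the two runs have the same configuration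
after `k` operations, and the same accesses (`acs`, `access`) in the operations `j < k`, so the same
counts. If `M.out ω G k = some a` for the first time, then `M.run` is constant from `k` on, and the
deterministic machine makes idle steps: after `k + i` operations it has the same state and stack, and
`steps + i` steps; no further accesses. Direction `←`: the answer `some false` occurs for the first time
after `k₀ ≤ k` operations with `steps ≤ N`; take `k₀ + (N - steps)` operations. Direction `→`: let `k`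
be given with `steps = N` and state `x`, `M.output x = some false`; let `k₀ ≤ k` be the first time that
the state has an output; the state does not change afterwards, and `steps` is at most `N` at `k₀`. -/
def S_ENC : Prop :=
  ∀ (J B U : Type) (t d w pad : ℕ) (eJ : J ≃ Fin t) (eB : B ≃ Fin d) (eU : U ≃ Fin w)
    (Q A Γ Λ Ω : Type) (E : B × U → B × U → Prop)
    (M : RMachine (t * w + (d * w + (d * w + pad))) Q A Γ Λ Ω) (ω : Ω) (P : A → Prop) (b : Bool)
    (z : Bool × (J × B) → Perm U) (N F : ℕ),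
    (∃ k, ((dfm eJ eB eU E M ω).run z k).steps = N ∧
      M.output ((dfm eJ eB eU E M ω).run z k).state = some false ∧
      (dfm eJ eB eU E M ω).cnt P b z k ≤ F) ↔
    ω ∈ AE M P b (theGraph eJ eB eU pad E (toInp z)) N F

/-- Module RND (about 250 lines). The probability of the event `AE`.
PROOF. As `RAC.t_RND` (`Pool/Agent/RAC/Rnd.lean`). Measurability: `AE` is a countable union over `k` of
sets given by the finitely many (countably many) values of `((M.run ω G k).steps, (M.run ω G k).state)`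
and of the accesses before `k`. The output is stable (`run` does not change once the machine has
answered), and so are `steps` and `fcnt`; `steps` and `fcnt` are nondecreasing in `k`. Second clause:
(1) `M.cost f b ω G k ≥ steps` (prices `≥ 0`), so `(N + 1) P(steps_k ≥ N + 1) ≤ T ≤ N / 20` for every
`k` (Markov), hence `P(∃ k, steps_k ≥ N + 1) ≤ 1/20` (monotone union:
`measure_iUnion_eq_iSup`, or `tendsto_measure_iUnion_atTop`). (2) `M.cost f b ω G k ≥ φ' * fcnt_k`, so
`P(∃ k, fcnt_k ≥ F + 1) ≤ 1/10` by `N ≤ 2 φ' (F + 1)`. (3) With probability at least `2/3` some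
`out_k = some false`. So `P(AE) ≥ 2/3 - 1/20 - 1/10 ≥ 1/2`. Third clause: `AE` is contained in the
event that the answer is `false`, which is wrong. -/
def S_RND : Prop :=
  ∀ (n : ℕ) (Q A Γ Λ Ω : Type) [Fintype Q] [Fintype A] [Fintype Γ] [MeasurableSpace Ω]
    (μ : Measure Ω) [IsProbabilityMeasure μ] (M : RMachine n Q A Γ Λ Ω) (f : A → ℝ) (P : A → Prop)
    (φ' : ℝ) (b : Bool) (G : SimpleGraph (Fin n)) (N F : ℕ), 0 < φ' → (∀ a, 0 ≤ f a) →
    (∀ a, ¬ P a → φ' ≤ f a) → 0 < N → (N : ℝ) ≤ 2 * φ' * (F + 1) →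
    (∀ k t x, MeasurableSet {ω | (M.run ω G k).steps = t ∧ (M.run ω G k).state = x}) →
    (∀ b k y, MeasurableSet {ω | M.access b ω G k = y}) →
    2 / 3 ≤ μ.real {ω | ∃ k b, M.out ω G k = some b ∧ (b = true ↔ ¬ G.CliqueFree 3)} →
    (∀ m : ℕ, ∫⁻ ω, ENNReal.ofReal (M.cost f b ω G m) ∂μ ≤ ENNReal.ofReal (N / 20)) →
    MeasurableSet (AE M P b G N F) ∧
    (G.CliqueFree 3 → 1 / 2 ≤ μ.real (AE M P b G N F)) ∧
    (¬ G.CliqueFree 3 → μ.real (AE M P b G N F) ≤ 1 / 3)

/-! ### the combined statement -/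

/-- The bound for the number of transcripts. -/
def cTr (q γ a near L r F : ℕ) : ℕ :=
  (100 * (r * L + 1) ^ 2 * ((F + 1) * (q * γ ^ near) + 1 + 1) ^ 2) ^ (4 * r + 1 + 2) *
    ((r * L) * ((r * L + 1) * (a * γ)) + 1) ^ F

/-- Module COMB (about 300 lines; assumes the modules above). No fast machine, under numerical
conditions.
PROOF. Copy the proof of `RAC.t_COMB` (`Pool/Agent/RAC/Comb.lean`). `S_DS` is applied to
`capm (dfm eJ eB eU (ES σ adj) M ω) P b F` with `ℓ = (L - 1) / 2`, `4 * r + 1` components and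
`N = r * L` (`3 ≤ L` gives `L ≤ 4 ℓ`, so `r L < ℓ (4 r + 1)`, and `2 ℓ + 1 ≤ L`), its hypothesis is the
first clause of `S_CAP`; `Acc x := ∃ i q ν, st x = some (some (i, q, ν)) ∧ M.output q = some false`;
`Acc (Y.tr z) ↔ ω ∈ AE M P b (Gr z) N F` by the second clause of `S_CAP` (with `R q := M.output q = some
false`; in such a state the action of `capm (dfm ...)` is `.step`) and `S_ENC`. `S_GOOD` is used with
`r := 4 * r + 1`. The rest is unchanged. -/
def S_COMB : Prop :=
  ∀ (J B U C CU Q A Γ Λ Ω : Type) [Fintype J] [Fintype B] [AddCommGroup U] [Fintype U] [Fintype C]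
    [Fintype CU] [DecidableEq J] [DecidableEq B] [DecidableEq U] [DecidableEq C] [Fintype Q]
    [Fintype A] [Fintype Γ] [MeasurableSpace Ω] (μ : Measure Ω) [IsProbabilityMeasure μ]
    (σ : C → Perm B) (M0 : ℕ) (γU : CU → U) (t d w pad : ℕ) (eJ : J ≃ Fin t) (eB : B ≃ Fin d)
    (eU : U ≃ Fin w) (M : RMachine (t * w + (d * w + (d * w + pad))) Q A Γ Λ Ω)
    (dg' : Fin (t * w + (d * w + (d * w + pad))) → ℕ) (f : A → ℝ) (P : A → Prop) (φ' : ℝ)
    (b : Bool) (T : ℝ) (near : ℕ) (lamU : ℝ) (L r k g V fF h0 F : ℕ) (Lam : ℝ),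
    Simp σ → Sparse σ M0 → Function.Injective γU →
    M.DetectsTriangles μ dg' → M.ExpectedCostLE μ dg' f b T →
    0 < φ' → (∀ a, 0 ≤ f a) → (∀ a, ¬ P a → φ' ≤ f a) → Nat.card {a : A // P a} = near →
    (∀ z : Inp J B U, HasDegrees (theGraph eJ eB eU pad (ES σ (adjU γU)) z) dg') →
    0 ≤ lamU → (∀ ψ : AddChar U ℂ, ψ ≠ 0 → ‖∑ k, ψ (γU k)‖ ≤ lamU) →
    3 ≤ L → 0 < r → 0 < k → 2 ≤ g → k ≤ g + 2 → (g + 2) ^ k ≤ V → 0 < fF → 0 < Lam →
    M0 * L ≤ Fintype.card B → ((r * L : ℕ) : ℝ) ≤ 2 * φ' * (F + 1) →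
    0 < Fintype.card U → 0 < Fintype.card J → 0 < Fintype.card B → 0 < Fintype.card C →
    0 < Fintype.card CU →
    120 * (Fintype.card CU : ℝ) ≤ Fintype.card U → 60 * (lamU * Lam) ≤ Fintype.card CU →
    2 * ((Fintype.card C : ℝ) * ((r * L : ℕ) : ℝ) / k) + 12 * ((r * L : ℕ) : ℝ) ≤
      1 / 40 * (Fintype.card J * Fintype.card B * Fintype.card C * Fintype.card U) →
    (2 * (Fintype.card C : ℝ) + 8 * k * ((g : ℝ) + 2) ^ k) / V +
      (2 + 8 * (2 * ((Fintype.card J : ℝ) * Fintype.card B) * Fintype.card U) / V +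
        2 * k * L) / fF ≤ 1 / 40 →
    40 * ((Fintype.card C : ℝ) * Fintype.card CU) ≤ Fintype.card U →
    480 * (V : ℝ) ^ 2 * ((h0 + 2 * ((Fintype.card J : ℝ) * Fintype.card B) * Fintype.card U /
        Real.sqrt Lam) + HR.nDesc fF V (cTr (Fintype.card Q) (Fintype.card Γ) (Fintype.card A) near
          L r F) (2 * (Fintype.card J * Fintype.card B) * Fintype.card U) *
        (fF * (2 ^ fF * ((Real.exp 1 / Real.sqrt Lam) ^ h0 *
          (Fintype.card U : ℝ) ^ (2 * (Fintype.card C * Fintype.card CU) *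
            (Fintype.card J * Fintype.card B)))))) ≤
      1 / 20 * (Fintype.card J * Fintype.card B * Fintype.card C * Fintype.card U) →
    ((r * L : ℕ) : ℝ) < 20 * T

/-! ### numbers -/

/-- The new value of `κ`. -/
def kap (κ : ℕ) : ℕ := 100 * κ + 1000

/-- Module CX (about 120 lines). The logarithm of the number of transcripts.
PROOF. Let `l = log s ≥ 1`. `log q ≤ S0` (`log 2 ≤ 1`; if `q = 0` the logarithm is `0`),
`near * log γ ≤ near κ g l ≤ κ S0 l`, `log (F + 1) ≤ 2 l`; so the logarithm of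
`(F + 1) (q γ^near) + 2 ≤ 3 (F + 1) max(q,1) max(γ,1)^near` is at most `2 + 2 l + S0 + κ S0 l ≤
(κ + 5) S0 l` and the logarithm of the base of the first power is at most
`5 + 4 l + 2 (κ + 5) S0 l ≤ (2 κ + 19) S0 l`. The exponent is `4 r + 3 ≤ 4 (r + 1)`, and
`4 (2 κ + 19) ≤ 2 (kap κ + 4)`. The second factor: `(r L)((r L + 1)(a γ)) + 1 ≤ s^(5 + κ + κ g)`,
logarithm at most `(5 + 2 κ) g l`, and `F (5 + 2 κ) g l ≤ (r L)/(2 φ) (5 + 2 κ) l
≤ (r L)/φ (kap κ + 3) l`. -/
def S_CX : Prop :=
  ∀ (κ s q γ a near L r F g : ℕ) (S0 φ : ℝ), 3 ≤ s → 1 ≤ g → (q : ℝ) ≤ 2 ^ S0 → a ≤ s ^ κ →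
    γ ≤ s ^ (κ * g) → (near : ℝ) * g ≤ S0 → 1 ≤ S0 → 0 < φ → r * L + 1 ≤ s ^ 2 →
    F ≤ r * L → (F : ℝ) ≤ ((r * L : ℕ) : ℝ) / (2 * (φ * g)) →
    1 ≤ cTr q γ a near L r F ∧
    Real.log (cTr q γ a near L r F) ≤ ((r : ℝ) + 1) * (2 * ((kap κ : ℝ) + 4) * S0 * Real.log s) +
      ((r * L : ℕ) : ℝ) / φ * (((kap κ : ℝ) + 3) * Real.log s)

/-- The statement `machine is slow` for a number of vertices, a degree sequence and numbers. -/
def Slow (κ s : ℕ) (φ S0 : ℝ) (n : ℕ) (δ : Fin n → ℕ) (x : ℝ) : Prop :=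
  ∀ (Q A Γ Λ Ω : Type) [Fintype Q] [Fintype A] [Fintype Γ] [MeasurableSpace Ω]
    (μ : Measure Ω) [IsProbabilityMeasure μ] (M : RMachine n Q A Γ Λ Ω) (g : ℕ) (f : A → ℝ)
    (b : Bool) (T : ℝ), 1 ≤ g → (Fintype.card Q : ℝ) ≤ 2 ^ S0 → Fintype.card A ≤ s ^ κ →
    Fintype.card Γ ≤ s ^ (κ * g) → (∀ a, 0 ≤ f a) →
    (Nat.card {a : A // f a < φ * g} : ℝ) * g ≤ S0 →
    M.DetectsTriangles μ δ → M.ExpectedCostLE μ δ f b T → x ≤ T

/-- Module PAR (about 380 lines; assumes `S_COMB`, `RAC.S_HM`, `S_CX`). The lower bound for given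
parameters.
PROOF. Copy `RAC.t_PAR` (`Pool/Agent/RAC/Par.lean`) with `kap κ` in `Cond`; new: `3 ≤ L`, since
`L ≥ m D / (6 D^4)` and `m D ≥ 18 D^4` by the sixth condition of `Cond`. -/
def S_PAR : Prop :=
  ∀ (κ s : ℕ) (φ S0 : ℝ) (gg D q m t pad d w : ℕ) [NeZero D] [Fact q.Prime]
    (σ : ZMod D → Perm (Fin m × ZMod D)) (eB : (Fin m × ZMod D) ≃ Fin d)
    (eU : (Blk q 0 × Inn q) ≃ Fin w) (dg' : Fin (t * w + (d * w + (d * w + pad))) → ℕ),
    Simp σ → Sparse σ (3 * D ^ 4) → 3 ≤ s → 0 < m → 0 < t → Cond (kap κ) s φ S0 gg D q (m * D) →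
    t * (m * D) * q ^ 3 ≤ s →
    (∀ z : Inp (Fin t) (Fin m × ZMod D) (Blk q 0 × Inn q),
      HasDegrees (theGraph (Equiv.refl (Fin t)) eB eU pad
        (ES σ (adjU (gen : Gen q → Blk q 0 × Inn q))) z) dg') →
    Slow κ s φ S0 (t * w + (d * w + (d * w + pad))) dg'
      (((gg : ℝ) + 2) * (t * (m * D) * (q : ℝ) ^ 3) / 12800)

/-- Module SIZ (about 120 lines; assumes `S_PAR`, `RAC.S_EXP`, `RAC.S_TFC`). Graphs of every size.
PROOF. Copy `RAC.t_SIZ` (`Pool/Agent/RAC/Siz.lean`) with `kap κ` in `Cond`. -/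
def S_SIZ : Prop :=
  ∀ (κ s : ℕ) (φ S0 : ℝ) (gg D q m : ℕ) [Fact q.Prime], 3 ≤ s → 0 < m → 0 < D →
    Cond (kap κ) s φ S0 gg D q (m * D) → 16 * ((m * D) * D * q ^ 5) ≤ s →
    ∃ (n : ℕ) (δ : Fin n → ℕ), 2 * n + ∑ v, δ v = 2 * s ∧
      Slow κ s φ S0 n δ (((gg : ℝ) + 2) * s / 204800)

end Pool.Agent.RSA
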