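import Mathlib
import Pool.Agent.RSA.Stmts

/-!
# Machines with a stack, stopped after too many expensive accesses
-/

set_option autoImplicit false
set_option linter.unusedSectionVars false

namespace Pool.Agent.RSA

open Finset Equiv Pool.Agent.TS Pool.Agent.TR Pool.Agent.HR Pool.Agent.HM
open Pool.Agent.ACC (write farR farW valOf nearW cont valOf_eq cont_write)

section CapSec

variable {K U Q A Γ Λ : Type}

open Classical in
private lemma cap_cnt_succ (M : SDM K U Q A Γ Λ) (P : A → Prop) (b : Bool) (z : K → Perm U)
    (N : ℕ) :
    M.cnt P b z (N + 1) = M.cnt P b z N +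
      if (∃ a, M.acs b z (M.run z N) = some a ∧ ¬ P a) then 1 else 0 := by
  unfold SDM.cnt
  rw [Finset.range_add_one, Finset.filter_insert]
  split_ifs with h
  · rw [Finset.card_insert_of_notMem (by simp)]
  · simp

variable (M : SDM K U Q A Γ Λ) (P : A → Prop) [DecidablePred P] (b : Bool) (F : ℕ)
  (z : K → Perm U)

/-- The access is expensive. -/
private noncomputable def cap_far (x : Conf Q A Γ Λ) : Bool :=
  if b then (farW P (M.mv z x).2).isSome else (farR P (M.rd x.steps x.state)).isSome

private lemma cap_farW_some (w : Option (A × Γ)) :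
    (farW P w).isSome = true ↔ ∃ a, w.map Prod.fst = some a ∧ ¬ P a := by
  rcases w with _ | ⟨a, v⟩
  · simp [farW]
  · by_cases h : P a <;> simp [farW, h]

private lemma cap_farR_some (o : Option A) :
    (farR P o).isSome = true ↔ ∃ a, o = some a ∧ ¬ P a := by
  rcases o with _ | a
  · simp [farR]
  · by_cases h : P a <;> simp [farR, h]

private lemma cap_acs_step (x : Conf Q A Γ Λ) (h : M.act x.steps x.state = Act.step) :
    M.acs b z x = if b then (M.mv z x).2.map Prod.fst else M.rd x.steps x.state := by
  unfold SDM.acs
  rw [h]

private lemma cap_acs_push (x : Conf Q A Γ Λ) (a : Λ) (q : Q)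
    (h : M.act x.steps x.state = Act.push a q) : M.acs b z x = none := by
  unfold SDM.acs
  rw [h]

private lemma cap_acs_pop (x : Conf Q A Γ Λ) (f : Option Λ → Q)
    (h : M.act x.steps x.state = Act.pop f) : M.acs b z x = none := by
  unfold SDM.acs
  rw [h]

private lemma cap_op_step (x : Conf Q A Γ Λ) (h : M.act x.steps x.state = Act.step) :
    M.op z x = ⟨x.steps + 1, (M.mv z x).1, write x.reg (M.mv z x).2, x.stack⟩ := by
  unfold SDM.op
  rw [h]

private lemma cap_op_push (x : Conf Q A Γ Λ) (a : Λ) (q : Q)
    (h : M.act x.steps x.state = Act.push a q) :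
    M.op z x = ⟨x.steps, q, x.reg, a :: x.stack⟩ := by
  unfold SDM.op
  rw [h]

private lemma cap_op_pop (x : Conf Q A Γ Λ) (f : Option Λ → Q)
    (h : M.act x.steps x.state = Act.pop f) :
    M.op z x = ⟨x.steps, f x.stack.head?, x.reg, x.stack.tail⟩ := by
  unfold SDM.op
  rw [h]

private lemma cap_far_iff (x : Conf Q A Γ Λ) (h : M.act x.steps x.state = Act.step) :
    cap_far M P b z x = true ↔ ∃ a, M.acs b z x = some a ∧ ¬ P a := by
  rw [cap_acs_step M b z x h]
  cases b
  · simpa [cap_far] using cap_farR_some P (M.rd x.steps x.state)
  · simpa [cap_far] using cap_farW_some P (M.mv z x).2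

/-- The move of the stopped machine. -/
private lemma cap_mv (t : ℕ) (i : Fin (F + 1)) (q : Q) (ν : {a : A // P a} → Γ) (c' : A → Γ)
    (s : List Λ) (h : ¬ (b = false ∧ (i : ℕ) = F ∧ (farR P (M.rd t q)).isSome = true)) :
    (capm M P b F).mv z ⟨t, some (i, q, ν), c', s⟩ =
      if cap_far M P b z ⟨t, q, cont P ν c', s⟩ = true then
        (if h : (i : ℕ) + 1 < F + 1 then
          (some (⟨i + 1, h⟩, (M.mv z ⟨t, q, cont P ν c', s⟩).1,
            nearW P ν (M.mv z ⟨t, q, cont P ν c', s⟩).2),
            farW P (M.mv z ⟨t, q, cont P ν c', s⟩).2)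
        else (none, none))
      else (some (i, (M.mv z ⟨t, q, cont P ν c', s⟩).1,
            nearW P ν (M.mv z ⟨t, q, cont P ν c', s⟩).2),
            farW P (M.mv z ⟨t, q, cont P ν c', s⟩).2) := by
  have hv : (capm M P b F).val ⟨t, some (i, q, ν), c', s⟩ = (farR P (M.rd t q)).map c' := by
    show ((if b = false ∧ (i : ℕ) = F then none else farR P (M.rd t q)) : Option A).map c' = _
    by_cases h1 : b = false ∧ (i : ℕ) = F
    · have h2 : (farR P (M.rd t q)).isSome ≠ true := fun h2 => h ⟨h1.1, h1.2, h2⟩
      rw [if_pos h1]
      rcases h3 : farR P (M.rd t q) with _ | a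
      · rfl
      · rw [h3] at h2; exact absurd rfl h2
    · rw [if_neg h1]
  have hv2 : valOf P (M.rd t q) ν ((capm M P b F).val ⟨t, some (i, q, ν), c', s⟩) =
      M.val ⟨t, q, cont P ν c', s⟩ := by
    rw [hv, valOf_eq]; rfl
  have hq : (capm M P b F).qu ⟨t, some (i, q, ν), c', s⟩ = M.qu ⟨t, q, cont P ν c', s⟩ := by
    show (if b = false ∧ (i : ℕ) = F ∧ (farR P (M.rd t q)).isSome then none
      else M.ask t q (valOf P (M.rd t q) ν
        ((capm M P b F).val ⟨t, some (i, q, ν), c', s⟩))) = _
    rw [if_neg h, hv2]; rfl
  have e : (capm M P b F).mv z ⟨t, some (i, q, ν), c', s⟩ =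
      (capm M P b F).step t (some (i, q, ν))
        ((capm M P b F).val ⟨t, some (i, q, ν), c', s⟩)
        (((capm M P b F).qu ⟨t, some (i, q, ν), c', s⟩).map (qans z)) := rfl
  rw [e, hq]
  show (if ((if b then (farW P (M.step t q (valOf P (M.rd t q) ν
      ((capm M P b F).val ⟨t, some (i, q, ν), c', s⟩)) _).2).isSome
        else (farR P (M.rd t q)).isSome) : Bool) then _ else _) = _
  rw [hv2]
  rfl

private lemma cap_mv_stop (t : ℕ) (i : Fin (F + 1)) (q : Q) (ν : {a : A // P a} → Γ)
    (c' : A → Γ) (s : List Λ) (hb : b = false) (hi : (i : ℕ) = F)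
    (hf : (farR P (M.rd t q)).isSome = true) :
    (capm M P b F).mv z ⟨t, some (i, q, ν), c', s⟩ = (none, none) := by
  subst hb
  have e : (capm M P false F).mv z ⟨t, some (i, q, ν), c', s⟩ =
      (capm M P false F).step t (some (i, q, ν))
        ((capm M P false F).val ⟨t, some (i, q, ν), c', s⟩)
        (((capm M P false F).qu ⟨t, some (i, q, ν), c', s⟩).map (qans z)) := rfl
  rw [e]
  show (if ((if false then _ else (farR P (M.rd t q)).isSome) : Bool) then _ else _) = _
  rw [if_neg (by simp : ¬ (false = true))]
  rw [if_pos hf, dif_neg (by omega)]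

private lemma cap_mv_none (t : ℕ) (c' : A → Γ) (s : List Λ) :
    (capm M P b F).mv z ⟨t, none, c', s⟩ = (none, none) := rfl

private lemma cap_act_step (t : ℕ) (i : Fin (F + 1)) (q : Q) (ν : {a : A // P a} → Γ)
    (h : M.act t q = Act.step) : (capm M P b F).act t (some (i, q, ν)) = Act.step := by
  show (match M.act t q with
      | .step => Act.step
      | .push a q' => .push a (some (i, q', ν))
      | .pop f => .pop fun o => some (i, f o, ν)) = _
  rw [h]

private lemma cap_act_push (t : ℕ) (i : Fin (F + 1)) (q : Q) (ν : {a : A // P a} → Γ)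
    (a : Λ) (q' : Q) (h : M.act t q = Act.push a q') :
    (capm M P b F).act t (some (i, q, ν)) = Act.push a (some (i, q', ν)) := by
  show (match M.act t q with
      | .step => Act.step
      | .push a q' => .push a (some (i, q', ν))
      | .pop f => .pop fun o => some (i, f o, ν)) = _
  rw [h]

private lemma cap_act_pop (t : ℕ) (i : Fin (F + 1)) (q : Q) (ν : {a : A // P a} → Γ)
    (f : Option Λ → Q) (h : M.act t q = Act.pop f) :
    (capm M P b F).act t (some (i, q, ν)) = Act.pop fun o => some (i, f o, ν) := by
  show (match M.act t q with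
      | .step => Act.step
      | .push a q' => .push a (some (i, q', ν))
      | .pop f => .pop fun o => some (i, f o, ν)) = _
  rw [h]

private lemma cap_run_none (k : ℕ) (h : ((capm M P b F).run z k).state = none) :
    ((capm M P b F).run z (k + 1)).state = none := by
  obtain ⟨x, hx⟩ : ∃ x, (capm M P b F).run z k = x := ⟨_, rfl⟩
  rw [hx] at h
  show ((capm M P b F).op z ((capm M P b F).run z k)).state = none
  rw [hx]
  obtain ⟨t, s, c', st⟩ := x
  simp only at h
  subst h
  rw [cap_op_step (capm M P b F) z _ rfl]
  rfl

/-- As long as there are few accesses the stopped machine follows the machine. -/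
private lemma cap_run (k : ℕ) (h : M.cnt P b z k ≤ F) :
    ∃ (ν : {a : A // P a} → Γ) (c' : A → Γ), (capm M P b F).run z k =
      ⟨(M.run z k).steps, some (⟨M.cnt P b z k, Nat.lt_succ_of_le h⟩, (M.run z k).state, ν), c',
        (M.run z k).stack⟩ ∧
      cont P ν c' = (M.run z k).reg := by
  induction k with
  | zero =>
    refine ⟨fun a => M.init a.1, M.init, ?_, ?_⟩
    · show (⟨0, some (0, M.start, fun a => M.init a.1), M.init, []⟩ :
        Conf (Option (Fin (F + 1) × Q × ({a : A // P a} → Γ))) A Γ Λ) = _
      congr 3
    · funext a
      by_cases ha : P a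
      · simp only [cont, dif_pos ha]; rfl
      · simp only [cont, dif_neg ha]; rfl
  | succ k ih =>
    have hs := cap_cnt_succ M P b z k
    have hle : M.cnt P b z k ≤ F := by
      rw [hs] at h; omega
    obtain ⟨ν, c', h1, h2⟩ := ih hle
    have hp : (⟨(M.run z k).steps, (M.run z k).state, cont P ν c', (M.run z k).stack⟩ :
        Conf Q A Γ Λ) = M.run z k := by rw [h2]
    have hrun : (capm M P b F).run z (k + 1) =
        (capm M P b F).op z ((capm M P b F).run z k) := rfl
    have hrun' : M.run z (k + 1) = M.op z (M.run z k) := rfl
    rcases hact : M.act (M.run z k).steps (M.run z k).state with _ | ⟨a, q'⟩ | f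
    · have hop := cap_op_step M z (M.run z k) hact
      have hfi := cap_far_iff M P b z (M.run z k) hact
      by_cases hf : cap_far M P b z (M.run z k) = true
      · rw [if_pos (hfi.1 hf)] at hs
        have hlt : M.cnt P b z k < F := by omega
        have hmv := cap_mv M P b F z (M.run z k).steps ⟨M.cnt P b z k, Nat.lt_succ_of_le hle⟩
          (M.run z k).state ν c' (M.run z k).stack
          (by rintro ⟨_, h3, _⟩; simp only at h3; omega)
        rw [hp, if_pos hf, dif_pos (by simp only; omega)] at hmv
        refine ⟨nearW P ν (M.mv z (M.run z k)).2, write c' (farW P (M.mv z (M.run z k)).2),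
          ?_, ?_⟩
        · rw [hrun, h1, cap_op_step (capm M P b F) z _ (cap_act_step M P b F _ _ _ _ hact), hmv,
            hrun', hop]
          simp only [← hrun', hs]
        · rw [cont_write, h2, hrun', hop]
      · have hs' : M.cnt P b z (k + 1) = M.cnt P b z k := by
          rw [if_neg (fun h3 => hf (hfi.2 h3))] at hs
          simpa using hs
        have hmv := cap_mv M P b F z (M.run z k).steps ⟨M.cnt P b z k, Nat.lt_succ_of_le hle⟩
          (M.run z k).state ν c' (M.run z k).stack
          (by
            rintro ⟨h3, _, h4⟩
            apply hf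
            subst h3
            simpa [cap_far] using h4)
        rw [hp, if_neg hf] at hmv
        refine ⟨nearW P ν (M.mv z (M.run z k)).2, write c' (farW P (M.mv z (M.run z k)).2),
          ?_, ?_⟩
        · rw [hrun, h1, cap_op_step (capm M P b F) z _ (cap_act_step M P b F _ _ _ _ hact), hmv,
            hrun', hop]
          simp only [← hrun', hs']
        · rw [cont_write, h2, hrun', hop]
    · have hno : ¬ ∃ a, M.acs b z (M.run z k) = some a ∧ ¬ P a := by
        rw [cap_acs_push M b z _ _ _ hact]
        simp
      have hs' : M.cnt P b z (k + 1) = M.cnt P b z k := by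
        rw [if_neg hno] at hs
        simpa using hs
      refine ⟨ν, c', ?_, ?_⟩
      · rw [hrun, h1, cap_op_push (capm M P b F) z _ _ _ (cap_act_push M P b F _ _ _ _ _ _ hact),
          hrun', cap_op_push M z _ _ _ hact]
        simp only [← hrun', hs']
      · rw [h2, hrun', cap_op_push M z _ _ _ hact]
    · have hno : ¬ ∃ a, M.acs b z (M.run z k) = some a ∧ ¬ P a := by
        rw [cap_acs_pop M b z _ _ hact]
        simp
      have hs' : M.cnt P b z (k + 1) = M.cnt P b z k := by
        rw [if_neg hno] at hs
        simpa using hs
      refine ⟨ν, c', ?_, ?_⟩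
      · rw [hrun, h1, cap_op_pop (capm M P b F) z _ _ (cap_act_pop M P b F _ _ _ _ _ hact),
          hrun', cap_op_pop M z _ _ hact]
        simp only [← hrun', hs']
      · rw [h2, hrun', cap_op_pop M z _ _ hact]

/-- The stopped machine is stopped when there are too many accesses. -/
private lemma cap_dead (k : ℕ) (h : F < M.cnt P b z k) :
    ((capm M P b F).run z k).state = none := by
  induction k with
  | zero => simp [SDM.cnt] at h
  | succ k ih =>
    by_cases h0 : F < M.cnt P b z k
    · exact cap_run_none M P b F z k (ih h0)
    · have hle : M.cnt P b z k ≤ F := by omega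
      have hs := cap_cnt_succ M P b z k
      have hex : ∃ a, M.acs b z (M.run z k) = some a ∧ ¬ P a := by
        by_contra h1
        rw [if_neg h1] at hs
        omega
      rw [if_pos hex] at hs
      have hF : M.cnt P b z k = F := by omega
      have hact : M.act (M.run z k).steps (M.run z k).state = Act.step := by
        rcases hact : M.act (M.run z k).steps (M.run z k).state with _ | ⟨a, q'⟩ | f
        · rfl
        · rw [cap_acs_push M b z _ _ _ hact] at hex
          simp at hex
        · rw [cap_acs_pop M b z _ _ hact] at hex
          simp at hex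
      obtain ⟨ν, c', h1, h2⟩ := cap_run M P b F z k hle
      have hf := (cap_far_iff M P b z (M.run z k) hact).2 hex
      have hp : (⟨(M.run z k).steps, (M.run z k).state, cont P ν c', (M.run z k).stack⟩ :
          Conf Q A Γ Λ) = M.run z k := by rw [h2]
      show ((capm M P b F).op z ((capm M P b F).run z k)).state = none
      rw [h1, cap_op_step (capm M P b F) z _ (cap_act_step M P b F _ _ _ _ hact)]
      by_cases hc : b = false ∧ (farR P (M.rd (M.run z k).steps (M.run z k).state)).isSome = true
      · rw [cap_mv_stop M P b F z _ _ _ _ _ _ hc.1 (by simpa using hF) hc.2]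
      · rw [cap_mv M P b F z _ _ _ _ _ _ (fun h3 => hc ⟨h3.1, h3.2.2⟩), hp, if_pos hf,
          dif_neg (by simp only; omega)]

/-- The accesses of the stopped machine. -/
private lemma cap_cnt (k : ℕ) :
    (∀ i q ν, ((capm M P b F).run z k).state = some (i, q, ν) →
      (capm M P b F).cnt (fun _ => False) b z k ≤ (i : ℕ)) ∧
    (capm M P b F).cnt (fun _ => False) b z k ≤ F := by
  induction k with
  | zero =>
    have h0 : (capm M P b F).cnt (fun _ => False) b z 0 = 0 := by simp [SDM.cnt]
    rw [h0]
    exact ⟨fun _ _ _ _ => Nat.zero_le _, Nat.zero_le _⟩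
  | succ k ih =>
    have hs := cap_cnt_succ (capm M P b F) (fun _ => False) b z k
    have hnext : (capm M P b F).run z (k + 1) =
      (capm M P b F).op z ((capm M P b F).run z k) := rfl
    obtain ⟨x, hx⟩ : ∃ x, (capm M P b F).run z k = x := ⟨_, rfl⟩
    rw [hx] at hs hnext ih
    obtain ⟨t, s, c', st⟩ := x
    rcases s with _ | ⟨i, q, ν⟩
    · have hno : ¬ ∃ a, (capm M P b F).acs b z ⟨t, none, c', st⟩ = some a ∧ ¬ False := by
        rintro ⟨a, h1, -⟩
        rw [cap_acs_step (capm M P b F) b z _ rfl] at h1
        rw [cap_mv_none] at h1
        cases b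
        · exact absurd h1 (by simp [capm])
        · simp at h1
      rw [if_neg hno] at hs
      refine ⟨fun i q ν h => ?_, by rw [hs]; simpa using ih.2⟩
      rw [hnext, cap_op_step (capm M P b F) z _ rfl, cap_mv_none] at h
      exact absurd h (by simp)
    · have hi := ih.1 i q ν rfl
      have hiF : (i : ℕ) ≤ F := Nat.le_of_lt_succ i.2
      rcases hact : M.act t q with _ | ⟨a', q'⟩ | f
      · have hact' := cap_act_step M P b F t i q ν hact
        have hop := cap_op_step (capm M P b F) z ⟨t, some (i, q, ν), c', st⟩ hact'
        have hac := cap_acs_step (capm M P b F) b z ⟨t, some (i, q, ν), c', st⟩ hact'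
        by_cases hc : b = false ∧ (i : ℕ) = F ∧ (farR P (M.rd t q)).isSome = true
        · -- the machine stops
          obtain ⟨hb, h3, h4⟩ := hc
          have hno : ¬ ∃ a, (capm M P b F).acs b z ⟨t, some (i, q, ν), c', st⟩ = some a ∧
              ¬ False := by
            rintro ⟨a, h1, -⟩
            rw [hac] at h1
            subst hb
            have h5 : (capm M P false F).rd t (some (i, q, ν)) = none := by
              show ((if false = false ∧ (i : ℕ) = F then none else farR P (M.rd t q)) :
                Option A) = none
              rw [if_pos ⟨rfl, h3⟩]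
            rw [if_neg (by simp)] at h1
            simp only at h1
            rw [h5] at h1
            simp at h1
          rw [if_neg hno] at hs
          refine ⟨fun i' q' ν' h => ?_, by rw [hs]; simpa using ih.2⟩
          rw [hnext, hop, cap_mv_stop M P b F z t i q ν _ _ hb h3 h4] at h
          exact absurd h (by simp)
        · have hmv := cap_mv M P b F z t i q ν c' st hc
          by_cases hf : cap_far M P b z ⟨t, q, cont P ν c', st⟩ = true
          · rw [if_pos hf] at hmv
            by_cases h6 : (i : ℕ) + 1 < F + 1
            · rw [dif_pos h6] at hmv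
              refine ⟨fun i' q' ν' h => ?_, ?_⟩
              · rw [hnext, hop, hmv] at h
                simp only [Option.some.injEq, Prod.mk.injEq] at h
                rw [← h.1, hs]
                simp only
                split_ifs <;> omega
              · rw [hs]
                split_ifs <;> omega
            · rw [dif_neg h6] at hmv
              -- only for `b = true`
              have hb : b = true := by
                cases b
                · exfalso
                  apply hc
                  refine ⟨rfl, by omega, ?_⟩
                  simpa [cap_far] using hf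
                · rfl
              have hno : ¬ ∃ a, (capm M P b F).acs b z ⟨t, some (i, q, ν), c', st⟩ = some a ∧
                  ¬ False := by
                rintro ⟨a, h1, -⟩
                rw [hac, if_pos hb, hmv] at h1
                simp at h1
              rw [if_neg hno] at hs
              refine ⟨fun i' q' ν' h => ?_, by rw [hs]; simpa using ih.2⟩
              rw [hnext, hop, hmv] at h
              exact absurd h (by simp)
          · rw [if_neg hf] at hmv
            have hno : ¬ ∃ a, (capm M P b F).acs b z ⟨t, some (i, q, ν), c', st⟩ = some a ∧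
                ¬ False := by
              rintro ⟨a, h1, -⟩
              apply hf
              rw [hac] at h1
              cases b
              · rw [if_neg (by simp)] at h1
                have h7 : (if false = false ∧ (i : ℕ) = F then none else farR P (M.rd t q)) =
                  some a := h1
                split_ifs at h7
                simp [cap_far, h7]
              · rw [if_pos rfl, hmv] at h1
                simp only at h1
                rcases h8 : farW P (M.mv z ⟨t, q, cont P ν c', st⟩).2 with _ | x
                · rw [h8] at h1; simp at h1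
                · simp [cap_far, h8]
            rw [if_neg hno] at hs
            refine ⟨fun i' q' ν' h => ?_, by rw [hs]; simpa using ih.2⟩
            rw [hnext, hop, hmv] at h
            simp only [Option.some.injEq, Prod.mk.injEq] at h
            rw [← h.1, hs]
            simpa using hi
      · have hact' := cap_act_push M P b F t i q ν a' q' hact
        have hno : ¬ ∃ a, (capm M P b F).acs b z ⟨t, some (i, q, ν), c', st⟩ = some a ∧
            ¬ False := by
          rw [cap_acs_push (capm M P b F) b z _ _ _ hact']
          simp
        rw [if_neg hno] at hs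
        refine ⟨fun i' q'' ν' h => ?_, by rw [hs]; simpa using ih.2⟩
        rw [hnext, cap_op_push (capm M P b F) z _ _ _ hact'] at h
        simp only [Option.some.injEq, Prod.mk.injEq] at h
        rw [← h.1, hs]
        simpa using hi
      · have hact' := cap_act_pop M P b F t i q ν f hact
        have hno : ¬ ∃ a, (capm M P b F).acs b z ⟨t, some (i, q, ν), c', st⟩ = some a ∧
            ¬ False := by
          rw [cap_acs_pop (capm M P b F) b z _ _ hact']
          simp
        rw [if_neg hno] at hs
        refine ⟨fun i' q'' ν' h => ?_, by rw [hs]; simpa using ih.2⟩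
        rw [hnext, cap_op_pop (capm M P b F) z _ _ hact'] at h
        simp only [Option.some.injEq, Prod.mk.injEq] at h
        rw [← h.1, hs]
        simpa using hi

end CapSec

theorem t_CAP : S_CAP := by
  intro K U Q A Γ Λ M P _ b F z
  refine ⟨fun k => (cap_cnt M P b F z k).2, fun N R => ⟨?_, ?_⟩⟩
  · rintro ⟨k, hk, i, q, ν, h, hR⟩
    by_cases hle : M.cnt P b z k ≤ F
    · obtain ⟨ν', c', h1, -⟩ := cap_run M P b F z k hle
      rw [h1] at h hk
      simp only [Option.some.injEq, Prod.mk.injEq] at h hk
      refine ⟨k, hk, ?_, hle⟩
      rw [h.2.1]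
      exact hR
    · exfalso
      rw [cap_dead M P b F z k (by omega)] at h
      exact absurd h (by simp)
  · rintro ⟨k, hk, hR, hle⟩
    obtain ⟨ν', c', h1, -⟩ := cap_run M P b F z k hle
    exact ⟨k, by rw [h1]; exact hk, _, _, ν', by rw [h1], hR⟩

end Pool.Agent.RSA
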