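import Pool.Agent.RSA.Stmts

/-!
# Module CX: the logarithm of the number of transcripts
-/

set_option autoImplicit false

namespace Pool.Agent.RSA

namespace CxAux

lemma log100 : Real.log 100 ≤ 5 := by
  have h1 : (100 : ℝ) ≤ Real.exp 5 := by
    have h2 : (2.7 : ℝ) ≤ Real.exp 1 := by
      have := Real.exp_one_gt_d9
      linarith
    have h3 : Real.exp 5 = Real.exp 1 ^ 5 := by
      rw [← Real.exp_nat_mul]
      norm_num
    rw [h3]
    calc (100 : ℝ) ≤ 2.7 ^ 5 := by norm_num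
      _ ≤ Real.exp 1 ^ 5 := pow_le_pow_left₀ (by norm_num) h2 5
  calc Real.log 100 ≤ Real.log (Real.exp 5) := Real.log_le_log (by norm_num) h1
    _ = 5 := Real.log_exp 5

lemma log3 : Real.log 3 ≤ 2 := by
  have h1 := Real.log_le_sub_one_of_pos (show (0 : ℝ) < 3 by norm_num)
  linarith

lemma one_le_log {s : ℕ} (hs : 3 ≤ s) : 1 ≤ Real.log s := by
  have h1 : (2.7182818286 : ℝ) ≤ 3 := by norm_num
  have h2 := Real.exp_one_lt_d9
  have h3 : Real.exp 1 ≤ (s : ℝ) := by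
    have h4 : (3 : ℝ) ≤ s := by exact_mod_cast hs
    linarith
  calc (1 : ℝ) = Real.log (Real.exp 1) := (Real.log_exp 1).symm
    _ ≤ Real.log s := Real.log_le_log (Real.exp_pos 1) h3

end CxAux

open CxAux

theorem t_CX : S_CX := by
  intro κ s q γ a near L r F g S0 φ hs hg hq ha hγ hnear hS0 hφ hrL hFL hF
  have hl := one_le_log hs
  set l := Real.log s with hldef
  have hl0 : 0 < l := by linarith
  have hs1 : (1 : ℝ) ≤ s := by exact_mod_cast (by omega : 1 ≤ s)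
  have hs0 : (0 : ℝ) < s := by linarith
  have hgr : (1 : ℝ) ≤ g := by exact_mod_cast hg
  have hS00 : 0 ≤ S0 := by linarith
  have hSl : S0 ≤ S0 * l := le_mul_of_one_le_right hS00 hl
  have hSl' : l ≤ S0 * l := le_mul_of_one_le_left hl0.le hS0
  have h1Sl : 1 ≤ S0 * l := hS0.trans hSl
  have hκ0 : (0 : ℝ) ≤ κ := Nat.cast_nonneg κ
  -- the bases
  set b1 : ℕ := 100 * (r * L + 1) ^ 2 * ((F + 1) * (q * γ ^ near) + 1 + 1) ^ 2 with hb1
  set b2 : ℕ := (r * L) * ((r * L + 1) * (a * γ)) + 1 with hb2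
  have hb1p : 0 < b1 := by positivity
  have hb2p : 0 < b2 := by positivity
  have hc : cTr q γ a near L r F = b1 ^ (4 * r + 1 + 2) * b2 ^ F := rfl
  have hcp : 0 < cTr q γ a near L r F := by
    rw [hc]
    positivity
  refine ⟨hcp, ?_⟩
  have hb1r : (0 : ℝ) < (b1 : ℝ) := by exact_mod_cast hb1p
  have hb2r : (0 : ℝ) < (b2 : ℝ) := by exact_mod_cast hb2p
  have hlogc : Real.log (cTr q γ a near L r F : ℕ) =
      ((4 * r + 1 + 2 : ℕ) : ℝ) * Real.log b1 + (F : ℝ) * Real.log b2 := by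
    rw [hc]
    push_cast
    rw [Real.log_mul (by positivity) (by positivity), Real.log_pow, Real.log_pow]
    push_cast
    ring
  -- logarithms
  have hrL' : Real.log ((r * L + 1 : ℕ) : ℝ) ≤ 2 * l := by
    have h1 : ((r * L + 1 : ℕ) : ℝ) ≤ (s : ℝ) ^ 2 := by exact_mod_cast hrL
    calc Real.log ((r * L + 1 : ℕ) : ℝ) ≤ Real.log ((s : ℝ) ^ 2) :=
          Real.log_le_log (by exact_mod_cast Nat.succ_pos _) h1
      _ = 2 * l := by
          rw [Real.log_pow]
          push_cast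
          ring
  have hFlog : Real.log ((F + 1 : ℕ) : ℝ) ≤ 2 * l := by
    refine le_trans (Real.log_le_log (by exact_mod_cast Nat.succ_pos _) ?_) hrL'
    exact_mod_cast Nat.succ_le_succ hFL
  -- the number of the near states
  set X : ℝ := (2 : ℝ) ^ S0 * (s : ℝ) ^ (κ * g * near) with hX
  have h2S : (1 : ℝ) ≤ (2 : ℝ) ^ S0 := Real.one_le_rpow (by norm_num) hS00
  have hsp : (1 : ℝ) ≤ (s : ℝ) ^ (κ * g * near) := one_le_pow₀ hs1
  have hX1 : 1 ≤ X := one_le_mul_of_one_le_of_one_le h2S hsp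
  have hqγ : ((q * γ ^ near : ℕ) : ℝ) ≤ X := by
    have h1 : ((γ ^ near : ℕ) : ℝ) ≤ (s : ℝ) ^ (κ * g * near) := by
      have h2 : γ ^ near ≤ s ^ (κ * g * near) := by
        calc γ ^ near ≤ (s ^ (κ * g)) ^ near := Nat.pow_le_pow_left hγ near
          _ = s ^ (κ * g * near) := (pow_mul _ _ _).symm
      exact_mod_cast h2
    calc ((q * γ ^ near : ℕ) : ℝ) = (q : ℝ) * ((γ ^ near : ℕ) : ℝ) := by push_cast; ring
      _ ≤ (2 : ℝ) ^ S0 * (s : ℝ) ^ (κ * g * near) :=
          mul_le_mul hq h1 (Nat.cast_nonneg _) (by positivity)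
  have hXlog : Real.log X ≤ S0 + κ * (S0 * l) := by
    have h1 : Real.log X = S0 * Real.log 2 + ((κ * g * near : ℕ) : ℝ) * l := by
      rw [hX, Real.log_mul (by positivity) (by positivity), Real.log_rpow (by norm_num),
        Real.log_pow]
    have h2 : Real.log 2 ≤ 1 := by
      have := Real.log_two_lt_d9
      linarith
    have h3 : ((κ * g * near : ℕ) : ℝ) ≤ κ * S0 := by
      push_cast
      calc (κ : ℝ) * g * near = κ * (near * g) := by ring
        _ ≤ κ * S0 := mul_le_mul_of_nonneg_left hnear hκ0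
    rw [h1]
    have h4 : S0 * Real.log 2 ≤ S0 := mul_le_of_le_one_right hS00 h2
    have h5 : ((κ * g * near : ℕ) : ℝ) * l ≤ κ * S0 * l :=
      mul_le_mul_of_nonneg_right h3 hl0.le
    linarith
  have hmid : Real.log (((F + 1) * (q * γ ^ near) + 1 + 1 : ℕ) : ℝ) ≤
      2 + 2 * l + (S0 + κ * (S0 * l)) := by
    have hF1 : (1 : ℝ) ≤ ((F + 1 : ℕ) : ℝ) := by
      push_cast
      have : (0 : ℝ) ≤ F := Nat.cast_nonneg F
      linarith
    have h1 : (((F + 1) * (q * γ ^ near) + 1 + 1 : ℕ) : ℝ) ≤ 3 * (((F + 1 : ℕ) : ℝ) * X) := by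
      have h2 : (((F + 1) * (q * γ ^ near) + 1 + 1 : ℕ) : ℝ) =
          ((F + 1 : ℕ) : ℝ) * ((q * γ ^ near : ℕ) : ℝ) + 2 := by
        push_cast
        ring
      have h3 : ((F + 1 : ℕ) : ℝ) * ((q * γ ^ near : ℕ) : ℝ) ≤ ((F + 1 : ℕ) : ℝ) * X :=
        mul_le_mul_of_nonneg_left hqγ (by linarith)
      have h4 : 1 ≤ ((F + 1 : ℕ) : ℝ) * X := one_le_mul_of_one_le_of_one_le hF1 hX1
      rw [h2]
      linarith
    calc Real.log (((F + 1) * (q * γ ^ near) + 1 + 1 : ℕ) : ℝ)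
        ≤ Real.log (3 * (((F + 1 : ℕ) : ℝ) * X)) :=
          Real.log_le_log (by exact_mod_cast Nat.succ_pos ((F + 1) * (q * γ ^ near) + 1)) h1
      _ = Real.log 3 + (Real.log ((F + 1 : ℕ) : ℝ) + Real.log X) := by
          rw [Real.log_mul (by norm_num) (by positivity), Real.log_mul (by positivity) (by positivity)]
      _ ≤ _ := by
          have := log3
          linarith
  have hb1log : Real.log b1 ≤ (2 * κ + 19) * (S0 * l) := by
    have h1 : Real.log b1 = Real.log 100 + 2 * Real.log ((r * L + 1 : ℕ) : ℝ) +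
        2 * Real.log (((F + 1) * (q * γ ^ near) + 1 + 1 : ℕ) : ℝ) := by
      have hp1 : ((r * L + 1 : ℕ) : ℝ) ≠ 0 := Nat.cast_ne_zero.2 (Nat.succ_ne_zero (r * L))
      have hp2 : (((F + 1) * (q * γ ^ near) + 1 + 1 : ℕ) : ℝ) ≠ 0 :=
        Nat.cast_ne_zero.2 (Nat.succ_ne_zero ((F + 1) * (q * γ ^ near) + 1))
      have h2 : (b1 : ℝ) = 100 * ((r * L + 1 : ℕ) : ℝ) ^ 2 *
          (((F + 1) * (q * γ ^ near) + 1 + 1 : ℕ) : ℝ) ^ 2 := by
        rw [hb1]
        push_cast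
        ring
      rw [h2, Real.log_mul (mul_ne_zero (by norm_num) (pow_ne_zero 2 hp1)) (pow_ne_zero 2 hp2),
        Real.log_mul (by norm_num) (pow_ne_zero 2 hp1), Real.log_pow, Real.log_pow]
      push_cast
      ring
    rw [h1]
    have h2 := log100
    have h3 : Real.log 100 + 2 * Real.log ((r * L + 1 : ℕ) : ℝ) +
        2 * Real.log (((F + 1) * (q * γ ^ near) + 1 + 1 : ℕ) : ℝ) ≤
        9 + 8 * l + 2 * S0 + 2 * κ * (S0 * l) := by linarith
    refine h3.trans ?_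
    have h4 : (2 * (κ : ℝ) + 19) * (S0 * l) = 2 * κ * (S0 * l) + 9 * (S0 * l) + 8 * (S0 * l) +
        2 * (S0 * l) := by ring
    rw [h4]
    linarith
  -- the second base
  have hb2log : Real.log b2 ≤ (5 + 2 * κ) * (g * l) := by
    have hnat : b2 ≤ s ^ (5 + κ + κ * g) := by
      have h1 : r * L ≤ s ^ 2 := (Nat.le_succ _).trans hrL
      have h2 : a * γ ≤ s ^ κ * s ^ (κ * g) := Nat.mul_le_mul ha hγ
      have h3 : (r * L) * ((r * L + 1) * (a * γ)) ≤ s ^ 2 * (s ^ 2 * (s ^ κ * s ^ (κ * g))) :=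
        Nat.mul_le_mul h1 (Nat.mul_le_mul hrL h2)
      have h4 : s ^ 2 * (s ^ 2 * (s ^ κ * s ^ (κ * g))) = s ^ (4 + κ + κ * g) := by
        rw [← pow_add, ← pow_add, ← pow_add]
        congr 1
        ring
      have h5 : 1 ≤ s ^ (4 + κ + κ * g) := Nat.one_le_pow _ _ (by omega)
      rw [hb2]
      calc (r * L) * ((r * L + 1) * (a * γ)) + 1 ≤ s ^ (4 + κ + κ * g) + s ^ (4 + κ + κ * g) :=
            Nat.add_le_add (h3.trans h4.le) h5
        _ = s ^ (4 + κ + κ * g) * 2 := by ring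
        _ ≤ s ^ (4 + κ + κ * g) * s := Nat.mul_le_mul_left _ (by omega)
        _ = s ^ (5 + κ + κ * g) := by
            rw [← pow_succ]
            congr 1
            ring
    have h1 : (b2 : ℝ) ≤ (s : ℝ) ^ (5 + κ + κ * g) := by exact_mod_cast hnat
    calc Real.log b2 ≤ Real.log ((s : ℝ) ^ (5 + κ + κ * g)) := Real.log_le_log hb2r h1
      _ = (5 + κ + κ * g) * l := by
          rw [Real.log_pow]
          push_cast
          ring
      _ ≤ ((5 + 2 * κ) * g) * l := by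
          apply mul_le_mul_of_nonneg_right _ hl0.le
          nlinarith
      _ = _ := by ring
  -- the end
  rw [hlogc]
  have hkap : (kap κ : ℝ) = 100 * κ + 1000 := by
    unfold kap
    push_cast
    ring
  have hr0 : (0 : ℝ) ≤ r := Nat.cast_nonneg r
  have e1 : ((4 * r + 1 + 2 : ℕ) : ℝ) * Real.log b1 ≤
      ((r : ℝ) + 1) * (2 * ((kap κ : ℝ) + 4) * S0 * l) := by
    have h1 : ((4 * r + 1 + 2 : ℕ) : ℝ) ≤ 4 * ((r : ℝ) + 1) := by
      push_cast
      linarith
    have h2 : 0 ≤ (2 * (κ : ℝ) + 19) * (S0 * l) := by positivity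
    calc ((4 * r + 1 + 2 : ℕ) : ℝ) * Real.log b1
        ≤ ((4 * r + 1 + 2 : ℕ) : ℝ) * ((2 * κ + 19) * (S0 * l)) :=
          mul_le_mul_of_nonneg_left hb1log (Nat.cast_nonneg _)
      _ ≤ 4 * ((r : ℝ) + 1) * ((2 * κ + 19) * (S0 * l)) := mul_le_mul_of_nonneg_right h1 h2
      _ ≤ _ := by
          rw [hkap]
          have h3 : 0 ≤ ((r : ℝ) + 1) * (S0 * l) := by positivity
          nlinarith [mul_nonneg h3 hκ0]
  have e2 : (F : ℝ) * Real.log b2 ≤ ((r * L : ℕ) : ℝ) / φ * (((kap κ : ℝ) + 3) * l) := by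
    have hF0 : (0 : ℝ) ≤ F := Nat.cast_nonneg F
    have hrl0 : (0 : ℝ) ≤ ((r * L : ℕ) : ℝ) / φ := by positivity
    calc (F : ℝ) * Real.log b2 ≤ F * ((5 + 2 * κ) * (g * l)) :=
          mul_le_mul_of_nonneg_left hb2log hF0
      _ ≤ ((r * L : ℕ) : ℝ) / (2 * (φ * g)) * ((5 + 2 * κ) * (g * l)) :=
          mul_le_mul_of_nonneg_right hF (by positivity)
      _ = ((r * L : ℕ) : ℝ) / φ * (((5 + 2 * κ) / 2) * l) := by
          field_simp
      _ ≤ _ := by
          apply mul_le_mul_of_nonneg_left _ hrl0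
          apply mul_le_mul_of_nonneg_right _ hl0.le
          rw [hkap]
          linarith
  exact add_le_add e1 e2

end Pool.Agent.RSA
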