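import Mathlib
import Pool.Agent.Lib_helper21.TR.Machine

/-!
# Computation trees of programs with a stack, and cutting them into pieces
-/

set_option autoImplicit false
set_option linter.unusedVariables false
set_option linter.unusedSectionVars false

namespace Pool.Agent.RSA

open Finset Equiv Pool.Agent.TR

/-- Actions of a program at a node. -/
inductive PA (V Λ U : Type) : Type
  | test (g : Option U → V) : PA V Λ U
  | push (a : Λ) (v : V) : PA V Λ U
  | pop (f : Λ → V) : PA V Λ U

/-- A program with a stack. -/
structure PP (K U V Λ : Type) where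
  act : V → PA V Λ U
  ask : V → Option (K × Bool × U)

/-- Trees with holes. -/
inductive Cx (V : Type) : Type
  | leaf (w : V) : Cx V
  | hole (u w : V) : Cx V
  | step (u : V) (t : Cx V) : Cx V
  | push (u : V) (s t : Cx V) : Cx V

namespace Cx

variable {V : Type}

/-- The first node. -/
def root : Cx V → V
  | leaf w => w
  | hole u _ => u
  | step u _ => u
  | push u _ _ => u

/-- The last node. -/
def last : Cx V → V
  | leaf w => w
  | hole _ w => w
  | step _ t => t.last
  | push _ _ t => t.last

/-- The holes. -/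
def holes : Cx V → List (V × V)
  | leaf _ => []
  | hole u w => [(u, w)]
  | step _ t => t.holes
  | push _ s t => s.holes ++ t.holes

/-- The nodes with a test. -/
def stp : Cx V → List V
  | leaf _ => []
  | hole _ _ => []
  | step u t => u :: t.stp
  | push _ s t => s.stp ++ t.stp

end Cx

section Val

variable {K U V Λ : Type} (P : PP K U V Λ)

/-- The tree is right for the program `P` and the input `z`. -/
def Val (z : K → Perm U) : Cx V → Prop
  | .leaf w => ∃ f, P.act w = .pop f
  | .hole _ _ => True
  | .step u t => ∃ g, P.act u = .test g ∧ t.root = g ((P.ask u).map (qans z)) ∧ Val z t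
  | .push u s t => ∃ a v f, P.act u = .push a v ∧ s.root = v ∧ P.act s.last = .pop f ∧
      t.root = f a ∧ Val z s ∧ Val z t

lemma Val_uniq (z : K → Perm U) : ∀ t t' : Cx V, t.holes = [] → t'.holes = [] → Val P z t →
    Val P z t' → t.root = t'.root → t = t' := by
  intro t
  induction t with
  | leaf w =>
    intro t' _ h' hv hv' hr
    obtain ⟨f, hf⟩ := hv
    cases t' with
    | leaf w' => simp only [Cx.root] at hr; rw [hr]
    | hole u' w' => simp [Cx.holes] at h'
    | step u' t' =>
      obtain ⟨g, hg, _⟩ := hv'
      simp only [Cx.root] at hr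
      rw [← hr, hf] at hg
      exact absurd hg (by simp)
    | push u' s' t' =>
      obtain ⟨a, v, f', hg, _⟩ := hv'
      simp only [Cx.root] at hr
      rw [← hr, hf] at hg
      exact absurd hg (by simp)
  | hole u w => intro t' h; simp [Cx.holes] at h
  | step u t ih =>
    intro t' h h' hv hv' hr
    obtain ⟨g, hg, hg2, hg3⟩ := hv
    cases t' with
    | leaf w' =>
      obtain ⟨f, hf⟩ := hv'
      simp only [Cx.root] at hr
      rw [← hr, hg] at hf
      exact absurd hf (by simp)
    | hole u' w' => simp [Cx.holes] at h'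
    | step u' t' =>
      obtain ⟨g', hg', hg2', hg3'⟩ := hv'
      simp only [Cx.root] at hr
      subst hr
      rw [hg] at hg'
      obtain rfl := PA.test.inj hg'
      rw [ih t' h h' hg3 hg3' (hg2.trans hg2'.symm)]
    | push u' s' t' =>
      obtain ⟨a, v, f', hg', _⟩ := hv'
      simp only [Cx.root] at hr
      rw [← hr, hg] at hg'
      exact absurd hg' (by simp)
  | push u s t ihs iht =>
    intro t' h h' hv hv' hr
    obtain ⟨a, v, f, h1, h2, h3, h4, h5, h6⟩ := hv
    simp only [Cx.holes, List.append_eq_nil_iff] at h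
    cases t' with
    | leaf w' =>
      obtain ⟨f, hf⟩ := hv'
      simp only [Cx.root] at hr
      rw [← hr, h1] at hf
      exact absurd hf (by simp)
    | hole u' w' => simp [Cx.holes] at h'
    | step u' t' =>
      obtain ⟨g', hg', _⟩ := hv'
      simp only [Cx.root] at hr
      rw [← hr, h1] at hg'
      exact absurd hg' (by simp)
    | push u' s' t' =>
      obtain ⟨a', v', f', h1', h2', h3', h4', h5', h6'⟩ := hv'
      simp only [Cx.holes, List.append_eq_nil_iff] at h'
      simp only [Cx.root] at hr
      subst hr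
      rw [h1] at h1'
      obtain ⟨rfl, rfl⟩ := PA.push.inj h1'
      have e1 := ihs s' h.1 h'.1 h5 h5' (h2.trans h2'.symm)
      subst e1
      rw [h3] at h3'
      obtain rfl := PA.pop.inj h3'
      rw [iht t' h.2 h'.2 h6 h6' (h4.trans h4'.symm)]

/-- A tree is right for another input with the same answers. -/
lemma Val_congr (z y : K → Perm U) : ∀ t : Cx V, Val P z t →
    (∀ u ∈ t.stp, (P.ask u).map (qans y) = (P.ask u).map (qans z)) → Val P y t := by
  intro t
  induction t with
  | leaf w => intro h _; exact h
  | hole u w => intro _ _; trivial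
  | step u t ih =>
    rintro ⟨g, h1, h2, h3⟩ h
    refine ⟨g, h1, ?_, ih h3 fun v hv => h v (List.mem_cons_of_mem _ hv)⟩
    rw [h u List.mem_cons_self]
    exact h2
  | push u s t ihs iht =>
    rintro ⟨a, v, f, h1, h2, h3, h4, h5, h6⟩ h
    exact ⟨a, v, f, h1, h2, h3, h4,
      ihs h5 fun v hv => h v (List.mem_append_left _ hv),
      iht h6 fun v hv => h v (List.mem_append_right _ hv)⟩

end Val

/-! ### cutting -/

section Cut

variable {V : Type} (ℓ : ℕ)

/-- Close a piece if it is big. -/
def cls (c : Cx V) (l : List (Cx V)) : Cx V × List (Cx V) :=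
  if ℓ ≤ c.stp.length then (.hole c.root c.last, c :: l) else (c, l)

/-- Cutting a tree: the open piece and the closed pieces. -/
def cut : Cx V → Cx V × List (Cx V)
  | .leaf w => (.leaf w, [])
  | .hole u w => (.hole u w, [])
  | .step u t => cls ℓ (.step u (cut t).1) (cut t).2
  | .push u s t => cls ℓ (.push u (cut s).1 (cut t).1) ((cut s).2 ++ (cut t).2)

lemma cls_root (c : Cx V) (l : List (Cx V)) : (cls ℓ c l).1.root = c.root := by
  unfold cls; split_ifs <;> rfl

lemma cls_last (c : Cx V) (l : List (Cx V)) : (cls ℓ c l).1.last = c.last := by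
  unfold cls; split_ifs <;> rfl

lemma cut_root (t : Cx V) : (cut ℓ t).1.root = t.root := by
  cases t with
  | leaf w => rfl
  | hole u w => rfl
  | step u t => rw [cut, cls_root]; rfl
  | push u s t => rw [cut, cls_root]; rfl

lemma cut_last (t : Cx V) : (cut ℓ t).1.last = t.last := by
  induction t with
  | leaf w => rfl
  | hole u w => rfl
  | step u t ih => rw [cut, cls_last]; exact ih
  | push u s t ihs iht => rw [cut, cls_last]; exact iht

/-- The sum of the numbers of the tests in the pieces. -/
def wsum (l : List (Cx V)) : ℕ := (l.map fun c => c.stp.length).sum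

lemma cls_wsum (c : Cx V) (l : List (Cx V)) :
    (cls ℓ c l).1.stp.length + wsum (cls ℓ c l).2 = c.stp.length + wsum l := by
  unfold cls
  split_ifs
  · simp [Cx.stp, wsum]
  · rfl

lemma cut_wsum (t : Cx V) : (cut ℓ t).1.stp.length + wsum (cut ℓ t).2 = t.stp.length := by
  induction t with
  | leaf w => rfl
  | hole u w => rfl
  | step u t ih => rw [cut, cls_wsum]; simp only [Cx.stp, List.length_cons]; omega
  | push u s t ihs iht =>
    rw [cut, cls_wsum]
    simp only [Cx.stp, List.length_append, wsum, List.map_append, List.sum_append] at *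
    omega

/-- An open piece. -/
def Opn : Cx V → Prop
  | .leaf _ => True
  | .hole _ _ => True
  | .step u t => Opn t ∧ (Cx.step u t).stp.length < ℓ
  | .push u s t => Opn s ∧ Opn t ∧ (Cx.push u s t).stp.length < ℓ

/-- A closed piece. -/
def Cld : Cx V → Prop
  | .leaf _ => False
  | .hole _ _ => False
  | .step u t => Opn ℓ t ∧ ℓ ≤ (Cx.step u t).stp.length
  | .push u s t => Opn ℓ s ∧ Opn ℓ t ∧ ℓ ≤ (Cx.push u s t).stp.length

lemma Opn_lt (hℓ : 0 < ℓ) : ∀ t : Cx V, Opn ℓ t → t.stp.length < ℓ := by
  intro t h
  cases t with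
  | leaf w => exact hℓ
  | hole u w => exact hℓ
  | step u t => exact h.2
  | push u s t => exact h.2.2

lemma Cld_le (hℓ : 0 < ℓ) : ∀ t : Cx V, Cld ℓ t → ℓ ≤ t.stp.length ∧ t.stp.length ≤ 2 * ℓ := by
  intro t h
  cases t with
  | leaf w => exact h.elim
  | hole u w => exact h.elim
  | step u t =>
    refine ⟨h.2, ?_⟩
    have := Opn_lt ℓ hℓ t h.1
    simp only [Cx.stp, List.length_cons]
    omega
  | push u s t =>
    refine ⟨h.2.2, ?_⟩
    have h1 := Opn_lt ℓ hℓ s h.1
    have h2 := Opn_lt ℓ hℓ t h.2.1
    simp only [Cx.stp, List.length_append]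
    omega

lemma cut_Opn (t : Cx V) : Opn ℓ (cut ℓ t).1 ∧ ∀ c ∈ (cut ℓ t).2, Cld ℓ c := by
  induction t with
  | leaf w => exact ⟨trivial, by simp [cut]⟩
  | hole u w => exact ⟨trivial, by simp [cut]⟩
  | step u t ih =>
    unfold cut cls
    split_ifs with h
    · refine ⟨trivial, ?_⟩
      intro c hc
      rcases List.mem_cons.1 hc with rfl | hc
      · exact ⟨ih.1, h⟩
      · exact ih.2 c hc
    · exact ⟨⟨ih.1, not_le.1 h⟩, ih.2⟩
  | push u s t ihs iht =>
    unfold cut cls
    split_ifs with h
    · refine ⟨trivial, ?_⟩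
      intro c hc
      rcases List.mem_cons.1 hc with rfl | hc
      · exact ⟨ihs.1, iht.1, h⟩
      · rcases List.mem_append.1 hc with hc | hc
        · exact ihs.2 c hc
        · exact iht.2 c hc
    · refine ⟨⟨ihs.1, iht.1, not_le.1 h⟩, ?_⟩
      intro c hc
      rcases List.mem_append.1 hc with hc | hc
      · exact ihs.2 c hc
      · exact iht.2 c hc

lemma cut_Val {K U Λ : Type} (P : PP K U V Λ) (z : K → Perm U) (t : Cx V) (h : Val P z t) :
    Val P z (cut ℓ t).1 ∧ ∀ c ∈ (cut ℓ t).2, Val P z c := by
  induction t with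
  | leaf w => exact ⟨h, by simp [cut]⟩
  | hole u w => exact ⟨trivial, by simp [cut]⟩
  | step u t ih =>
    obtain ⟨g, h1, h2, h3⟩ := h
    have ih := ih h3
    have key : Val P z (.step u (cut ℓ t).1) := ⟨g, h1, by rw [cut_root]; exact h2, ih.1⟩
    unfold cut cls
    split_ifs with h
    · refine ⟨trivial, ?_⟩
      intro c hc
      rcases List.mem_cons.1 hc with rfl | hc
      · exact key
      · exact ih.2 c hc
    · exact ⟨key, ih.2⟩
  | push u s t ihs iht =>
    obtain ⟨a, v, f, h1, h2, h3, h4, h5, h6⟩ := h
    have ihs := ihs h5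
    have iht := iht h6
    have key : Val P z (.push u (cut ℓ s).1 (cut ℓ t).1) :=
      ⟨a, v, f, h1, by rw [cut_root]; exact h2, by rw [cut_last]; exact h3,
        by rw [cut_root]; exact h4, ihs.1, iht.1⟩
    unfold cut cls
    split_ifs with h
    · refine ⟨trivial, ?_⟩
      intro c hc
      rcases List.mem_cons.1 hc with rfl | hc
      · exact key
      · rcases List.mem_append.1 hc with hc | hc
        · exact ihs.2 c hc
        · exact iht.2 c hc
    · refine ⟨key, ?_⟩
      intro c hc
      rcases List.mem_append.1 hc with hc | hc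
      · exact ihs.2 c hc
      · exact iht.2 c hc

/-- The first and the last node and the holes of a piece. -/
def sk (c : Cx V) : V × V × List (V × V) := (c.root, c.last, c.holes)

/-- The list of pieces fills the holes. -/
def PS : List (V × V) → List (V × V × List (V × V)) → Prop
  | [], [] => True
  | h :: hs, x :: l => (x.1, x.2.1) = h ∧ PS (x.2.2 ++ hs) l
  | _, _ => False

lemma PS_append (l m : List (V × V × List (V × V))) : ∀ (a b : List (V × V)), PS a l → PS b m →
    PS (a ++ b) (l ++ m) := by
  induction l with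
  | nil =>
    intro a b ha hb
    cases a with
    | nil => exact hb
    | cons h hs => exact ha.elim
  | cons x l ih =>
    intro a b ha hb
    cases a with
    | nil => exact ha.elim
    | cons h hs =>
      obtain ⟨h1, h2⟩ := ha
      refine ⟨h1, ?_⟩
      have := ih _ b h2 hb
      rwa [List.append_assoc] at this

lemma PS_cls (c : Cx V) (l : List (Cx V)) (h : PS c.holes (l.map sk)) :
    PS (cls ℓ c l).1.holes ((cls ℓ c l).2.map sk) := by
  unfold cls
  split_ifs
  · refine ⟨rfl, ?_⟩
    simpa [sk] using h
  · exact h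

lemma cut_PS (t : Cx V) (h : t.holes = []) : PS (cut ℓ t).1.holes ((cut ℓ t).2.map sk) := by
  induction t with
  | leaf w => trivial
  | hole u w => simp [Cx.holes] at h
  | step u t ih =>
    rw [cut]
    exact PS_cls ℓ _ _ (ih h)
  | push u s t ihs iht =>
    simp only [Cx.holes, List.append_eq_nil_iff] at h
    rw [cut]
    refine PS_cls ℓ _ _ ?_
    rw [List.map_append]
    exact PS_append _ _ _ _ (ihs h.1) (iht h.2)

/-- Putting the pieces together. -/
lemma rebuild {K U Λ : Type} (P : PP K U V Λ) (z : K → Perm U) : ∀ (n : ℕ) (c : Cx V)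
    (l : List (Cx V)) (hs : List (V × V)), l.length ≤ n → Opn ℓ c → (∀ x ∈ l, Cld ℓ x) →
    Val P z c → (∀ x ∈ l, Val P z x) → PS (c.holes ++ hs) (l.map sk) →
    ∃ t l1 l2, l = l1 ++ l2 ∧ cut ℓ t = (c, l1) ∧ PS hs (l2.map sk) ∧ t.holes = [] ∧ Val P z t ∧
      t.root = c.root ∧ t.last = c.last := by
  intro n
  induction n with
  | zero =>
    intro c
    induction c with
    | leaf w =>
      intro l hs hn ho hl hv hvl hp
      exact ⟨.leaf w, [], l, rfl, rfl, hp, rfl, hv, rfl, rfl⟩
    | hole u w =>
      intro l hs hn ho hl hv hvl hp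
      have : l = [] := List.length_eq_zero_iff.1 (by omega)
      subst this
      exact hp.elim
    | step u c ih =>
      intro l hs hn ho hl hv hvl hp
      obtain ⟨g, h1, h2, h3⟩ := hv
      obtain ⟨t, l1, l2, e1, e2, e3, e4, e5, e6, e7⟩ := ih l hs hn ho.1 hl h3 hvl hp
      refine ⟨.step u t, l1, l2, e1, ?_, e3, e4, ⟨g, h1, by rw [e6]; exact h2, e5⟩, rfl, e7⟩
      rw [cut, e2, cls, if_neg (not_le.2 ho.2)]
    | push u s c ihs ihc =>
      intro l hs hn ho hl hv hvl hp
      obtain ⟨a, v, f, h1, h2, h3, h4, h5, h6⟩ := hv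
      simp only [Cx.holes, List.append_assoc] at hp
      obtain ⟨t, l1, l2, e1, e2, e3, e4, e5, e6, e7⟩ := ihs l (c.holes ++ hs) hn ho.1 hl h5 hvl hp
      subst e1
      rw [List.length_append] at hn
      obtain ⟨t', l1', l2', e1', e2', e3', e4', e5', e6', e7'⟩ := ihc l2 hs (by omega) ho.2.1
        (fun x hx => hl x (List.mem_append_right _ hx)) h6
        (fun x hx => hvl x (List.mem_append_right _ hx)) e3
      subst e1'
      refine ⟨.push u t t', l1 ++ l1', l2', by rw [List.append_assoc], ?_, e3', ?_,
        ⟨a, v, f, h1, by rw [e6]; exact h2, by rw [e7]; exact h3, by rw [e6']; exact h4, e5, e5'⟩,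
        rfl, e7'⟩
      · rw [cut, e2, e2', cls, if_neg (not_le.2 ho.2.2)]
      · simp [Cx.holes, e4, e4']
  | succ n ihn =>
    intro c
    induction c with
    | leaf w =>
      intro l hs hn ho hl hv hvl hp
      exact ⟨.leaf w, [], l, rfl, rfl, hp, rfl, hv, rfl, rfl⟩
    | hole u w =>
      intro l hs hn ho hl hv hvl hp
      cases l with
      | nil => exact hp.elim
      | cons x l =>
        obtain ⟨h1, h2⟩ := hp
        simp only [sk, Prod.mk.injEq] at h1
        obtain ⟨hu, hw⟩ := h1
        have hx := hl x List.mem_cons_self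
        have hvx := hvl x List.mem_cons_self
        simp only [List.length_cons] at hn
        cases x with
        | leaf w' => exact hx.elim
        | hole u' w' => exact hx.elim
        | step u' x =>
          obtain ⟨g, q1, q2, q3⟩ := hvx
          obtain ⟨t, l1, l2, e1, e2, e3, e4, e5, e6, e7⟩ := ihn x l hs (by omega) hx.1
            (fun y hy => hl y (List.mem_cons_of_mem _ hy)) q3
            (fun y hy => hvl y (List.mem_cons_of_mem _ hy)) h2
          refine ⟨.step u' t, .step u' x :: l1, l2, by rw [e1]; rfl, ?_, e3, e4,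
            ⟨g, q1, by rw [e6]; exact q2, e5⟩, hu, by rw [← hw]; exact e7⟩
          rw [cut, e2, cls, if_pos hx.2]
          rw [← hu, ← hw]
        | push u' s x =>
          obtain ⟨a, v, f, q1, q2, q3, q4, q5, q6⟩ := hvx
          have h2' : PS (s.holes ++ (x.holes ++ hs)) (l.map sk) := by
            simpa [sk, Cx.holes] using h2
          obtain ⟨t, l1, l2, e1, e2, e3, e4, e5, e6, e7⟩ := ihn s l (x.holes ++ hs) (by omega)
            hx.1 (fun y hy => hl y (List.mem_cons_of_mem _ hy)) q5
            (fun y hy => hvl y (List.mem_cons_of_mem _ hy)) h2'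
          subst e1
          rw [List.length_append] at hn
          obtain ⟨t', l1', l2', e1', e2', e3', e4', e5', e6', e7'⟩ := ihn x l2 hs (by omega)
            hx.2.1 (fun y hy => hl y (List.mem_cons_of_mem _ (List.mem_append_right _ hy))) q6
            (fun y hy => hvl y (List.mem_cons_of_mem _ (List.mem_append_right _ hy))) e3
          subst e1'
          refine ⟨.push u' t t', .push u' s x :: (l1 ++ l1'), l2', by simp, ?_, e3', ?_,
            ⟨a, v, f, q1, by rw [e6]; exact q2, by rw [e7]; exact q3, by rw [e6']; exact q4, e5,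
              e5'⟩, hu, by rw [← hw]; exact e7'⟩
          · rw [cut, e2, e2', cls, if_pos hx.2.2]
            rw [← hu, ← hw]
          · simp [Cx.holes, e4, e4']
    | step u c ih =>
      intro l hs hn ho hl hv hvl hp
      obtain ⟨g, h1, h2, h3⟩ := hv
      obtain ⟨t, l1, l2, e1, e2, e3, e4, e5, e6, e7⟩ := ih l hs hn ho.1 hl h3 hvl hp
      refine ⟨.step u t, l1, l2, e1, ?_, e3, e4, ⟨g, h1, by rw [e6]; exact h2, e5⟩, rfl, e7⟩
      rw [cut, e2, cls, if_neg (not_le.2 ho.2)]
    | push u s c ihs ihc =>
      intro l hs hn ho hl hv hvl hp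
      obtain ⟨a, v, f, h1, h2, h3, h4, h5, h6⟩ := hv
      simp only [Cx.holes, List.append_assoc] at hp
      obtain ⟨t, l1, l2, e1, e2, e3, e4, e5, e6, e7⟩ := ihs l (c.holes ++ hs) hn ho.1 hl h5 hvl hp
      subst e1
      rw [List.length_append] at hn
      obtain ⟨t', l1', l2', e1', e2', e3', e4', e5', e6', e7'⟩ := ihc l2 hs (by omega) ho.2.1
        (fun x hx => hl x (List.mem_append_right _ hx)) h6
        (fun x hx => hvl x (List.mem_append_right _ hx)) e3
      subst e1'
      refine ⟨.push u t t', l1 ++ l1', l2', by rw [List.append_assoc], ?_, e3', ?_,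
        ⟨a, v, f, h1, by rw [e6]; exact h2, by rw [e7]; exact h3, by rw [e6']; exact h4, e5, e5'⟩,
        rfl, e7'⟩
      · rw [cut, e2, e2', cls, if_neg (not_le.2 ho.2.2)]
      · simp [Cx.holes, e4, e4']

/-- All pieces. -/
def pcs (t : Cx V) : List (Cx V) := (cut ℓ t).1 :: (cut ℓ t).2

/-- The first piece is open, the other ones are closed. -/
def Gd (l : List (Cx V)) : Prop := ∀ (i : ℕ) (x : Cx V), l[i]? = some x →
  if i = 0 then Opn ℓ x else Cld ℓ x

lemma pcs_Gd (t : Cx V) : Gd ℓ (pcs ℓ t) := by
  intro i x h
  unfold pcs at h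
  cases i with
  | zero =>
    rw [if_pos rfl]
    simp only [List.getElem?_cons_zero, Option.some.injEq] at h
    rw [← h]
    exact (cut_Opn ℓ t).1
  | succ i =>
    rw [if_neg (by omega)]
    simp only [List.getElem?_cons_succ] at h
    exact (cut_Opn ℓ t).2 x (List.mem_of_getElem? h)

lemma pcs_PS (t : Cx V) (h : t.holes = []) : PS [(t.root, t.last)] ((pcs ℓ t).map sk) := by
  refine ⟨by simp [sk, cut_root, cut_last], ?_⟩
  have := cut_PS ℓ t h
  simpa [sk] using this

lemma pcs_Val {K U Λ : Type} (P : PP K U V Λ) (z : K → Perm U) (t : Cx V) (h : Val P z t) :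
    ∀ c ∈ pcs ℓ t, Val P z c := by
  intro c hc
  rcases List.mem_cons.1 hc with rfl | hc
  · exact (cut_Val ℓ P z t h).1
  · exact (cut_Val ℓ P z t h).2 c hc

lemma pcs_wsum (t : Cx V) : wsum (pcs ℓ t) = t.stp.length := by
  have := cut_wsum ℓ t
  simpa [pcs, wsum] using this

lemma pcs_rebuild {K U Λ : Type} (P : PP K U V Λ) (z : K → Perm U) (l : List (Cx V)) (u w : V)
    (hg : Gd ℓ l) (hv : ∀ c ∈ l, Val P z c) (hp : PS [(u, w)] (l.map sk)) :
    ∃ t, pcs ℓ t = l ∧ t.holes = [] ∧ Val P z t ∧ t.root = u ∧ t.last = w := by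
  cases l with
  | nil => exact hp.elim
  | cons c l =>
    obtain ⟨h1, h2⟩ := hp
    simp only [sk, Prod.mk.injEq] at h1
    obtain ⟨hu, hw⟩ := h1
    have h0 : Opn ℓ c := by
      have := hg 0 c (by simp)
      rwa [if_pos rfl] at this
    have h3 : ∀ x ∈ l, Cld ℓ x := by
      intro x hx
      obtain ⟨i, hi⟩ := List.getElem?_of_mem hx
      have := hg (i + 1) x (by simpa using hi)
      rwa [if_neg (by omega)] at this
    obtain ⟨t, l1, l2, e1, e2, e3, e4, e5, e6, e7⟩ := rebuild ℓ P z l.length c l [] le_rfl h0 h3
      (hv c List.mem_cons_self) (fun x hx => hv x (List.mem_cons_of_mem _ hx)) h2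
    have e8 : l2 = [] := by
      cases l2 with
      | nil => rfl
      | cons x l2 => exact e3.elim
    subst e8
    rw [List.append_nil] at e1
    subst e1
    exact ⟨t, by rw [pcs, e2], e4, e5, e6.trans hu, e7.trans hw⟩

/-- The number of the pieces. -/
lemma pcs_length (hℓ : 0 < ℓ) (t : Cx V) : ((pcs ℓ t).length - 1) * ℓ ≤ t.stp.length := by
  have h1 := cut_wsum ℓ t
  have h2 : ∀ l : List (Cx V), (∀ c ∈ l, Cld ℓ c) → l.length * ℓ ≤ wsum l := by
    intro l
    induction l with
    | nil => intro _; simp [wsum]
    | cons x l ih =>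
      intro h
      have h3 := ih fun c hc => h c (List.mem_cons_of_mem _ hc)
      have h4 := (Cld_le ℓ hℓ x (h x List.mem_cons_self)).1
      simp only [wsum, List.map_cons, List.sum_cons, List.length_cons] at h3 ⊢
      rw [add_mul]
      omega
  have h3 := h2 _ (cut_Opn ℓ t).2
  simp only [pcs, List.length_cons, Nat.add_sub_cancel]
  omega

end Cut

/-! ### mixing lists -/

section Mix

variable {α : Type}

/-- Mixing two lists. -/
def mixl (χ : ℕ → Bool) : ℕ → List α → List α → List α
  | j, c :: l, c' :: l' => (if χ j then c else c') :: mixl χ (j + 1) l l'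
  | _, _, _ => []

lemma mixl_get (χ : ℕ → Bool) : ∀ (l l' : List α) (j i : ℕ), l.length = l'.length →
    (mixl χ j l l')[i]? = if χ (j + i) then l[i]? else l'[i]? := by
  intro l
  induction l with
  | nil =>
    intro l' j i h
    have : l' = [] := List.length_eq_zero_iff.1 h.symm
    subst this
    simp [mixl]
  | cons c l ih =>
    intro l' j i h
    cases l' with
    | nil => simp at h
    | cons c' l' =>
      rw [mixl]
      cases i with
      | zero =>
        simp only [List.getElem?_cons_zero, add_zero]
        split_ifs <;> rfl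
      | succ i =>
        simp only [List.getElem?_cons_succ]
        rw [ih l' (j + 1) i (by simpa using h)]
        rw [show j + 1 + i = j + (i + 1) by ring]

lemma mixl_map {β : Type} (f : α → β) (χ : ℕ → Bool) : ∀ (l l' : List α) (j : ℕ),
    l.map f = l'.map f → (mixl χ j l l').map f = l.map f := by
  intro l
  induction l with
  | nil =>
    intro l' j h
    have : l' = [] := by simpa using h.symm
    subst this
    simp [mixl]
  | cons c l ih =>
    intro l' j h
    cases l' with
    | nil => simp at h
    | cons c' l' =>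
      simp only [List.map_cons, List.cons.injEq] at h
      rw [mixl]
      simp only [List.map_cons, List.cons.injEq]
      refine ⟨?_, ih l' (j + 1) h.2⟩
      split_ifs
      · rfl
      · exact h.1.symm

end Mix

/-! ### codes of the skeletons -/

section Enc

variable {V : Type}

/-- The numbers of the holes in unary. -/
def bits : List (V × V × List (V × V)) → List Bool
  | [] => []
  | x :: l => List.replicate x.2.2.length true ++ false :: bits l

lemma PS_len : ∀ (S : List (V × V × List (V × V))) (hs : List (V × V)), PS hs S →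
    hs.length + (bits S).length = 2 * S.length := by
  intro S
  induction S with
  | nil =>
    intro hs h
    cases hs with
    | nil => rfl
    | cons a b => exact h.elim
  | cons x S ih =>
    intro hs h
    cases hs with
    | nil => exact h.elim
    | cons a b =>
      have := ih _ h.2
      simp only [List.length_append, bits, List.length_replicate, List.length_cons] at this ⊢
      omega

lemma rep_inj : ∀ (n m : ℕ) (l l' : List Bool), List.replicate n true ++ false :: l =
    List.replicate m true ++ false :: l' → n = m ∧ l = l' := by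
  intro n
  induction n with
  | zero =>
    intro m l l' h
    cases m with
    | zero => simpa using h
    | succ m => simp [List.replicate_succ] at h
  | succ n ih =>
    intro m l l' h
    cases m with
    | zero => simp [List.replicate_succ] at h
    | succ m =>
      simp only [List.replicate_succ, List.cons_append, List.cons.injEq, true_and] at h
      have := ih m l l' h
      exact ⟨by omega, this.2⟩

lemma PS_inj : ∀ (S S' : List (V × V × List (V × V))) (hs hs' : List (V × V)), PS hs S →
    PS hs' S' → hs.length = hs'.length →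
    S.map (fun x => (x.1, x.2.1)) = S'.map (fun x => (x.1, x.2.1)) → bits S = bits S' →
    S = S' ∧ hs = hs' := by
  intro S
  induction S with
  | nil =>
    intro S' hs hs' h h' hl hm hb
    have e1 : S' = [] := by simpa using hm.symm
    subst e1
    cases hs with
    | nil =>
      cases hs' with
      | nil => exact ⟨rfl, rfl⟩
      | cons a b => exact h'.elim
    | cons a b => exact h.elim
  | cons x S ih =>
    intro S' hs hs' h h' hl hm hb
    cases S' with
    | nil => simp at hm
    | cons x' S' =>
      simp only [List.map_cons, List.cons.injEq] at hm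
      cases hs with
      | nil => exact h.elim
      | cons a b =>
        cases hs' with
        | nil => exact h'.elim
        | cons a' b' =>
          obtain ⟨h1, h2⟩ := h
          obtain ⟨h1', h2'⟩ := h'
          rw [bits, bits] at hb
          obtain ⟨e1, e2⟩ := rep_inj _ _ _ _ hb
          simp only [List.length_cons] at hl
          obtain ⟨e3, e4⟩ := ih S' _ _ h2 h2' (by simp only [List.length_append]; omega) hm.2 e2
          obtain ⟨e5, e6⟩ := List.append_inj e4 e1
          have e7 : a = a' := by rw [← h1, ← h1']; exact hm.1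
          refine ⟨?_, by rw [e7, e6]⟩
          rw [e3]
          congr 1
          have := hm.1
          simp only [Prod.mk.injEq] at this
          exact Prod.ext this.1 (Prod.ext this.2 e5)

/-- The code of a skeleton. -/
def enc (r : ℕ) (S : List (V × V × List (V × V))) :
    (Fin r → Option (V × V)) × (Fin (2 * r) → Option Bool) :=
  (fun j => (S.map fun x => (x.1, x.2.1))[(j : ℕ)]?, fun j => (bits S)[(j : ℕ)]?)

lemma list_ext_of {α : Type} (r : ℕ) (l l' : List α) (h : l.length ≤ r) (h' : l'.length ≤ r)
    (he : ∀ j : Fin r, l[(j : ℕ)]? = l'[(j : ℕ)]?) : l = l' := by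
  refine List.ext_getElem? fun i => ?_
  by_cases hi : i < r
  · exact he ⟨i, hi⟩
  · rw [List.getElem?_eq_none (by omega), List.getElem?_eq_none (by omega)]

lemma enc_inj (r : ℕ) (S S' : List (V × V × List (V × V))) (h h' : V × V) (hS : PS [h] S)
    (hS' : PS [h'] S') (hl : S.length ≤ r) (hl' : S'.length ≤ r) (he : enc r S = enc r S') :
    S = S' := by
  simp only [enc, Prod.mk.injEq] at he
  have h1 := PS_len S _ hS
  have h2 := PS_len S' _ hS'
  refine (PS_inj S S' _ _ hS hS' rfl ?_ ?_).1
  · exact list_ext_of r _ _ (by simpa using hl) (by simpa using hl') fun j => congrFun he.1 j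
  · refine list_ext_of (2 * r) _ _ ?_ ?_ fun j => congrFun he.2 j
    · omega
    · omega

end Enc

end Pool.Agent.RSA
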