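import Mathlib
import Pool.Agent.RSA.DsTree

/-!
# Programs that always end
-/

set_option autoImplicit false
set_option linter.unusedVariables false
set_option linter.unusedSectionVars false

namespace Pool.Agent.RSA

open Finset Equiv Pool.Agent.TR

section Tot

variable {K U V Λ : Type} (P : PP K U V Λ)

/-- The free run stops. -/
def stk (c : V × List Λ) : Prop :=
  match P.act c.1 with
  | .test _ => True
  | .push _ _ => False
  | .pop _ => c.2 = []

/-- A stack operation. -/
def fop (c : V × List Λ) : V × List Λ :=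
  match P.act c.1, c.2 with
  | .push a v, s => (v, a :: s)
  | .pop f, a :: s => (f a, s)
  | _, _ => c

/-- The free run stops within `k` operations. -/
def SW : ℕ → V × List Λ → Prop
  | 0, c => stk P c
  | k + 1, c => stk P c ∨ SW k (fop P c)

/-- The free run from `v` never stops, with any stack. -/
def Dv (v : V) : Prop := ∀ s k, ¬ SW P k (v, s)

open Classical in
/-- The program that ends if the free run does not stop. -/
noncomputable def tot (dv : V → V) : PP K U V Λ where
  act v := if Dv P v then .pop (fun _ => dv v) else P.act v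
  ask := P.ask

variable (dv : V → V)

lemma tot_act {v : V} (h : ¬ Dv P v) : (tot P dv).act v = P.act v := by
  simp only [tot]
  rw [if_neg h]

lemma tot_dv {v : V} (h : Dv P v) : (tot P dv).act v = .pop fun _ => dv v := by
  simp only [tot]
  rw [if_pos h]

lemma fop_push {u : V} {a : Λ} {v : V} (h : P.act u = .push a v) (s : List Λ) :
    fop P (u, s) = (v, a :: s) := by
  simp only [fop]
  rw [h]

lemma fop_pop {u : V} {f : Λ → V} (h : P.act u = .pop f) (a : Λ) (s : List Λ) :
    fop P (u, a :: s) = (f a, s) := by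
  simp only [fop]
  rw [h]

lemma SW_push {u : V} {a : Λ} {v : V} (h : P.act u = .push a v) {s : List Λ} {k : ℕ}
    (hk : SW P k (u, s)) : ∃ k', k' + 1 = k ∧ SW P k' (v, a :: s) := by
  cases k with
  | zero => simp [SW, stk, h] at hk
  | succ k =>
    rcases hk with hk | hk
    · simp [stk, h] at hk
    · rw [fop_push P h] at hk
      exact ⟨k, rfl, hk⟩

lemma SW_pop {u : V} {f : Λ → V} (h : P.act u = .pop f) {a : Λ} {s : List Λ} {k : ℕ}
    (hk : SW P k (u, a :: s)) : ∃ k', k' + 1 = k ∧ SW P k' (f a, s) := by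
  cases k with
  | zero => simp [SW, stk, h] at hk
  | succ k =>
    rcases hk with hk | hk
    · simp [stk, h] at hk
    · rw [fop_pop P h] at hk
      exact ⟨k, rfl, hk⟩

/-- A tree ends with a pop. -/
lemma last_pop (z : K → Perm U) : ∀ t : Cx V, t.holes = [] → Val P z t →
    ∃ f, P.act t.last = .pop f := by
  intro t
  induction t with
  | leaf w => intro _ h; exact h
  | hole u w => intro h; simp [Cx.holes] at h
  | step u t ih =>
    rintro h ⟨g, _, _, h3⟩
    exact ih h h3
  | push u s t ihs iht =>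
    rintro h ⟨a, v, f, _, _, _, _, _, h6⟩
    simp only [Cx.holes, List.append_eq_nil_iff] at h
    exact iht h.2 h6

/-- Time. -/
structure Tm (tm : V → ℕ) (N : ℕ) : Prop where
  test : ∀ u g, P.act u = .test g → ∀ o, tm u < tm (g o)
  push : ∀ u a v, P.act u = .push a v → tm u ≤ tm v
  pop : ∀ u f, P.act u = .pop f → ∀ a, tm u ≤ tm (f a)
  le : ∀ v, tm v ≤ N

lemma Tm_tot {tm : V → ℕ} {N : ℕ} (h : Tm P tm N) (hd : ∀ v, tm v ≤ tm (dv v)) :
    Tm (tot P dv) tm N := by
  refine ⟨?_, ?_, ?_, h.le⟩
  · intro u g hu o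
    by_cases hD : Dv P u
    · rw [tot_dv P dv hD] at hu; exact absurd hu (by simp)
    · rw [tot_act P dv hD] at hu; exact h.test u g hu o
  · intro u a v hu
    by_cases hD : Dv P u
    · rw [tot_dv P dv hD] at hu; exact absurd hu (by simp)
    · rw [tot_act P dv hD] at hu; exact h.push u a v hu
  · intro u f hu a
    by_cases hD : Dv P u
    · rw [tot_dv P dv hD] at hu
      obtain rfl := PA.pop.inj hu
      exact hd u
    · rw [tot_act P dv hD] at hu; exact h.pop u f hu a

lemma Tm_le {tm : V → ℕ} {N : ℕ} (h : Tm P tm N) (z : K → Perm U) : ∀ t : Cx V, t.holes = [] →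
    Val P z t → tm t.root + t.stp.length ≤ tm t.last := by
  intro t
  induction t with
  | leaf w => intro _ _; simp [Cx.root, Cx.last, Cx.stp]
  | hole u w => intro h; simp [Cx.holes] at h
  | step u t ih =>
    rintro h0 ⟨g, h1, h2, h3⟩
    have h4 := ih h0 h3
    have h5 := h.test u g h1 ((P.ask u).map (qans z))
    rw [← h2] at h5
    simp only [Cx.root, Cx.last, Cx.stp, List.length_cons] at *
    omega
  | push u s t ihs iht =>
    rintro h0 ⟨a, v, f, h1, h2, h3, h4, h5, h6⟩
    simp only [Cx.holes, List.append_eq_nil_iff] at h0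
    have h7 := ihs h0.1 h5
    have h8 := iht h0.2 h6
    have h9 := h.push u a v h1
    have h10 := h.pop _ f h3 a
    rw [← h2] at h9
    rw [← h4] at h10
    simp only [Cx.root, Cx.last, Cx.stp, List.length_append] at *
    omega

/-- Every node has a tree. -/
lemma exists_tree {tm : V → ℕ} {N : ℕ} (h : Tm P tm N) (hd : ∀ v, tm v ≤ tm (dv v))
    (z : K → Perm U) : ∀ (d : ℕ) (u : V), N - tm u = d →
    ∃ t : Cx V, t.holes = [] ∧ Val (tot P dv) z t ∧ t.root = u := by
  have hT := Tm_tot P dv h hd
  intro d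
  induction d using Nat.strong_induction_on with
  | _ d ihd =>
  intro u0 hu0
  obtain ⟨τ, hτ⟩ : ∃ τ, tm u0 = τ := ⟨_, rfl⟩
  have H : ∀ v, τ < tm v → ∃ t : Cx V, t.holes = [] ∧ Val (tot P dv) z t ∧ t.root = v := by
    intro v hv
    have := h.le v
    exact ihd (N - tm v) (by omega) v rfl
  have G : ∀ (k : ℕ) (u : V) (s : List Λ), tm u = τ → SW P k (u, s) →
      ∃ t : Cx V, t.holes = [] ∧ Val (tot P dv) z t ∧ t.root = u ∧ ∀ a s', s = a :: s' →
        ∀ f, (tot P dv).act t.last = .pop f →
          τ < tm (f a) ∨ (tm (f a) = τ ∧ ∃ k' < k, SW P k' (f a, s')) := by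
    intro k
    induction k using Nat.strong_induction_on with
    | _ k ihk =>
    intro u s hu hk
    have hD : ¬ Dv P u := fun hD => hD s k hk
    have hbig : ∀ t : Cx V, t.holes = [] → Val (tot P dv) z t → τ < tm t.root →
        ∀ a s', s = a :: s' → ∀ f, (tot P dv).act t.last = .pop f →
          τ < tm (f a) ∨ (tm (f a) = τ ∧ ∃ k' < k, SW P k' (f a, s')) := by
      intro t h1 h2 h3 a s' _ f hf
      have h4 := Tm_le (tot P dv) hT z t h1 h2
      have h5 := hT.pop _ f hf a
      left
      omega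
    rcases hact : P.act u with g | ⟨a, v⟩ | f
    · have h1 := h.test u g hact ((P.ask u).map (qans z))
      obtain ⟨t, e1, e2, e3⟩ := H (g ((P.ask u).map (qans z))) (by omega)
      refine ⟨.step u t, e1, ⟨g, by rw [tot_act P dv hD]; exact hact, e3, e2⟩, rfl, ?_⟩
      exact hbig t e1 e2 (by rw [e3]; omega)
    · obtain ⟨k', hk', hk''⟩ := SW_push P hact hk
      have h1 := h.push u a v hact
      have hact' : (tot P dv).act u = .push a v := by rw [tot_act P dv hD]; exact hact
      -- the first part
      have hfirst : ∃ t : Cx V, t.holes = [] ∧ Val (tot P dv) z t ∧ t.root = v ∧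
          ∀ f, (tot P dv).act t.last = .pop f →
          τ < tm (f a) ∨ (tm (f a) = τ ∧ ∃ k'' < k', SW P k'' (f a, s)) := by
        rcases Nat.lt_or_ge τ (tm v) with hv | hv
        · obtain ⟨t, e1, e2, e3⟩ := H v hv
          refine ⟨t, e1, e2, e3, fun f hf => ?_⟩
          have h4 := Tm_le (tot P dv) hT z t e1 e2
          have h5 := hT.pop _ f hf a
          rw [e3] at h4
          left
          omega
        · obtain ⟨t, e1, e2, e3, e4⟩ := ihk k' (by omega) v (a :: s) (by omega) hk''
          exact ⟨t, e1, e2, e3, fun f hf => e4 a s rfl f hf⟩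
      obtain ⟨t1, e1, e2, e3, e4⟩ := hfirst
      obtain ⟨f, hf⟩ := last_pop (tot P dv) z t1 e1 e2
      rcases e4 f hf with h5 | ⟨h5, k'', h6, h7⟩
      · obtain ⟨t2, e1', e2', e3'⟩ := H (f a) h5
        refine ⟨.push u t1 t2, by simp [Cx.holes, e1, e1'],
          ⟨a, v, f, hact', e3, hf, e3', e2, e2'⟩, rfl, ?_⟩
        exact hbig t2 e1' e2' (by rw [e3']; exact h5)
      · obtain ⟨t2, e1', e2', e3', e4'⟩ := ihk k'' (by omega) (f a) s h5 h7
        refine ⟨.push u t1 t2, by simp [Cx.holes, e1, e1'],
          ⟨a, v, f, hact', e3, hf, e3', e2, e2'⟩, rfl, ?_⟩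
        intro a' s' hs f' hf'
        rcases e4' a' s' hs f' hf' with h8 | ⟨h8, k3, h9, h10⟩
        · exact Or.inl h8
        · exact Or.inr ⟨h8, k3, by omega, h10⟩
    · have hact' : (tot P dv).act u = .pop f := by rw [tot_act P dv hD]; exact hact
      refine ⟨.leaf u, rfl, ⟨f, hact'⟩, rfl, ?_⟩
      rintro a s' rfl f' hf'
      simp only [Cx.last] at hf'
      rw [hact'] at hf'
      obtain rfl := PA.pop.inj hf'
      obtain ⟨k', hk', hk''⟩ := SW_pop P hact hk
      have h1 := h.pop u f hact a
      rcases Nat.lt_or_ge τ (tm (f a)) with hv | hv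
      · exact Or.inl hv
      · exact Or.inr ⟨by omega, k', by omega, hk''⟩
  by_cases hD : Dv P u0
  · exact ⟨.leaf u0, rfl, ⟨_, tot_dv P dv hD⟩, rfl⟩
  · have : ∃ s k, SW P k (u0, s) := by
      by_contra hcon
      push Not at hcon
      exact hD hcon
    obtain ⟨s, k, hk⟩ := this
    obtain ⟨t, e1, e2, e3, _⟩ := G k u0 s hτ hk
    exact ⟨t, e1, e2, e3⟩

/-- An operation of the program. -/
def pop1 (z : K → Perm U) (c : V × List Λ) : V × List Λ :=
  match P.act c.1, c.2 with
  | .test g, s => (g ((P.ask c.1).map (qans z)), s)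
  | .push a v, s => (v, a :: s)
  | .pop f, a :: s => (f a, s)
  | .pop _, [] => c

/-- Invariants of the run and trees. -/
lemma tree_inv (z : K → Perm U) (J : V × List Λ → Prop) (hJ : ∀ c, J c → J (pop1 P z c)) :
    ∀ (t : Cx V), t.holes = [] → Val P z t → ∀ s, J (t.root, s) → J (t.last, s) := by
  intro t
  induction t with
  | leaf w => intro _ _ s h; exact h
  | hole u w => intro h; simp [Cx.holes] at h
  | step u t ih =>
    rintro h0 ⟨g, h1, h2, h3⟩ s h
    refine ih h0 h3 s ?_
    have h4 := hJ _ h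
    simp only [pop1, Cx.root] at h4
    rw [h1] at h4
    rw [h2]
    exact h4
  | push u s t ihs iht =>
    rintro h0 ⟨a, v, f, h1, h2, h3, h4, h5, h6⟩ s' h
    simp only [Cx.holes, List.append_eq_nil_iff] at h0
    refine iht h0.2 h6 s' ?_
    have h7 := hJ _ h
    simp only [pop1, Cx.root] at h7
    rw [h1] at h7
    have h8 := hJ _ (ihs h0.1 h5 (a :: s') (by rw [h2]; exact h7))
    simp only [pop1] at h8
    rw [h3] at h8
    rw [h4]
    exact h8

end Tot

end Pool.Agent.RSA
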