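import Mathlib
import Pool.Agent.RSA.Stmts
import Pool.Agent.RSA.DsTot
import Pool.Agent.ACS.Loc

/-!
# The program of a deterministic machine for given records
-/

set_option autoImplicit false
set_option linter.unusedVariables false
set_option linter.unusedSectionVars false

namespace Pool.Agent.RSA

open Finset Equiv Pool.Agent.TR
open Pool.Agent.ACC (write memo lastw lastw_lt memo_congr write_none write_same write_of_ne write_not
  grph)
open Pool.Agent.ACS (rdv Ok)

/-! ### records -/

section Rec

variable {J B U Q A Γ Λ : Type} (M : ACS.FM J B U Q A Γ Λ) (b : Bool)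
  (R : ℕ → Option (Option ℕ × A × Γ))

lemma Ok_mono {t t' τ : ℕ} (h : t' ≤ t) {q : Q} {w : Option (A × Γ)} (hok : Ok M b R t τ q w) :
    Ok M b R t' τ q w := by
  cases b with
  | true => exact hok
  | false =>
    simp only [Ok, Bool.false_eq_true, if_false] at hok ⊢
    exact ⟨hok.1, hok.2.1, hok.2.2.1, fun σ l a γ h1 h2 h3 => hok.2.2.2 σ l a γ h1 (by omega) h3⟩

lemma val_ok' (t : ℕ) (q : ℕ → Q) (w : ℕ → Option (A × Γ)) (τ : ℕ) (hτ : τ < t)
    (hok : ∀ σ ≤ τ, Ok M b R t σ (q σ) (w σ)) : M.val q w τ = rdv M b R τ (q τ) :=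
  ACS.val_ok M b R (τ + 1) q w (fun σ hσ => Ok_mono M b R (by omega) (hok σ (by omega))) τ
    (Nat.lt_succ_self τ)

lemma rdv_recd' (q : ℕ → Q) (w : ℕ → Option (A × Γ)) (τ : ℕ)
    (hR : ∀ σ ≤ τ, R σ = M.recd b q w σ) : rdv M b R τ (q τ) = M.val q w τ :=
  ACS.rdv_recd M b R (τ + 1) q w (fun σ hσ => hR σ (by omega)) τ (Nat.lt_succ_self τ)

lemma ok_recd' (t : ℕ) (q : ℕ → Q) (w : ℕ → Option (A × Γ)) (τ : ℕ) (hτ : τ < t)
    (hR : R τ = M.recd b q w τ) (hR' : ∀ σ < t, ∀ x, R σ = some x → M.recd b q w σ = some x) :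
    Ok M b R t τ (q τ) (w τ) := by
  cases b with
  | true =>
    simp only [Ok, if_true]
    rw [hR]
    simp only [ACS.FM.recd, if_true]
  | false =>
    have hR'' : ∀ σ < t, ∀ l a γ, R σ = some (l, a, γ) →
        M.rd σ (q σ) = some a ∧ lastw w a σ = l ∧ memo M.init w σ a = γ := by
      intro σ hσ l a γ h
      have h := hR' σ hσ _ h
      simp only [ACS.FM.recd, Bool.false_eq_true, if_false, Option.map_eq_some_iff,
        Prod.mk.injEq] at h
      obtain ⟨a', h1, h2, rfl, h3⟩ := h
      exact ⟨h1, h2, h3⟩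
    simp only [Ok, Bool.false_eq_true, if_false]
    refine ⟨?_, ?_, ?_, ?_⟩
    · rw [hR]
      simp only [ACS.FM.recd, Bool.false_eq_true, if_false, Option.map_map]
      rcases M.rd τ (q τ) with _ | a <;> rfl
    · intro a γ h
      obtain ⟨_, h2, h3⟩ := hR'' τ hτ _ _ _ h
      rw [← h3]
      exact ACS.memo_none _ _ _ _ (ACS.lastw_none w a τ h2)
    · intro i a γ h
      obtain ⟨_, h2, _⟩ := hR'' τ hτ _ _ _ h
      exact lastw_lt w a τ i h2
    · intro σ l a γ h1 h2 h3
      obtain ⟨_, h4, h5⟩ := hR'' σ h2 _ _ _ h3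
      constructor
      · rintro rfl
        rw [ACS.lastw_some M.init w a σ τ h4, h5]
      · intro h6 v hv
        obtain ⟨i, h7, h8⟩ := ACS.lastw_ge w a σ τ v h1 hv
        have := h6 i (by rw [← h4, h7])
        omega

lemma lastw_eq_none (w : ℕ → Option (A × Γ)) (a : A) (τ : ℕ)
    (h : ∀ σ < τ, ∀ v, w σ ≠ some (a, v)) : lastw w a τ = none := by
  classical
  induction τ with
  | zero => rfl
  | succ τ ih =>
    rw [lastw, if_neg]
    · exact ih fun σ hσ => h σ (by omega)
    · rintro ⟨v, hv⟩
      exact h τ (Nat.lt_succ_self τ) v hv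

lemma lastw_eq_some (w : ℕ → Option (A × Γ)) (a : A) (γ : Γ) (i τ : ℕ) (hi : i < τ)
    (hw : w i = some (a, γ)) (h : ∀ σ, i < σ → σ < τ → ∀ v, w σ ≠ some (a, v)) :
    lastw w a τ = some i := by
  classical
  induction τ with
  | zero => omega
  | succ τ ih =>
    rw [lastw]
    rcases Nat.lt_succ_iff_lt_or_eq.1 hi with h1 | h1
    · rw [if_neg]
      · exact ih h1 fun σ h2 h3 => h σ h2 (by omega)
      · rintro ⟨v, hv⟩
        exact h τ h1 (Nat.lt_succ_self τ) v hv
    · subst h1
      rw [if_pos ⟨γ, hw⟩]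

/-- Legal steps have the given records. -/
lemma recd_of_ok (t : ℕ) (q : ℕ → Q) (w : ℕ → Option (A × Γ)) (τ : ℕ) (hτ : τ < t)
    (hok : ∀ σ ≤ τ, Ok M b R t σ (q σ) (w σ)) : R τ = M.recd b q w τ := by
  cases b with
  | true =>
    have := hok τ le_rfl
    simp only [Ok, if_true] at this
    simp only [ACS.FM.recd, if_true]
    exact this
  | false =>
    have h1 := hok τ le_rfl
    have hval := val_ok' M false R t q w τ hτ hok
    simp only [Ok, Bool.false_eq_true, if_false] at h1
    obtain ⟨h2, h3, h4, _⟩ := h1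
    simp only [ACS.FM.recd, Bool.false_eq_true, if_false]
    simp only [rdv, Bool.false_eq_true, if_false, ACS.FM.val] at hval
    rcases h5 : R τ with _ | ⟨l, a, γ⟩
    · rw [h5] at h2
      rw [← h2]
      rfl
    · rw [h5] at h2 hval
      rw [← h2] at hval ⊢
      simp only [Option.map_some, Option.some.injEq, Prod.mk.injEq] at hval ⊢
      refine ⟨?_, trivial, hval.symm⟩
      rcases l with _ | i
      · symm
        refine lastw_eq_none _ _ _ fun σ hσ v => ?_
        have h6 := hok σ (by omega)
        simp only [Ok, Bool.false_eq_true, if_false] at h6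
        exact ((h6.2.2.2 τ none a γ hσ hτ h5).2 (by intro i hi; exact absurd hi (by simp))) v
      · have hi := h4 i a γ h5
        symm
        refine lastw_eq_some _ _ γ i τ hi ?_ ?_
        · have h6 := hok i (by omega)
          simp only [Ok, Bool.false_eq_true, if_false] at h6
          exact (h6.2.2.2 τ (some i) a γ hi hτ h5).1 rfl
        · intro σ h7 h8 v
          have h6 := hok σ (by omega)
          simp only [Ok, Bool.false_eq_true, if_false] at h6
          refine (h6.2.2.2 τ (some i) a γ h8 hτ h5).2 ?_ v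
          intro j hj
          obtain rfl := Option.some.inj hj
          exact h7

end Rec

/-! ### the real run -/

section Real

variable {K U Q A Γ Λ : Type} (M : SDM K U Q A Γ Λ) (b : Bool) (y : K → Perm U)

/-- The registers and the reads of the machine. -/
def fmS : ACS.FM Unit Unit Unit Q A Γ Unit where
  start _ := True
  init := M.init
  push _ _ _ _ := False
  pop _ _ _ _ := False
  rd := M.rd
  ask _ _ _ := none
  step _ _ _ _ _ _ := True
  acc _ := True

/-- Step number `τ` is operation number `k`. -/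
def StepAt (τ k : ℕ) : Prop :=
  (M.run y k).steps = τ ∧ M.act τ (M.run y k).state = .step

lemma op_step {x : Conf Q A Γ Λ} (h : M.act x.steps x.state = .step) :
    M.op y x = ⟨x.steps + 1, (M.mv y x).1, write x.reg (M.mv y x).2, x.stack⟩ := by
  unfold SDM.op
  rw [h]

lemma op_push {x : Conf Q A Γ Λ} {a : Λ} {q : Q} (h : M.act x.steps x.state = .push a q) :
    M.op y x = ⟨x.steps, q, x.reg, a :: x.stack⟩ := by
  unfold SDM.op
  rw [h]

lemma op_pop {x : Conf Q A Γ Λ} {f : Option Λ → Q} (h : M.act x.steps x.state = .pop f) :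
    M.op y x = ⟨x.steps, f x.stack.head?, x.reg, x.stack.tail⟩ := by
  unfold SDM.op
  rw [h]

open Classical in
lemma op_steps (x : Conf Q A Γ Λ) : (M.op y x).steps =
    if M.act x.steps x.state = .step then x.steps + 1 else x.steps := by
  rcases h : M.act x.steps x.state with _ | ⟨a, q⟩ | f
  · rw [op_step M y h, if_pos rfl]
  · rw [op_push M y h, if_neg (by simp)]
  · rw [op_pop M y h, if_neg (by simp)]

lemma steps_mono {k k' : ℕ} (h : k ≤ k') : (M.run y k).steps ≤ (M.run y k').steps := by
  induction k' with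
  | zero => rw [Nat.le_zero.1 h]
  | succ k' ih =>
    rcases Nat.le_succ_iff.1 h with h1 | h1
    · refine (ih h1).trans ?_
      show _ ≤ (M.op y (M.run y k')).steps
      rw [op_steps]
      split_ifs <;> omega
    · rw [h1]

lemma StepAt_succ {τ k : ℕ} (h : StepAt M y τ k) : (M.run y (k + 1)).steps = τ + 1 := by
  show (M.op y (M.run y k)).steps = _
  rw [op_steps, if_pos]
  · rw [h.1]
  · rw [h.1]; exact h.2

lemma StepAt_uniq {τ k k' : ℕ} (h : StepAt M y τ k) (h' : StepAt M y τ k') : k = k' := by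
  rcases lt_trichotomy k k' with h1 | h1 | h1
  · have h2 := StepAt_succ M y h
    have h3 := steps_mono M y (show k + 1 ≤ k' by omega)
    rw [h2, h'.1] at h3
    omega
  · exact h1
  · have h2 := StepAt_succ M y h'
    have h3 := steps_mono M y (show k' + 1 ≤ k by omega)
    rw [h2, h.1] at h3
    omega

/-- Earlier steps have been made. -/
lemma StepAt_lt {k : ℕ} : ∀ σ < (M.run y k).steps, ∃ k' < k, StepAt M y σ k' := by
  induction k with
  | zero => intro σ hσ; exact absurd hσ (by simp [SDM.run])
  | succ k ih =>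
    intro σ hσ
    change σ < (M.op y (M.run y k)).steps at hσ
    rw [op_steps] at hσ
    split_ifs at hσ with h1
    · rcases Nat.lt_succ_iff_lt_or_eq.1 hσ with h2 | h2
      · obtain ⟨k', h3, h4⟩ := ih σ h2
        exact ⟨k', by omega, h4⟩
      · exact ⟨k, by omega, h2.symm, by rw [h2]; exact h1⟩
    · obtain ⟨k', h3, h4⟩ := ih σ hσ
      exact ⟨k', by omega, h4⟩

open Classical in
/-- The number of the operation that is step number `τ`. -/
noncomputable def kk (τ : ℕ) : ℕ := if h : ∃ k, StepAt M y τ k then h.choose else 0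

lemma kk_eq {τ k : ℕ} (h : StepAt M y τ k) : kk M y τ = k := by
  have h' : ∃ k, StepAt M y τ k := ⟨k, h⟩
  unfold kk
  rw [dif_pos h']
  exact StepAt_uniq M y h'.choose_spec h

/-- The state of step number `τ`. -/
noncomputable def qs (τ : ℕ) : Q := (M.run y (kk M y τ)).state

open Classical in
/-- The write of step number `τ`. -/
noncomputable def ws (τ : ℕ) : Option (A × Γ) :=
  if ∃ k, StepAt M y τ k then (M.mv y (M.run y (kk M y τ))).2 else none

open Classical in
/-- The record of step number `τ`. -/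
noncomputable def rc (τ : ℕ) : Option (Option ℕ × A × Γ) :=
  if ∃ k, StepAt M y τ k then (fmS M).recd b (qs M y) (ws M y) τ else none

lemma ws_eq {τ k : ℕ} (h : StepAt M y τ k) : ws M y τ = (M.mv y (M.run y k)).2 := by
  unfold ws
  rw [if_pos ⟨k, h⟩, kk_eq M y h]

lemma qs_eq {τ k : ℕ} (h : StepAt M y τ k) : qs M y τ = (M.run y k).state := by
  unfold qs
  rw [kk_eq M y h]

lemma rc_eq {τ k : ℕ} (h : StepAt M y τ k) :
    rc M b y τ = (fmS M).recd b (qs M y) (ws M y) τ := by
  unfold rc
  rw [if_pos ⟨k, h⟩]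

lemma run_reg (k : ℕ) : (M.run y k).reg = memo M.init (ws M y) (M.run y k).steps := by
  induction k with
  | zero => rfl
  | succ k ih =>
    show (M.op y (M.run y k)).reg = memo M.init (ws M y) (M.op y (M.run y k)).steps
    rcases h : M.act (M.run y k).steps (M.run y k).state with _ | ⟨a, q⟩ | f
    · rw [op_step M y h]
      show write _ _ = write _ _
      rw [ih, ws_eq M y (show StepAt M y (M.run y k).steps k from ⟨rfl, h⟩)]
    · rw [op_push M y h]
      exact ih
    · rw [op_pop M y h]
      exact ih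

lemma run_val {τ k : ℕ} (h : StepAt M y τ k) :
    M.val (M.run y k) = (fmS M).val (qs M y) (ws M y) τ := by
  unfold SDM.val ACS.FM.val
  rw [run_reg, h.1, qs_eq M y h]
  rfl

end Real

end Pool.Agent.RSA
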