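import Mathlib
import Pool.Agent.RSA.DsReal

/-!
# The program of a deterministic machine for given records and the real run
-/

set_option autoImplicit false
set_option linter.unusedVariables false
set_option linter.unusedSectionVars false

namespace Pool.Agent.RSA

open Finset Equiv Pool.Agent.TR
open Pool.Agent.ACC (write memo lastw lastw_lt memo_congr write_none write_same write_of_ne write_not
  grph)
open Pool.Agent.ACS (rdv Ok)

/-- The nodes: a state of the machine after `τ` steps (`false`), the same before the bottom mark is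
pushed again (`true`), the end of the computation. -/
abbrev Nd (N : ℕ) (Q : Type) : Type := (Bool × Fin (N + 1) × Q) ⊕ Option (Option Q)

section Prog

variable {K U Q A Γ Λ : Type} (M : SDM K U Q A Γ Λ) (b : Bool) (N : ℕ)
  (R : ℕ → Option (Option ℕ × A × Γ))

open Classical in
/-- The node after a step. -/
noncomputable def nxt (τ : Fin (N + 1)) (q : Q) (o : Option U) : Nd N Q :=
  if h : (τ : ℕ) < N ∧ Ok (fmS M) b R N τ q (M.step τ q (rdv (fmS M) b R τ q) o).2 then
    .inl (false, ⟨τ + 1, by omega⟩, (M.step τ q (rdv (fmS M) b R τ q) o).1)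
  else .inr none

/-- The node after a pop. -/
def nxp (τ : Fin (N + 1)) (f : Option Λ → Q) (o : Option Λ) : Nd N Q :=
  match o with
  | some a => .inl (false, τ, f (some a))
  | none => .inl (true, τ, f none)

/-- The program. -/
noncomputable def prg0 : PP K U (Nd N Q) (Option Λ) where
  act
    | .inl (false, τ, q) => match M.act τ q with
      | .step => if (τ : ℕ) < N then .test (nxt M b N R τ q) else .pop fun _ => .inr (some (some q))
      | .push a q' => .push (some a) (.inl (false, τ, q'))
      | .pop f => .pop (nxp N τ f)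
    | .inl (true, τ, q) => .push none (.inl (false, τ, q))
    | .inr o => .pop fun _ => .inr o
  ask
    | .inl (_, τ, q) => M.ask τ q (rdv (fmS M) b R τ q)
    | .inr _ => none

/-- The time of a node. -/
def tmN : Nd N Q → ℕ
  | .inl (_, τ, _) => τ
  | .inr _ => N

lemma prg0_step {τ : Fin (N + 1)} {q : Q} (h : M.act τ q = .step) (hτ : (τ : ℕ) < N) :
    (prg0 M b N R).act (.inl (false, τ, q)) = .test (nxt M b N R τ q) := by
  simp only [prg0]
  rw [h]
  simp only
  rw [if_pos hτ]

lemma prg0_end {τ : Fin (N + 1)} {q : Q} (h : M.act τ q = .step) (hτ : ¬ (τ : ℕ) < N) :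
    (prg0 M b N R).act (.inl (false, τ, q)) = .pop fun _ => .inr (some (some q)) := by
  simp only [prg0]
  rw [h]
  simp only
  rw [if_neg hτ]

lemma prg0_push {τ : Fin (N + 1)} {q q' : Q} {a : Λ} (h : M.act τ q = .push a q') :
    (prg0 M b N R).act (.inl (false, τ, q)) = .push (some a) (.inl (false, τ, q')) := by
  simp only [prg0]
  rw [h]

lemma prg0_pop {τ : Fin (N + 1)} {q : Q} {f : Option Λ → Q} (h : M.act τ q = .pop f) :
    (prg0 M b N R).act (.inl (false, τ, q)) = .pop (nxp N τ f) := by
  simp only [prg0]
  rw [h]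

lemma prg0_bot {τ : Fin (N + 1)} {q : Q} :
    (prg0 M b N R).act (.inl (true, τ, q)) = .push none (.inl (false, τ, q)) := rfl

lemma prg0_inr {o : Option (Option Q)} :
    (prg0 M b N R).act (.inr o) = .pop fun _ => .inr o := rfl

lemma prg0_Tm : Tm (prg0 M b N R) (tmN N) N := by
  have key : ∀ v : Nd N Q, tmN N v ≤ N := by
    rintro (⟨x, τ, q⟩ | o)
    · simp only [tmN]; omega
    · simp [tmN]
  refine ⟨?_, ?_, ?_, key⟩
  · rintro (⟨x, τ, q⟩ | o) g hu o'
    · cases x with
      | true => rw [prg0_bot] at hu; exact absurd hu (by simp)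
      | false =>
        rcases h : M.act τ q with _ | ⟨a, q'⟩ | f
        · by_cases hτ : (τ : ℕ) < N
          · rw [prg0_step M b N R h hτ] at hu
            obtain rfl := PA.test.inj hu
            unfold nxt
            split_ifs
            · simp [tmN]
            · simpa [tmN] using hτ
          · rw [prg0_end M b N R h hτ] at hu; exact absurd hu (by simp)
        · rw [prg0_push M b N R h] at hu; exact absurd hu (by simp)
        · rw [prg0_pop M b N R h] at hu; exact absurd hu (by simp)
    · rw [prg0_inr] at hu; exact absurd hu (by simp)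
  · rintro (⟨x, τ, q⟩ | o) a v hu
    · cases x with
      | true =>
        rw [prg0_bot] at hu
        obtain ⟨_, rfl⟩ := PA.push.inj hu
        exact le_rfl
      | false =>
        rcases h : M.act τ q with _ | ⟨a, q'⟩ | f
        · by_cases hτ : (τ : ℕ) < N
          · rw [prg0_step M b N R h hτ] at hu; exact absurd hu (by simp)
          · rw [prg0_end M b N R h hτ] at hu; exact absurd hu (by simp)
        · rw [prg0_push M b N R h] at hu
          obtain ⟨_, rfl⟩ := PA.push.inj hu
          exact le_rfl
        · rw [prg0_pop M b N R h] at hu; exact absurd hu (by simp)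
    · rw [prg0_inr] at hu; exact absurd hu (by simp)
  · rintro (⟨x, τ, q⟩ | o) f' hu a
    · cases x with
      | true => rw [prg0_bot] at hu; exact absurd hu (by simp)
      | false =>
        rcases h : M.act τ q with _ | ⟨a', q'⟩ | f
        · by_cases hτ : (τ : ℕ) < N
          · rw [prg0_step M b N R h hτ] at hu; exact absurd hu (by simp)
          · rw [prg0_end M b N R h hτ] at hu
            obtain rfl := PA.pop.inj hu
            simp only [tmN]; omega
        · rw [prg0_push M b N R h] at hu; exact absurd hu (by simp)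
        · rw [prg0_pop M b N R h] at hu
          obtain rfl := PA.pop.inj hu
          cases a with
          | none => exact le_rfl
          | some a => exact le_rfl
    · rw [prg0_inr] at hu
      obtain rfl := PA.pop.inj hu
      exact le_rfl

open Classical in
/-- The end of a computation with an infinite number of stack operations after step number
`tmN v`. -/
noncomputable def dvN (v : Nd N Q) : Nd N Q :=
  if ∀ σ, tmN N v ≤ σ → σ < N → R σ = none then .inr (some none) else .inr none

/-- The program that always ends. -/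
noncomputable def prg : PP K U (Nd N Q) (Option Λ) := tot (prg0 M b N R) (dvN N R)

lemma dvN_le (v : Nd N Q) : tmN N v ≤ tmN N (dvN N R v) := by
  have : tmN N v ≤ N := by
    rcases v with ⟨x, τ, q⟩ | o
    · simp only [tmN]; omega
    · simp [tmN]
  unfold dvN
  split_ifs
  · exact this
  · exact this

lemma SW_inr (o : Option (Option Q)) (s : List (Option Λ)) :
    SW (prg0 M b N R) s.length (.inr o, s) := by
  induction s with
  | nil => simp [SW, stk, prg0]
  | cons a s ih =>
    right
    rw [fop_pop (prg0 M b N R) (prg0_inr M b N R)]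
    exact ih

lemma not_Dv_inr (o : Option (Option Q)) : ¬ Dv (prg0 M b N R) (.inr o) :=
  fun h => h [] 0 (SW_inr M b N R o [])

variable (y : K → Perm U)

/-- The free run of the program never stops. -/
def DvC (τ : Fin (N + 1)) (k : ℕ) : Prop :=
  (M.run y k).steps = τ ∧ ∀ m, ¬ SW (prg0 M b N R) m
    (.inl (false, τ, (M.run y k).state), (M.run y k).stack.map some ++ [none, none])

lemma DvC_succ {τ : Fin (N + 1)} {k : ℕ} (h : DvC M b N R y τ k) : DvC M b N R y τ (k + 1) := by
  obtain ⟨h1, h2⟩ := h
  have hs : ∀ m, ¬ SW (prg0 M b N R) m (fop (prg0 M b N R)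
      (.inl (false, τ, (M.run y k).state), (M.run y k).stack.map some ++ [none, none])) :=
    fun m hm => h2 (m + 1) (Or.inr hm)
  show (M.op y (M.run y k)).steps = τ ∧ ∀ m, ¬ SW (prg0 M b N R) m
    (.inl (false, τ, (M.op y (M.run y k)).state), (M.op y (M.run y k)).stack.map some ++
      [none, none])
  rcases h : M.act (M.run y k).steps (M.run y k).state with _ | ⟨a, q'⟩ | f
  · exfalso
    have h' : M.act τ (M.run y k).state = .step := by rw [← h1]; exact h
    by_cases hτ : (τ : ℕ) < N
    · refine h2 0 ?_
      simp only [SW, stk]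
      rw [prg0_step M b N R h' hτ]
      trivial
    · have h3 := prg0_end M b N R h' hτ
      rcases h4 : (M.run y k).stack.map some ++ [none, none] with _ | ⟨x, s⟩
      · simp at h4
      · rw [h4, fop_pop (prg0 M b N R) h3] at hs
        exact hs _ (SW_inr M b N R _ s)
  · have h' : M.act τ (M.run y k).state = .push a q' := by rw [← h1]; exact h
    rw [fop_push (prg0 M b N R) (prg0_push M b N R h')] at hs
    rw [op_push M y h]
    exact ⟨h1, hs⟩
  · have h' : M.act τ (M.run y k).state = .pop f := by rw [← h1]; exact h
    rw [op_pop M y h]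
    refine ⟨h1, ?_⟩
    rcases h4 : (M.run y k).stack with _ | ⟨x, s⟩
    · rw [h4] at hs
      simp only [List.map_nil, List.nil_append] at hs
      rw [fop_pop (prg0 M b N R) (prg0_pop M b N R h')] at hs
      intro m hm
      refine hs (m + 1) (Or.inr ?_)
      rw [show nxp N τ f none = (.inl (true, τ, f none) : Nd N Q) from rfl,
        fop_push (prg0 M b N R) (prg0_bot M b N R)]
      exact hm
    · rw [h4] at hs
      simp only [List.map_cons, List.cons_append] at hs
      rw [fop_pop (prg0 M b N R) (prg0_pop M b N R h')] at hs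
      exact hs

lemma DvC_add {τ : Fin (N + 1)} {k : ℕ} (h : DvC M b N R y τ k) (j : ℕ) :
    DvC M b N R y τ (k + j) := by
  induction j with
  | zero => exact h
  | succ j ih => exact DvC_succ M b N R y ih

/-- The first `τ` steps are legal. -/
def Leg (τ : ℕ) : Prop := ∀ σ < τ, Ok (fmS M) b R N σ (qs M y σ) (ws M y σ)

/-- The invariant. -/
def Inv (c : Nd N Q × List (Option Λ)) : Prop :=
  match c.1 with
  | .inl (false, τ, q) => ∃ k, (M.run y k).steps = τ ∧ (M.run y k).state = q ∧
      c.2 = (M.run y k).stack.map some ++ [none, none] ∧ Leg M b N R y τ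
  | .inl (true, τ, q) => ∃ k, (M.run y k).steps = τ ∧ (M.run y k).state = q ∧
      (M.run y k).stack = [] ∧ c.2 = [none] ∧ Leg M b N R y τ
  | .inr (some (some q)) => Leg M b N R y N ∧ ∃ k, StepAt M y N k ∧ (M.run y k).state = q
  | .inr (some none) => ∃ k, (M.run y k).steps ≤ N ∧
      (∀ j, (M.run y (k + j)).steps = (M.run y k).steps) ∧ Leg M b N R y (M.run y k).steps ∧
      ∀ σ, (M.run y k).steps ≤ σ → σ < N → R σ = none
  | .inr none => ∃ τ < N, R τ ≠ rc M b y τ

lemma not_StepAt {k : ℕ} (h : ∀ j, (M.run y (k + j)).steps = (M.run y k).steps) {σ : ℕ}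
    (hσ : (M.run y k).steps ≤ σ) : ¬ ∃ k', StepAt M y σ k' := by
  rintro ⟨k', hk'⟩
  have h1 := StepAt_succ M y hk'
  have h2 := steps_mono M y (show k' + 1 ≤ k + (k' + 1) by omega)
  rw [h] at h2
  omega

lemma rc_none {σ : ℕ} (h : ¬ ∃ k', StepAt M y σ k') : rc M b y σ = none := by
  unfold rc
  rw [if_neg h]

/-- The end in the case of divergence. -/
lemma Inv_dv {τ : Fin (N + 1)} {k : ℕ} (h : DvC M b N R y τ k) (hl : Leg M b N R y τ)
    (v : Nd N Q) (hv : tmN N v = τ) (s : List (Option Λ)) :
    Inv M b N R y (dvN N R v, s) := by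
  have h1 : (M.run y k).steps = τ := h.1
  have h2 : ∀ j, (M.run y (k + j)).steps = (M.run y k).steps := by
    intro j
    rw [(DvC_add M b N R y h j).1, h1]
  unfold dvN
  split_ifs with hR
  · refine ⟨k, by rw [h1]; omega, h2, by rw [h1]; exact hl, ?_⟩
    rw [h1, ← hv]
    exact hR
  · push Not at hR
    obtain ⟨σ, h3, h4, h5⟩ := hR
    refine ⟨σ, h4, ?_⟩
    rw [rc_none M b y (not_StepAt M y h2 (by rw [h1, ← hv]; exact h3))]
    exact h5

/-- Everything about a step. -/
lemma Inv_step {τ : Fin (N + 1)} {k : ℕ} (hτ : (τ : ℕ) < N) (hs : StepAt M y τ k)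
    (hl : Leg M b N R y τ) :
    Inv M b N R y (nxt M b N R τ (M.run y k).state
      ((M.ask τ (M.run y k).state (rdv (fmS M) b R τ (M.run y k).state)).map (qans y)),
      (M.run y k).stack.map some ++ [none, none]) := by
  obtain ⟨q, hq⟩ : ∃ q, (M.run y k).state = q := ⟨_, rfl⟩
  have hqs : qs M y τ = q := by rw [qs_eq M y hs, hq]
  -- equal contents give equal steps
  have hmv : rdv (fmS M) b R τ q = M.val (M.run y k) →
      M.step τ q (rdv (fmS M) b R τ q) ((M.ask τ q (rdv (fmS M) b R τ q)).map (qans y)) =
        M.mv y (M.run y k) := by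
    intro h
    unfold SDM.mv SDM.qu
    rw [h, hs.1, hq]
  rw [hq]
  unfold nxt
  split_ifs with hc
  · -- legal
    obtain ⟨_, hok⟩ := hc
    set w0 := (M.step τ q (rdv (fmS M) b R τ q)
      ((M.ask τ q (rdv (fmS M) b R τ q)).map (qans y))).2 with hw0
    have hv : rdv (fmS M) b R τ q = M.val (M.run y k) := by
      have h1 := val_ok' (fmS M) b R N (qs M y) (Function.update (ws M y) τ w0) τ hτ (by
        intro σ hσ
        rcases Nat.lt_or_ge σ τ with h | h
        · rw [Function.update_of_ne (by omega)]
          exact hl σ h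
        · have : σ = τ := by omega
          subst this
          rw [Function.update_self, hqs]
          exact hok)
      rw [hqs] at h1
      rw [← h1, run_val M y hs]
      unfold ACS.FM.val
      rw [memo_congr _ _ (ws M y) τ]
      intro σ hσ
      rw [Function.update_of_ne (by omega)]
    have hmv := hmv hv
    refine ⟨k + 1, ?_, ?_, ?_, ?_⟩
    · exact StepAt_succ M y hs
    · show (M.op y (M.run y k)).state = _
      rw [op_step M y (by rw [hs.1]; exact hs.2), hmv]
    · show _ = (M.op y (M.run y k)).stack.map some ++ _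
      rw [op_step M y (by rw [hs.1]; exact hs.2)]
    · intro σ hσ
      rcases Nat.lt_succ_iff_lt_or_eq.1 hσ with h | h
      · exact hl σ h
      · rw [h, hqs, ws_eq M y hs, ← hmv]
        exact hok
  · -- not legal
    by_contra hcon
    have hcon' : ∀ σ < N, R σ = rc M b y σ := by
      intro σ hσ
      by_contra h
      exact hcon ⟨σ, hσ, h⟩
    have hmade : ∀ σ ≤ (τ : ℕ), ∃ k', StepAt M y σ k' := by
      intro σ hσ
      rcases Nat.lt_or_ge σ τ with h | h
      · obtain ⟨k', _, h'⟩ := StepAt_lt M y (k := k) σ (by rw [hs.1]; exact h)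
        exact ⟨k', h'⟩
      · exact ⟨k, by rwa [show σ = τ by omega]⟩
    have hR : ∀ σ ≤ (τ : ℕ), R σ = (fmS M).recd b (qs M y) (ws M y) σ := by
      intro σ hσ
      obtain ⟨k', h'⟩ := hmade σ hσ
      rw [hcon' σ (by omega), rc_eq M b y h']
    have hv : rdv (fmS M) b R τ q = M.val (M.run y k) := by
      rw [run_val M y hs, ← hqs]
      exact rdv_recd' (fmS M) b R (qs M y) (ws M y) τ hR
    have hmv := hmv hv
    refine hc ⟨hτ, ?_⟩
    rw [hmv, ← ws_eq M y hs, ← hqs]
    refine ok_recd' (fmS M) b R N (qs M y) (ws M y) τ hτ (hR τ le_rfl) ?_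
    intro σ hσ x hx
    rw [hcon' σ hσ] at hx
    unfold rc at hx
    split_ifs at hx with h
    exact hx

lemma pop1_test {V Λ' : Type} {P : PP K U V Λ'} {u : V} {g : Option U → V}
    (h : P.act u = .test g) (s : List Λ') :
    pop1 P y (u, s) = (g ((P.ask u).map (qans y)), s) := by
  simp only [pop1]
  rw [h]

lemma pop1_push {V Λ' : Type} {P : PP K U V Λ'} {u : V} {a : Λ'} {v : V}
    (h : P.act u = .push a v) (s : List Λ') : pop1 P y (u, s) = (v, a :: s) := by
  simp only [pop1]
  rw [h]

lemma pop1_pop {V Λ' : Type} {P : PP K U V Λ'} {u : V} {f : Λ' → V}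
    (h : P.act u = .pop f) (a : Λ') (s : List Λ') : pop1 P y (u, a :: s) = (f a, s) := by
  simp only [pop1]
  rw [h]

lemma pop1_nil {V Λ' : Type} {P : PP K U V Λ'} {u : V} {f : Λ' → V}
    (h : P.act u = .pop f) : pop1 P y (u, []) = (u, []) := by
  simp only [pop1]
  rw [h]

lemma Inv_pop1 (c : Nd N Q × List (Option Λ)) (h : Inv M b N R y c) :
    Inv M b N R y (pop1 (prg M b N R) y c) := by
  obtain ⟨v, s⟩ := c
  rcases v with ⟨x, τ, q⟩ | o
  · cases x with
    | false =>
      obtain ⟨k, h1, h2, h3, h4⟩ := h
      simp only at h3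
      by_cases hD : Dv (prg0 M b N R) (.inl (false, τ, q))
      · have hact : (prg M b N R).act (.inl (false, τ, q)) = .pop fun _ =>
            dvN N R (.inl (false, τ, q)) := tot_dv _ _ hD
        rcases s with _ | ⟨a, s⟩
        · simp at h3
        · rw [pop1_pop y hact]
          refine Inv_dv M b N R y (k := k) ⟨h1, ?_⟩ h4 _ rfl s
          intro m
          rw [h2]
          exact hD _ m
      · have hact : (prg M b N R).act (.inl (false, τ, q)) = (prg0 M b N R).act
            (.inl (false, τ, q)) := tot_act _ _ hD
        rcases h : M.act τ q with _ | ⟨a, q'⟩ | f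
        · have hs : StepAt M y τ k := ⟨h1, by rw [h2]; exact h⟩
          by_cases hτ : (τ : ℕ) < N
          · rw [prg0_step M b N R h hτ] at hact
            rw [pop1_test y hact, h3]
            have := Inv_step M b N R y hτ hs h4
            rw [h2] at this
            exact this
          · rw [prg0_end M b N R h hτ] at hact
            have hτ' : (τ : ℕ) = N := by omega
            rcases s with _ | ⟨a, s⟩
            · simp at h3
            · rw [pop1_pop y hact]
              rw [hτ'] at hs
              exact ⟨fun σ hσ => h4 σ (by omega), k, hs, h2⟩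
        · rw [prg0_push M b N R h] at hact
          rw [pop1_push y hact]
          have h' : M.act (M.run y k).steps (M.run y k).state = .push a q' := by
            rw [h1, h2]; exact h
          refine ⟨k + 1, ?_, ?_, ?_, h4⟩
          · show (M.op y (M.run y k)).steps = _
            rw [op_push M y h']; exact h1
          · show (M.op y (M.run y k)).state = _
            rw [op_push M y h']
          · show _ = (M.op y (M.run y k)).stack.map some ++ _
            rw [op_push M y h', h3]; rfl
        · rw [prg0_pop M b N R h] at hact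
          have h' : M.act (M.run y k).steps (M.run y k).state = .pop f := by
            rw [h1, h2]; exact h
          rcases hst : (M.run y k).stack with _ | ⟨a, s'⟩
          · rw [hst] at h3
            simp only [List.map_nil, List.nil_append] at h3
            rw [h3, pop1_pop y hact]
            refine ⟨k + 1, ?_, ?_, ?_, rfl, h4⟩
            · show (M.op y (M.run y k)).steps = _
              rw [op_pop M y h']; exact h1
            · show (M.op y (M.run y k)).state = _
              rw [op_pop M y h', hst]; rfl
            · show (M.op y (M.run y k)).stack = _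
              rw [op_pop M y h', hst]; rfl
          · rw [hst] at h3
            simp only [List.map_cons, List.cons_append] at h3
            rw [h3, pop1_pop y hact]
            refine ⟨k + 1, ?_, ?_, ?_, h4⟩
            · show (M.op y (M.run y k)).steps = _
              rw [op_pop M y h']; exact h1
            · show (M.op y (M.run y k)).state = _
              rw [op_pop M y h', hst]; rfl
            · show _ = (M.op y (M.run y k)).stack.map some ++ _
              rw [op_pop M y h', hst]; rfl
    | true =>
      obtain ⟨k, h1, h2, h3, h4, h5⟩ := h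
      simp only at h4
      by_cases hD : Dv (prg0 M b N R) (.inl (true, τ, q))
      · have hact : (prg M b N R).act (.inl (true, τ, q)) = .pop fun _ =>
            dvN N R (.inl (true, τ, q)) := tot_dv _ _ hD
        rw [h4, pop1_pop y hact]
        refine Inv_dv M b N R y (k := k) ⟨h1, ?_⟩ h5 _ rfl _
        intro m hm
        rw [h2, h3] at hm
        refine hD [none] (m + 1) (Or.inr ?_)
        rw [fop_push (prg0 M b N R) (prg0_bot M b N R)]
        exact hm
      · have hact : (prg M b N R).act (.inl (true, τ, q)) = .push none (.inl (false, τ, q)) :=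
          tot_act _ _ hD
        rw [h4, pop1_push y hact]
        exact ⟨k, h1, h2, by rw [h3]; rfl, h5⟩
  · have hact : (prg M b N R).act (.inr o) = .pop fun _ => .inr o :=
      tot_act _ _ (not_Dv_inr M b N R o)
    rcases s with _ | ⟨a, s⟩
    · rw [pop1_nil y hact]
      exact h
    · rw [pop1_pop y hact]
      rcases o with _ | _ | q
      · exact h
      · exact h
      · exact h

open Classical in
/-- The end node. -/
noncomputable def nx (w : Nd N Q) : Nd N Q :=
  match (prg M b N R).act w with
  | .pop f => f none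
  | _ => .inr none

/-- The end of a tree. -/
lemma tree_end (t : Cx (Nd N Q)) (h0 : t.holes = []) (hv : Val (prg M b N R) y t)
    (hr : t.root = .inl (true, 0, M.start)) :
    ∃ o, nx M b N R t.last = .inr o ∧ Inv M b N R y (.inr o, []) := by
  have h1 : Inv M b N R y (t.root, [none]) := by
    rw [hr]
    exact ⟨0, rfl, rfl, rfl, rfl, fun σ hσ => absurd hσ (by simp)⟩
  have h2 := tree_inv (prg M b N R) y (Inv M b N R y) (Inv_pop1 M b N R y) t h0 hv [none] h1
  obtain ⟨f, hf⟩ := last_pop (prg M b N R) y t h0 hv
  have h3 := Inv_pop1 M b N R y _ h2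
  rw [pop1_pop y hf] at h3
  have h4 : nx M b N R t.last = f none := by
    unfold nx
    rw [hf]
  rw [h4]
  rcases h5 : f none with ⟨x, τ, q⟩ | o
  · rw [h5] at h3
    cases x with
    | false =>
      obtain ⟨k, _, _, h6, _⟩ := h3
      simp at h6
    | true =>
      obtain ⟨k, _, _, _, h6, _⟩ := h3
      simp at h6
  · rw [h5] at h3
    exact ⟨o, rfl, h3⟩

/-- If the end is not the bad one, the records are the real ones. -/
lemma rc_of_end (o : Option Q) (h : Inv M b N R y (.inr (some o), [])) :
    ∀ τ < N, R τ = rc M b y τ := by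
  intro τ hτ
  cases o with
  | some q =>
    obtain ⟨hl, k, hk, _⟩ := h
    obtain ⟨k', _, hk'⟩ := StepAt_lt M y (k := k) τ (by rw [hk.1]; exact hτ)
    rw [rc_eq M b y hk']
    exact recd_of_ok (fmS M) b R N (qs M y) (ws M y) τ hτ fun σ hσ => hl σ (by omega)
  | none =>
    obtain ⟨k, hk, hj, hl, hn⟩ := h
    rcases Nat.lt_or_ge τ (M.run y k).steps with h1 | h1
    · obtain ⟨k', _, hk'⟩ := StepAt_lt M y (k := k) τ h1
      rw [rc_eq M b y hk']
      exact recd_of_ok (fmS M) b R N (qs M y) (ws M y) τ hτ fun σ hσ => hl σ (by omega)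
    · rw [hn τ h1 hτ, rc_none M b y (not_StepAt M y hj h1)]

/-- With the real records the end says what the machine does. -/
lemma end_iff (hR : ∀ τ < N, R τ = rc M b y τ) (o : Option (Option Q))
    (h : Inv M b N R y (.inr o, [])) : (∃ o', o = some o') ∧ ∀ q, o = some (some q) ↔
      ∃ k, (M.run y k).steps = N ∧ (M.run y k).state = q ∧ M.act N q = Act.step := by
  rcases o with _ | _ | q
  · obtain ⟨τ, h1, h2⟩ := h
    exact absurd (hR τ h1) h2
  · refine ⟨⟨_, rfl⟩, fun q => ⟨fun h => absurd h (by simp), ?_⟩⟩
    rintro ⟨k', h1, h2, h3⟩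
    obtain ⟨k, hk, hj, hl, hn⟩ := h
    exact absurd ⟨k', h1, by rw [h2]; exact h3⟩ (not_StepAt M y hj hk)
  · refine ⟨⟨_, rfl⟩, fun q' => ?_⟩
    obtain ⟨hl, k, hk, hq⟩ := h
    constructor
    · intro h
      simp only [Option.some.injEq] at h
      subst h
      exact ⟨k, hk.1, hq, by rw [← hq]; exact hk.2⟩
    · rintro ⟨k', h1, h2, h3⟩
      have := StepAt_uniq M y hk ⟨h1, by rw [h2]; exact h3⟩
      rw [← hq, ← h2, this]

end Prog

end Pool.Agent.RSA
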