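import Mathlib
import Pool.Agent.RSA.DsProg
import Pool.Agent.ACC.Core

/-!
# A machine with a stack and few accesses is an abstract computation with few transcripts
-/

set_option autoImplicit false
set_option linter.unusedVariables false
set_option linter.unusedSectionVars false

namespace Pool.Agent.RSA

open Finset Equiv Pool.Agent.TR Pool.Agent.HR Pool.Agent.HM
open Pool.Agent.ACC (write memo lastw lastw_lt grph grph_card grph_inj recSpace recSpace_card)
open Pool.Agent.ACS (rdv Ok dec dec_grph)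

section Asm

variable {K U Q A Γ Λ : Type} (M : SDM K U Q A Γ Λ) (b : Bool) (N ℓ r : ℕ)

/-- The records of the run. -/
noncomputable def rs (y : K → Perm U) : Finset (Σ _ : ℕ, Option ℕ × A × Γ) :=
  grph N (rc M b y)

lemma grph_congr {X : Type} {t : ℕ} {f f' : ℕ → Option X} (h : ∀ τ < t, f τ = f' τ) :
    grph t f = grph t f' := by
  ext ⟨τ, x⟩
  simp only [grph, Finset.mem_sigma, Finset.mem_range, Option.mem_toFinset]
  exact and_congr_right fun hτ => by rw [h τ hτ]

lemma exists_T (X : Finset (Σ _ : ℕ, Option ℕ × A × Γ)) (y : K → Perm U) :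
    ∃ t : Cx (Nd N Q), t.holes = [] ∧ Val (prg M b N (dec X)) y t ∧
      t.root = .inl (true, 0, M.start) :=
  exists_tree (prg0 M b N (dec X)) (dvN N (dec X)) (prg0_Tm M b N (dec X)) (dvN_le N (dec X)) y _
    _ rfl

/-- The tree. -/
noncomputable def TT (X : Finset (Σ _ : ℕ, Option ℕ × A × Γ)) (y : K → Perm U) :
    Cx (Nd N Q) := (exists_T M b N X y).choose

lemma TT_spec (X : Finset (Σ _ : ℕ, Option ℕ × A × Γ)) (y : K → Perm U) :
    (TT M b N X y).holes = [] ∧ Val (prg M b N (dec X)) y (TT M b N X y) ∧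
      (TT M b N X y).root = .inl (true, 0, M.start) := (exists_T M b N X y).choose_spec

/-- The pieces. -/
noncomputable def pc (y : K → Perm U) : List (Cx (Nd N Q)) := pcs ℓ (TT M b N (rs M b N y) y)

lemma prg_Tm (X : Finset (Σ _ : ℕ, Option ℕ × A × Γ)) : Tm (prg M b N (dec X)) (tmN N) N :=
  Tm_tot _ _ (prg0_Tm M b N (dec X)) (dvN_le N (dec X))

lemma pc_wsum (y : K → Perm U) : wsum (pc M b N ℓ y) ≤ N := by
  unfold pc
  rw [pcs_wsum]
  obtain ⟨h1, h2, h3⟩ := TT_spec M b N (rs M b N y) y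
  have h4 := Tm_le _ (prg_Tm M b N (rs M b N y)) y _ h1 h2
  have h5 := (prg_Tm M b N (rs M b N y)).le (TT M b N (rs M b N y) y).last
  omega

lemma pc_length (hℓ : 0 < ℓ) (hN : N < ℓ * r) (y : K → Perm U) : (pc M b N ℓ y).length ≤ r := by
  have h1 := pcs_length ℓ hℓ (TT M b N (rs M b N y) y)
  have h2 := pc_wsum M b N ℓ y
  unfold pc at h2 ⊢
  rw [pcs_wsum] at h2
  have h3 : ((pcs ℓ (TT M b N (rs M b N y) y)).length - 1) * ℓ < r * ℓ := by
    rw [mul_comm r ℓ]; omega
  have h4 := lt_of_mul_lt_mul_right h3 (Nat.zero_le _)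
  omega

/-- The coordinates read in a piece. -/
noncomputable def hitc [DecidableEq K] [DecidableEq U]
    (X : Finset (Σ _ : ℕ, Option ℕ × A × Γ)) (y : K → Perm U) (c : Cx (Nd N Q)) :
    Finset (K × U) :=
  (c.stp.filterMap fun u => ((prg M b N (dec X)).ask u).map (qsrc y)).toFinset

/-- The coordinates read in piece number `j`. -/
noncomputable def hitp [DecidableEq K] [DecidableEq U] (y : K → Perm U) (j : ℕ) :
    Finset (K × U) :=
  ((pc M b N ℓ y)[j]?).elim ∅ (hitc M b N (rs M b N y) y)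

variable [DecidableEq K] [DecidableEq U]

lemma mem_hitc {X : Finset (Σ _ : ℕ, Option ℕ × A × Γ)} {y : K → Perm U} {c : Cx (Nd N Q)}
    {i : K × U} : i ∈ hitc M b N X y c ↔ ∃ u ∈ c.stp, ∃ p, (prg M b N (dec X)).ask u = some p ∧
      qsrc y p = i := by
  unfold hitc
  rw [List.mem_toFinset, List.mem_filterMap]
  simp only [Option.map_eq_some_iff]

lemma hitc_card (X : Finset (Σ _ : ℕ, Option ℕ × A × Γ)) (y : K → Perm U) (c : Cx (Nd N Q)) :
    (hitc M b N X y c).card ≤ c.stp.length :=
  (List.toFinset_card_le _).trans (List.length_filterMap_le _ _)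

lemma hitp_card (hℓ : 0 < ℓ) (y : K → Perm U) (j : ℕ) :
    (hitp M b N ℓ y j).card ≤ 2 * ℓ + 1 := by
  unfold hitp
  rcases h : (pc M b N ℓ y)[j]? with _ | c
  · simp
  · have h1 := pcs_Gd ℓ (TT M b N (rs M b N y) y) j c h
    refine (hitc_card M b N _ y c).trans ?_
    split_ifs at h1
    · have := Opn_lt ℓ hℓ c h1
      omega
    · have := (Cld_le ℓ hℓ c h1).2
      omega

lemma sum_get {α : Type} (g : α → ℕ) : ∀ (l : List α) (n : ℕ),
    ∑ j ∈ Finset.range n, (l[j]?).elim 0 g ≤ (l.map g).sum := by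
  intro l
  induction l with
  | nil => intro n; simp
  | cons x l ih =>
    intro n
    cases n with
    | zero => simp
    | succ n =>
      rw [Finset.sum_range_succ']
      simp only [List.getElem?_cons_succ, List.getElem?_cons_zero, Option.elim_some,
        List.map_cons, List.sum_cons]
      have := ih n
      omega

lemma hitp_sum (y : K → Perm U) : ∑ j : Fin r, (hitp M b N ℓ y j).card ≤ N := by
  have h1 : ∀ j : ℕ, (hitp M b N ℓ y j).card ≤
      ((pc M b N ℓ y)[j]?).elim 0 (fun c => c.stp.length) := by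
    intro j
    unfold hitp
    rcases h : (pc M b N ℓ y)[j]? with _ | c
    · simp
    · exact hitc_card M b N _ y c
  calc ∑ j : Fin r, (hitp M b N ℓ y j).card
      ≤ ∑ j : Fin r, ((pc M b N ℓ y)[(j : ℕ)]?).elim 0 (fun c => c.stp.length) :=
        Finset.sum_le_sum fun j _ => h1 j
    _ = ∑ j ∈ Finset.range r, ((pc M b N ℓ y)[j]?).elim 0 (fun c => c.stp.length) :=
        Fin.sum_univ_eq_sum_range (fun j => ((pc M b N ℓ y)[j]?).elim 0
          (fun c => c.stp.length)) r
    _ ≤ wsum (pc M b N ℓ y) := sum_get _ _ _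
    _ ≤ N := pc_wsum M b N ℓ y

/-- The run on a mixed input. -/
lemma mix_key (hℓ : 0 < ℓ) (hN : N < ℓ * r) (sd : K → Bool) (z z' : K → Perm U)
    (F : Finset (K × U)) (hoff : ∀ i, i ∉ F → TR.val z i = TR.val z' i)
    (hX : rs M b N z = rs M b N z')
    (hsk : (pc M b N ℓ z).map sk = (pc M b N ℓ z').map sk) (χ : ℕ → Bool)
    (h1 : ∀ j < r, χ j = true → ∀ i ∈ hitp M b N ℓ z j, sd i.1 = false → i ∉ F)
    (h2 : ∀ j < r, χ j = false → ∀ i ∈ hitp M b N ℓ z' j, sd i.1 = true → i ∉ F) :
    rs M b N (mix sd z z') = rs M b N z ∧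
      pc M b N ℓ (mix sd z z') = mixl χ 0 (pc M b N ℓ z) (pc M b N ℓ z') := by
  obtain ⟨a1, a2, a3⟩ := TT_spec M b N (rs M b N z) z
  obtain ⟨b1, b2, b3⟩ := TT_spec M b N (rs M b N z') z'
  have hlen : (pc M b N ℓ z).length = (pc M b N ℓ z').length := by
    have := congrArg List.length hsk
    simpa using this
  have hget := fun i => mixl_get χ (pc M b N ℓ z) (pc M b N ℓ z') 0 i hlen
  simp only [zero_add] at hget
  set L := mixl χ 0 (pc M b N ℓ z) (pc M b N ℓ z') with hL
  have hlr := pc_length M b N ℓ r hℓ hN z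
  have hlt : ∀ (i : ℕ) (x : Cx (Nd N Q)) (l : List (Cx (Nd N Q))), l.length ≤ r →
      l[i]? = some x → i < r := by
    intro i x l hl hi
    obtain ⟨h3, _⟩ := List.getElem?_eq_some_iff.1 hi
    omega
  have hGd : Gd ℓ L := by
    intro i x hx
    rw [hget] at hx
    split_ifs at hx with hc
    · exact pcs_Gd ℓ _ i x hx
    · exact pcs_Gd ℓ _ i x hx
  have hVal : ∀ c ∈ L, Val (prg M b N (dec (rs M b N z))) (mix sd z z') c := by
    intro x hx
    obtain ⟨i, hi⟩ := List.getElem?_of_mem hx
    rw [hget] at hi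
    split_ifs at hi with hc
    · have hv := pcs_Val ℓ _ z _ a2 x (List.mem_of_getElem? hi)
      refine Val_congr _ z (mix sd z z') x hv fun u hu => ?_
      rcases hp : (prg M b N (dec (rs M b N z))).ask u with _ | p
      · rfl
      · simp only [Option.map_some]
        congr 1
        refine (q_congr z (mix sd z z') p ?_).1
        cases hs : sd (qsrc z p).1 with
        | true => exact val_mix_true hs
        | false =>
          rw [val_mix_false hs]
          refine (hoff _ (h1 i (hlt i x _ hlr hi) hc _ ?_ hs)).symm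
          unfold hitp
          rw [hi]
          exact (mem_hitc M b N).2 ⟨u, hu, p, hp, rfl⟩
    · have hc' : χ i = false := by simpa using hc
      have hv := pcs_Val ℓ _ z' _ b2 x (List.mem_of_getElem? hi)
      rw [← hX] at hv
      refine Val_congr _ z' (mix sd z z') x hv fun u hu => ?_
      rcases hp : (prg M b N (dec (rs M b N z))).ask u with _ | p
      · rfl
      · simp only [Option.map_some]
        congr 1
        refine (q_congr z' (mix sd z z') p ?_).1
        cases hs : sd (qsrc z' p).1 with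
        | false => exact val_mix_false hs
        | true =>
          rw [val_mix_true hs]
          refine hoff _ (h2 i (hlt i x _ (hlen ▸ hlr) hi) hc' _ ?_ hs)
          unfold hitp
          rw [hi]
          rw [hX] at hp
          exact (mem_hitc M b N).2 ⟨u, hu, p, hp, rfl⟩
  have hPS : PS [((TT M b N (rs M b N z) z).root, (TT M b N (rs M b N z) z).last)]
      (L.map sk) := by
    rw [hL, mixl_map sk χ _ _ 0 hsk]
    exact pcs_PS ℓ _ a1
  obtain ⟨t, e1, e2, e3, e4, e5⟩ := pcs_rebuild ℓ (prg M b N (dec (rs M b N z)))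
    (mix sd z z') L _ _ hGd hVal hPS
  rw [a3] at e4
  obtain ⟨o, o1, o2⟩ := tree_end M b N (dec (rs M b N z)) (mix sd z z') t e2 e3 e4
  obtain ⟨o', o1', o2'⟩ := tree_end M b N (dec (rs M b N z)) z _ a1 a2 a3
  have hoo : o = o' := by
    rw [e5] at o1
    have := o1.symm.trans o1'
    exact Sum.inr.inj this
  have hRz : ∀ τ < N, dec (rs M b N z) τ = rc M b z τ := fun τ hτ => dec_grph N _ τ hτ
  obtain ⟨⟨o'', ho''⟩, _⟩ := end_iff M b N (dec (rs M b N z)) z hRz o' o2'
  rw [hoo, ho''] at o2
  have hRm := rc_of_end M b N (dec (rs M b N z)) (mix sd z z') o'' o2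
  have hrs : rs M b N (mix sd z z') = rs M b N z := by
    unfold rs
    refine grph_congr fun τ hτ => ?_
    rw [← hRm τ hτ, hRz τ hτ]
  refine ⟨hrs, ?_⟩
  unfold pc
  rw [hrs]
  obtain ⟨m1, m2, m3⟩ := TT_spec M b N (rs M b N z) (mix sd z z')
  rw [Val_uniq _ _ _ t m1 e2 m2 e3 (m3.trans e4.symm)]
  exact e1

/-- The pieces of the mixed run. -/
lemma mix_hitp (hℓ : 0 < ℓ) (hN : N < ℓ * r) (sd : K → Bool) (z z' : K → Perm U)
    (F : Finset (K × U)) (hoff : ∀ i, i ∉ F → TR.val z i = TR.val z' i)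
    (hX : rs M b N z = rs M b N z')
    (hsk : (pc M b N ℓ z).map sk = (pc M b N ℓ z').map sk) (χ : ℕ → Bool)
    (h1 : ∀ j < r, χ j = true → ∀ i ∈ hitp M b N ℓ z j, sd i.1 = false → i ∉ F)
    (h2 : ∀ j < r, χ j = false → ∀ i ∈ hitp M b N ℓ z' j, sd i.1 = true → i ∉ F)
    (j : ℕ) (hj : j < r) : hitp M b N ℓ (mix sd z z') j =
      if χ j = true then hitp M b N ℓ z j else hitp M b N ℓ z' j := by
  obtain ⟨hrs, hpc⟩ := mix_key M b N ℓ r hℓ hN sd z z' F hoff hX hsk χ h1 h2
  have hlen : (pc M b N ℓ z).length = (pc M b N ℓ z').length := by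
    have := congrArg List.length hsk
    simpa using this
  have hget := mixl_get χ (pc M b N ℓ z) (pc M b N ℓ z') 0 j hlen
  rw [zero_add] at hget
  by_cases hc : χ j = true
  · rw [if_pos hc] at hget ⊢
    unfold hitp
    rw [hpc, hget, hrs]
    rcases hx : (pc M b N ℓ z)[j]? with _ | x
    · rfl
    · simp only [Option.elim_some]
      ext i
      rw [mem_hitc, mem_hitc]
      refine exists_congr fun u => and_congr_right fun hu => exists_congr fun p =>
        and_congr_right fun hp => ?_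
      rw [(q_congr z (mix sd z z') p ?_).2]
      cases hs : sd (qsrc z p).1 with
      | true => exact val_mix_true hs
      | false =>
        rw [val_mix_false hs]
        refine (hoff _ (h1 j hj hc _ ?_ hs)).symm
        unfold hitp
        rw [hx]
        exact (mem_hitc M b N).2 ⟨u, hu, p, hp, rfl⟩
  · have hc' : χ j = false := by simpa using hc
    rw [if_neg hc] at hget ⊢
    unfold hitp
    rw [hpc, hget, hrs, hX]
    rcases hx : (pc M b N ℓ z')[j]? with _ | x
    · rfl
    · simp only [Option.elim_some]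
      ext i
      rw [mem_hitc, mem_hitc]
      refine exists_congr fun u => and_congr_right fun hu => exists_congr fun p =>
        and_congr_right fun hp => ?_
      rw [(q_congr z' (mix sd z z') p ?_).2]
      cases hs : sd (qsrc z' p).1 with
      | false => exact val_mix_false hs
      | true =>
        rw [val_mix_true hs]
        refine hoff _ (h2 j hj hc' _ ?_ hs)
        unfold hitp
        rw [hx]
        exact (mem_hitc M b N).2 ⟨u, hu, p, hp, rfl⟩

end Asm

section Count

variable {K U Q A Γ Λ : Type} (M : SDM K U Q A Γ Λ) (b : Bool) (N F : ℕ)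

lemma rs_sub [Fintype A] [Fintype Γ] (y : K → Perm U) : rs M b N y ⊆ recSpace A Γ N := by
  rintro ⟨τ, o, a, v⟩ h
  simp only [rs, grph, Finset.mem_sigma, Finset.mem_range, Option.mem_toFinset,
    Option.mem_def] at h
  obtain ⟨h1, h2⟩ := h
  simp only [recSpace, Finset.mem_sigma, Finset.mem_range, Finset.mem_product, Finset.mem_univ,
    and_true]
  refine ⟨h1, ?_⟩
  unfold rc at h2
  split_ifs at h2
  rcases o with _ | σ
  · exact Finset.none_mem_insertNone
  · rw [Finset.some_mem_insertNone, Finset.mem_range]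
    cases b with
    | true => simp [ACS.FM.recd] at h2
    | false =>
      simp only [ACS.FM.recd, Bool.false_eq_true, if_false, Option.map_eq_some_iff,
        Prod.mk.injEq] at h2
      obtain ⟨a', _, h3, _⟩ := h2
      have := lastw_lt (ws M y) a' τ σ h3
      omega

lemma rs_card (y : K → Perm U) (hF : ∀ k, M.cnt (fun _ => False) b y k ≤ F) :
    (rs M b N y).card ≤ F := by
  classical
  unfold rs
  rw [grph_card]
  set S := (Finset.range N).filter fun i => rc M b y i ≠ none with hS
  have hmade : ∀ τ ∈ S, ∃ k, StepAt M y τ k := by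
    intro τ hτ
    rw [hS, Finset.mem_filter] at hτ
    by_contra hcon
    exact hτ.2 (rc_none M b y hcon)
  obtain ⟨B, hB⟩ : ∃ B, ∀ τ ∈ S, kk M y τ < B :=
    ⟨S.sup (kk M y) + 1, fun τ hτ => Nat.lt_succ_of_le (Finset.le_sup hτ)⟩
  refine le_trans ?_ (hF B)
  unfold SDM.cnt
  refine Finset.card_le_card_of_injOn (kk M y) ?_ ?_
  · intro τ hτ
    have hτ' : τ ∈ S := hτ
    obtain ⟨k, hk⟩ := hmade τ hτ'
    rw [Finset.coe_filter, Set.mem_ofPred_eq, Finset.mem_range]
    refine ⟨hB τ hτ', ?_⟩
    rw [kk_eq M y hk]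
    have h1 : rc M b y τ ≠ none := by
      rw [hS, Finset.mem_filter] at hτ'
      exact hτ'.2
    rw [rc_eq M b y hk] at h1
    have h2 : M.act (M.run y k).steps (M.run y k).state = .step := by rw [hk.1]; exact hk.2
    unfold SDM.acs
    rw [h2]
    cases b with
    | true =>
      simp only [ACS.FM.recd, if_true] at h1 ⊢
      rw [ws_eq M y hk] at h1
      rcases h3 : (M.mv y (M.run y k)).2 with _ | ⟨a, v⟩
      · rw [h3] at h1; exact absurd rfl h1
      · exact ⟨a, rfl, fun h => h⟩
    | false =>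
      simp only [ACS.FM.recd, Bool.false_eq_true, if_false] at h1 ⊢
      rw [qs_eq M y hk] at h1
      rw [hk.1]
      rcases h3 : M.rd τ (M.run y k).state with _ | a
      · have h4 : (fmS M).rd τ (M.run y k).state = none := h3
        rw [h4] at h1; exact absurd rfl h1
      · exact ⟨a, rfl, fun h => h⟩
  · intro τ hτ τ' hτ' h
    obtain ⟨k, hk⟩ := hmade τ hτ
    obtain ⟨k', hk'⟩ := hmade τ' hτ'
    rw [kk_eq M y hk, kk_eq M y hk'] at h
    subst h
    exact hk.1.symm.trans hk'.1

end Count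

/-- The state of an end node. -/
def finQ {N : ℕ} {Q : Type} : Nd N Q → Option Q
  | .inr (some (some q)) => some q
  | _ => none

lemma finQ_inr {N : ℕ} {Q : Type} (o : Option (Option Q)) (q : Q) :
    finQ (.inr o : Nd N Q) = some q ↔ o = some (some q) := by
  rcases o with _ | _ | q'
  · simp [finQ]
  · simp [finQ]
  · simp [finQ]

/-- Module DS. -/
theorem t_DS : S_DS := by
  classical
  intro K U Q A Γ Λ _ _ _ _ _ _ _ M b ℓ r N F hℓ hN hF
  have hr : 0 < r := by
    rcases Nat.eq_zero_or_pos r with rfl | h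
    · simp at hN
    · exact h
  refine ⟨Finset (Σ _ : ℕ, Option ℕ × A × Γ) × ((Fin r → Option (Nd N Q × Nd N Q)) ×
      (Fin (2 * r) → Option Bool)),
    { hit := fun z j => hitp M b N ℓ z j
      tr := fun z => (rs M b N z, enc r ((pc M b N ℓ z).map sk))
      tg := smallSets (recSpace A Γ N) F ×ˢ Finset.univ
      mem_tg := ?_
      cl := ?_ }, fun x => (x.2.1 ⟨0, hr⟩).bind fun p => finQ (nx M b N (dec x.1) p.2),
      ?_, ?_, ?_, ?_⟩
  · intro z
    rw [Finset.mem_product, mem_smallSets]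
    exact ⟨⟨rs_sub M b N z, rs_card M b N F z (hF z)⟩, Finset.mem_univ _⟩
  · intro sd z z' F0 hoff htr c h1 h2
    simp only [Prod.mk.injEq] at htr
    obtain ⟨hX, henc⟩ := htr
    have hPS := pcs_PS ℓ _ (TT_spec M b N (rs M b N z) z).1
    have hPS' := pcs_PS ℓ _ (TT_spec M b N (rs M b N z') z').1
    have hsk : (pc M b N ℓ z).map sk = (pc M b N ℓ z').map sk :=
      enc_inj r _ _ _ _ hPS hPS' (by simpa using pc_length M b N ℓ r hℓ hN z)
        (by simpa using pc_length M b N ℓ r hℓ hN z') henc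
    set χ : ℕ → Bool := fun j => if h : j < r then c ⟨j, h⟩ else true with hχ
    have hχc : ∀ j : Fin r, χ j = c j := by
      intro j
      simp [hχ]
    have h1' : ∀ j < r, χ j = true → ∀ i ∈ hitp M b N ℓ z j, sd i.1 = false → i ∉ F0 :=
      fun j hj hc => h1 ⟨j, hj⟩ (by rw [← hχc]; exact hc)
    have h2' : ∀ j < r, χ j = false → ∀ i ∈ hitp M b N ℓ z' j, sd i.1 = true → i ∉ F0 :=
      fun j hj hc => h2 ⟨j, hj⟩ (by rw [← hχc]; exact hc)
    obtain ⟨hrs, hpc⟩ := mix_key M b N ℓ r hℓ hN sd z z' F0 hoff hX hsk χ h1' h2'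
    refine ⟨?_, ?_⟩
    · simp only [Prod.mk.injEq]
      refine ⟨hrs, ?_⟩
      rw [hpc, mixl_map sk χ _ _ 0 hsk]
    · intro j
      have := mix_hitp M b N ℓ r hℓ hN sd z z' F0 hoff hX hsk χ h1' h2' j j.2
      rw [hχc] at this
      exact this
  · intro z q
    obtain ⟨a1, a2, a3⟩ := TT_spec M b N (rs M b N z) z
    obtain ⟨o, o1, o2⟩ := tree_end M b N (dec (rs M b N z)) z _ a1 a2 a3
    have hRz : ∀ τ < N, dec (rs M b N z) τ = rc M b z τ := fun τ hτ => dec_grph N _ τ hτ
    obtain ⟨_, h1⟩ := end_iff M b N (dec (rs M b N z)) z hRz o o2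
    rw [← h1 q, ← finQ_inr (N := N) o q, ← o1]
    have h2 : (enc r ((pc M b N ℓ z).map sk)).1 ⟨0, hr⟩ =
        some ((TT M b N (rs M b N z) z).root, (TT M b N (rs M b N z) z).last) := by
      simp only [enc, pc, pcs, List.map_cons, List.getElem?_cons_zero, sk, cut_root, cut_last]
    simp only [h2, Option.bind_some]
  · intro z j
    exact hitp_card M b N ℓ hℓ z j
  · intro z
    exact hitp_sum M b N ℓ r z
  · have h := smallSets_card (recSpace A Γ N) F
    rw [recSpace_card] at h
    show (smallSets (recSpace A Γ N) F ×ˢ (Finset.univ : Finset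
      ((Fin r → Option (Nd N Q × Nd N Q)) × (Fin (2 * r) → Option Bool)))).card ≤ _
    rw [Finset.card_product, mul_comm]
    refine Nat.mul_le_mul ?_ h
    rw [Finset.card_univ, Fintype.card_prod, Fintype.card_fun, Fintype.card_fun,
      Fintype.card_fin, Fintype.card_fin, Fintype.card_option, Fintype.card_option,
      Fintype.card_prod, Fintype.card_bool, pow_mul, ← mul_pow]
    have h1 : Fintype.card (Nd N Q) ≤ 3 * ((N + 1) * (Fintype.card Q + 1)) := by
      rw [Fintype.card_sum, Fintype.card_prod, Fintype.card_prod, Fintype.card_option,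
        Fintype.card_option, Fintype.card_bool, Fintype.card_fin]
      nlinarith [Nat.zero_le N, Nat.zero_le (Fintype.card Q), Nat.zero_le (N * Fintype.card Q)]
    set V := Fintype.card (Nd N Q) with hV
    set x := (N + 1) * (Fintype.card Q + 1) with hx
    have hx1 : 1 ≤ x := Nat.mul_pos (Nat.succ_pos _) (Nat.succ_pos _)
    have h2 : (V * V + 1) * (2 + 1) ^ 2 ≤ 100 * (N + 1) ^ 2 * (Fintype.card Q + 1) ^ 2 := by
      have h3 : V * V ≤ 3 * x * (3 * x) := Nat.mul_le_mul h1 h1
      have h4 : 100 * (N + 1) ^ 2 * (Fintype.card Q + 1) ^ 2 = 100 * (x * x) := by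
        rw [hx]; ring
      rw [h4]
      nlinarith
    have h5 : 1 ≤ 100 * (N + 1) ^ 2 * (Fintype.card Q + 1) ^ 2 := by
      have : 0 < 100 * (N + 1) ^ 2 * (Fintype.card Q + 1) ^ 2 := by positivity
      omega
    calc _ ≤ (100 * (N + 1) ^ 2 * (Fintype.card Q + 1) ^ 2) ^ r := Nat.pow_le_pow_left h2 r
      _ ≤ _ := Nat.pow_le_pow_right h5 (by omega)

end Pool.Agent.RSA
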