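import Mathlib
import Pool.Agent.RSA.Stmts

/-!
# Module ENC: the runs of the deterministic machine and of the machine on graphs agree
-/

set_option autoImplicit false
set_option linter.unusedSectionVars false

namespace Pool.Agent.RSA

open Finset Equiv Pool.Agent.TS Pool.Agent.TR Pool.Agent.HR Pool.Agent.HM
open Pool.Agent.ACC (write)

section Enc

variable {J B U : Type} {t d w pad : ℕ} (eJ : J ≃ Fin t) (eB : B ≃ Fin d) (eU : U ≃ Fin w)
  {Q A Γ Λ Ω : Type}

/-- The content read is the same if the machine has not answered. -/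
private lemma enc_val (E : B × U → B × U → Prop)
    (M : RMachine (t * w + (d * w + (d * w + pad))) Q A Γ Λ Ω) (ω : Ω) (x : Conf Q A Γ Λ)
    (h : ¬ (M.output x.state).isSome) :
    (dfm eJ eB eU E M ω).val x = (M.rd ω x.steps x.state).map x.reg := by
  unfold SDM.val
  simp only [dfm]
  rw [if_neg h]

/-- A machine that has answered does nothing. -/
private lemma enc_op_some (E : B × U → B × U → Prop)
    (M : RMachine (t * w + (d * w + (d * w + pad))) Q A Γ Λ Ω) (ω : Ω)
    (z : Bool × (J × B) → Perm U) (x : Conf Q A Γ Λ)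
    (h : (M.output x.state).isSome) :
    (dfm eJ eB eU E M ω).op z x = ⟨x.steps + 1, x.state, x.reg, x.stack⟩ := by
  have hs : ∀ γ a, (dfm eJ eB eU E M ω).step x.steps x.state γ a = (x.state, none) := by
    intro γ a
    simp only [dfm]
    rw [if_pos h]
  have ha : (dfm eJ eB eU E M ω).act x.steps x.state = Act.step := by
    simp only [dfm]
    rw [if_pos h]
  have hm : (dfm eJ eB eU E M ω).mv z x = (x.state, none) := by
    unfold SDM.mv
    rw [hs]
  unfold SDM.op
  rw [ha]
  simp only [hm]
  rfl

/-- A machine that has answered reads and writes nothing. -/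
private lemma enc_acs_some (E : B × U → B × U → Prop)
    (M : RMachine (t * w + (d * w + (d * w + pad))) Q A Γ Λ Ω) (ω : Ω) (b : Bool)
    (z : Bool × (J × B) → Perm U) (x : Conf Q A Γ Λ)
    (h : (M.output x.state).isSome) :
    (dfm eJ eB eU E M ω).acs b z x = none := by
  have hs : ∀ γ a, (dfm eJ eB eU E M ω).step x.steps x.state γ a = (x.state, none) := by
    intro γ a
    simp only [dfm]
    rw [if_pos h]
  have ha : (dfm eJ eB eU E M ω).act x.steps x.state = Act.step := by
    simp only [dfm]
    rw [if_pos h]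
  have hm : (dfm eJ eB eU E M ω).mv z x = (x.state, none) := by
    unfold SDM.mv
    rw [hs]
  have hr : (dfm eJ eB eU E M ω).rd x.steps x.state = none := by
    simp only [dfm]
    rw [if_pos h]
  unfold SDM.acs
  rw [ha]
  simp only [hm, hr]
  cases b <;> rfl

/-- The moves agree if the machine has not answered. -/
private lemma enc_mv (E : B × U → B × U → Prop)
    (M : RMachine (t * w + (d * w + (d * w + pad))) Q A Γ Λ Ω) (ω : Ω)
    (z : Bool × (J × B) → Perm U) (x : Conf Q A Γ Λ)
    (h : ¬ (M.output x.state).isSome) :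
    (dfm eJ eB eU E M ω).mv z x = M.move ω (theGraph eJ eB eU pad E (toInp z)) x := by
  unfold SDM.mv SDM.qu
  rw [enc_val eJ eB eU E M ω x h]
  unfold RMachine.move
  simp only [dfm]
  rw [if_neg h]
  split_ifs with h2
  · congr 1
    apply answer_eq
    exact (map_conv h2.choose _).symm.trans (h2.choose_spec.trans (map_conv z _))
  · exact absurd ⟨z, rfl⟩ h2

private lemma enc_act (E : B × U → B × U → Prop)
    (M : RMachine (t * w + (d * w + (d * w + pad))) Q A Γ Λ Ω) (ω : Ω) (x : Conf Q A Γ Λ)
    (h : ¬ (M.output x.state).isSome) :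
    (dfm eJ eB eU E M ω).act x.steps x.state = M.act ω x.steps x.state := by
  simp only [dfm]
  rw [if_neg h]

private lemma enc_op (E : B × U → B × U → Prop)
    (M : RMachine (t * w + (d * w + (d * w + pad))) Q A Γ Λ Ω) (ω : Ω)
    (z : Bool × (J × B) → Perm U) (x : Conf Q A Γ Λ)
    (h : ¬ (M.output x.state).isSome) :
    (dfm eJ eB eU E M ω).op z x = M.op ω (theGraph eJ eB eU pad E (toInp z)) x := by
  unfold SDM.op RMachine.op
  rw [enc_act eJ eB eU E M ω x h, enc_mv eJ eB eU E M ω z x h]
  cases M.act ω x.steps x.state <;> rfl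

private lemma enc_acs (E : B × U → B × U → Prop)
    (M : RMachine (t * w + (d * w + (d * w + pad))) Q A Γ Λ Ω) (ω : Ω) (b : Bool)
    (z : Bool × (J × B) → Perm U) (x : Conf Q A Γ Λ)
    (h : ¬ (M.output x.state).isSome) :
    (dfm eJ eB eU E M ω).acs b z x =
      match M.act ω x.steps x.state with
      | .step => if b then (M.move ω (theGraph eJ eB eU pad E (toInp z)) x).2.map Prod.fst
          else M.rd ω x.steps x.state
      | _ => none := by
  have hr : (dfm eJ eB eU E M ω).rd x.steps x.state = M.rd ω x.steps x.state := by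
    simp only [dfm]
    rw [if_neg h]
  unfold SDM.acs
  rw [enc_act eJ eB eU E M ω x h, enc_mv eJ eB eU E M ω z x h, hr]
  cases M.act ω x.steps x.state <;> rfl

/-- The machine on graphs does not change after its answer. -/
private lemma enc_const {n : ℕ} (M : RMachine n Q A Γ Λ Ω) (ω : Ω) (G : SimpleGraph (Fin n))
    (k i : ℕ) (h : (M.output (M.run ω G k).state).isSome) : M.run ω G (k + i) = M.run ω G k := by
  induction i with
  | zero => rfl
  | succ i ih =>
    show (if (M.output (M.run ω G (k + i)).state).isSome then M.run ω G (k + i) else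
      M.op ω G (M.run ω G (k + i))) = _
    rw [ih, if_pos h]

/-- Before the first answer the two runs are equal. -/
private lemma enc_eq (E : B × U → B × U → Prop)
    (M : RMachine (t * w + (d * w + (d * w + pad))) Q A Γ Λ Ω) (ω : Ω)
    (z : Bool × (J × B) → Perm U) (k : ℕ)
    (h : ∀ j < k, ¬ (M.output (M.run ω (theGraph eJ eB eU pad E (toInp z)) j).state).isSome) :
    (dfm eJ eB eU E M ω).run z k = M.run ω (theGraph eJ eB eU pad E (toInp z)) k := by
  induction k with
  | zero => rfl
  | succ k ih =>
    have ih' := ih fun j hj => h j (Nat.lt_succ_of_lt hj)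
    show (dfm eJ eB eU E M ω).op z ((dfm eJ eB eU E M ω).run z k) =
      if (M.output (M.run ω (theGraph eJ eB eU pad E (toInp z)) k).state).isSome then
        M.run ω (theGraph eJ eB eU pad E (toInp z)) k
      else M.op ω (theGraph eJ eB eU pad E (toInp z)) (M.run ω (theGraph eJ eB eU pad E (toInp z)) k)
    rw [ih', if_neg (h k (Nat.lt_succ_self k)), enc_op eJ eB eU E M ω z _ (h k (Nat.lt_succ_self k))]

/-- After the answer the deterministic machine only counts the steps. -/
private lemma enc_idle (E : B × U → B × U → Prop)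
    (M : RMachine (t * w + (d * w + (d * w + pad))) Q A Γ Λ Ω) (ω : Ω)
    (z : Bool × (J × B) → Perm U) (k i : ℕ)
    (h : (M.output ((dfm eJ eB eU E M ω).run z k).state).isSome) :
    (dfm eJ eB eU E M ω).run z (k + i) =
      ⟨((dfm eJ eB eU E M ω).run z k).steps + i, ((dfm eJ eB eU E M ω).run z k).state,
        ((dfm eJ eB eU E M ω).run z k).reg, ((dfm eJ eB eU E M ω).run z k).stack⟩ := by
  induction i with
  | zero => rfl
  | succ i ih =>
    show (dfm eJ eB eU E M ω).op z ((dfm eJ eB eU E M ω).run z (k + i)) = _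
    rw [ih]
    exact enc_op_some eJ eB eU E M ω z ⟨((dfm eJ eB eU E M ω).run z k).steps + i,
      ((dfm eJ eB eU E M ω).run z k).state, ((dfm eJ eB eU E M ω).run z k).reg,
      ((dfm eJ eB eU E M ω).run z k).stack⟩ h

/-- The first answer. -/
private lemma enc_first {n : ℕ} (M : RMachine n Q A Γ Λ Ω) (ω : Ω) (G : SimpleGraph (Fin n))
    (k : ℕ) : (∀ j < k, ¬ (M.output (M.run ω G j).state).isSome) ∨
      ∃ k₀ i, k = k₀ + i ∧ (M.output (M.run ω G k₀).state).isSome ∧
        ∀ j < k₀, ¬ (M.output (M.run ω G j).state).isSome := by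
  classical
  by_cases h : ∃ j, j < k ∧ (M.output (M.run ω G j).state).isSome
  · right
    refine ⟨Nat.find h, k - Nat.find h, ?_, (Nat.find_spec h).2, ?_⟩
    · have := (Nat.find_spec h).1
      omega
    · intro j hj hs
      exact Nat.find_min h hj ⟨hj.trans (Nat.find_spec h).1, hs⟩
  · left
    intro j hj hs
    exact h ⟨j, hj, hs⟩

/-- The states are equal at all times. -/
private lemma enc_state (E : B × U → B × U → Prop)
    (M : RMachine (t * w + (d * w + (d * w + pad))) Q A Γ Λ Ω) (ω : Ω)
    (z : Bool × (J × B) → Perm U) (k : ℕ) :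
    ((dfm eJ eB eU E M ω).run z k).state =
      (M.run ω (theGraph eJ eB eU pad E (toInp z)) k).state ∧
    (M.run ω (theGraph eJ eB eU pad E (toInp z)) k).steps ≤
      ((dfm eJ eB eU E M ω).run z k).steps := by
  rcases enc_first M ω (theGraph eJ eB eU pad E (toInp z)) k with h | ⟨k₀, i, hk, h1, h2⟩
  · rw [enc_eq eJ eB eU E M ω z k h]
    exact ⟨rfl, le_rfl⟩
  · have he := enc_eq eJ eB eU E M ω z k₀ h2
    have h3 : (M.output ((dfm eJ eB eU E M ω).run z k₀).state).isSome := by
      rw [he]
      exact h1
    rw [hk, enc_idle eJ eB eU E M ω z k₀ i h3, enc_const M ω _ k₀ i h1, he]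
    exact ⟨rfl, Nat.le_add_right _ _⟩

/-- The accesses are equal at all times. -/
private lemma enc_access (E : B × U → B × U → Prop)
    (M : RMachine (t * w + (d * w + (d * w + pad))) Q A Γ Λ Ω) (ω : Ω) (b : Bool)
    (z : Bool × (J × B) → Perm U) (k : ℕ) :
    (dfm eJ eB eU E M ω).acs b z ((dfm eJ eB eU E M ω).run z k) =
      M.access b ω (theGraph eJ eB eU pad E (toInp z)) k := by
  have hst := (enc_state eJ eB eU E M ω z k).1
  by_cases h1 : (M.output (M.run ω (theGraph eJ eB eU pad E (toInp z)) k).state).isSome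
  · have h2 : (M.output ((dfm eJ eB eU E M ω).run z k).state).isSome := by
      rw [hst]
      exact h1
    rw [enc_acs_some eJ eB eU E M ω b z _ h2]
    unfold RMachine.access RMachine.out
    rw [if_pos h1]
  · have h3 : ∀ j < k, ¬ (M.output (M.run ω (theGraph eJ eB eU pad E (toInp z)) j).state).isSome := by
      intro j hj hs
      have := enc_const M ω (theGraph eJ eB eU pad E (toInp z)) j (k - j) hs
      rw [Nat.add_sub_cancel' hj.le] at this
      rw [this] at h1
      exact h1 hs
    rw [enc_eq eJ eB eU E M ω z k h3, enc_acs eJ eB eU E M ω b z _ h1]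
    unfold RMachine.access RMachine.out
    rw [if_neg h1]
    cases M.act ω (M.run ω (theGraph eJ eB eU pad E (toInp z)) k).steps
      (M.run ω (theGraph eJ eB eU pad E (toInp z)) k).state <;> rfl

private lemma enc_cnt (E : B × U → B × U → Prop)
    (M : RMachine (t * w + (d * w + (d * w + pad))) Q A Γ Λ Ω) (ω : Ω) (P : A → Prop) (b : Bool)
    (z : Bool × (J × B) → Perm U) (k : ℕ) :
    (dfm eJ eB eU E M ω).cnt P b z k =
      fcnt M P b ω (theGraph eJ eB eU pad E (toInp z)) k := by
  classical
  unfold SDM.cnt fcnt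
  congr 1
  ext j
  rw [mem_filter, mem_filter, enc_access eJ eB eU E M ω b z j]

end Enc

theorem t_ENC : S_ENC := by
  intro J B U t d w pad eJ eB eU Q A Γ Λ Ω E M ω P b z N F
  constructor
  · rintro ⟨k, h1, h2, h3⟩
    refine ⟨k, ?_, ?_, ?_⟩
    · unfold RMachine.out
      rw [← (enc_state eJ eB eU E M ω z k).1]
      exact h2
    · rw [← h1]
      exact (enc_state eJ eB eU E M ω z k).2
    · rw [← enc_cnt eJ eB eU E M ω P b z k]
      exact h3
  · rintro ⟨k, h1, h2, h3⟩
    unfold RMachine.out at h1
    -- the first time with an answer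
    obtain ⟨k₀, i, hk, h4, h5⟩ : ∃ k₀ i, k = k₀ + i ∧
        (M.output (M.run ω (theGraph eJ eB eU pad E (toInp z)) k₀).state).isSome ∧
        ∀ j < k₀, ¬ (M.output (M.run ω (theGraph eJ eB eU pad E (toInp z)) j).state).isSome := by
      rcases enc_first M ω (theGraph eJ eB eU pad E (toInp z)) k with h | h
      · exact ⟨k, 0, rfl, by rw [h1]; rfl, h⟩
      · exact h
    have hc := enc_const M ω (theGraph eJ eB eU pad E (toInp z)) k₀ i h4
    rw [← hk] at hc
    have he := enc_eq eJ eB eU E M ω z k₀ h5
    have h6 : (M.output ((dfm eJ eB eU E M ω).run z k₀).state).isSome := by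
      rw [he]
      exact h4
    have hi := enc_idle eJ eB eU E M ω z k₀
      (N - (M.run ω (theGraph eJ eB eU pad E (toInp z)) k₀).steps) h6
    rw [he] at hi
    rw [hc] at h1 h2
    refine ⟨k₀ + (N - (M.run ω (theGraph eJ eB eU pad E (toInp z)) k₀).steps), ?_, ?_, ?_⟩
    · rw [hi]
      exact Nat.add_sub_cancel' h2
    · rw [hi]
      exact h1
    · rw [enc_cnt eJ eB eU E M ω P b z _]
      refine le_trans ?_ h3
      classical
      unfold fcnt
      apply card_le_card
      intro j hj
      rw [mem_filter] at hj ⊢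
      refine ⟨?_, hj.2⟩
      rw [mem_range]
      by_contra hjk
      obtain ⟨a, ha, -⟩ := hj.2
      have hjk0 : k₀ ≤ j := by omega
      have hcj := enc_const M ω (theGraph eJ eB eU pad E (toInp z)) k₀ (j - k₀) h4
      rw [Nat.add_sub_cancel' hjk0] at hcj
      unfold RMachine.access RMachine.out at ha
      rw [hcj, if_pos h4] at ha
      exact Option.some_ne_none a ha.symm

end Pool.Agent.RSA
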