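import Mathlib
import Pool.Agent.RSA.Stmts

/-!
# Module RND: the probability of the event `AE`
-/

set_option autoImplicit false
set_option linter.unusedSectionVars false

open MeasureTheory

namespace Pool.Agent.RSA

open Finset Pool.Agent.TS Pool.Agent.TR

section Runs

variable {n : ℕ} {Q A Γ Λ Ω : Type} (M : RMachine n Q A Γ Λ Ω)

theorem rnd_run_stable (ω : Ω) (G : SimpleGraph (Fin n)) (t t' : ℕ) (h : t ≤ t')
    (hs : (M.out ω G t).isSome) : M.run ω G t' = M.run ω G t := by
  induction t', h using Nat.le_induction with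
  | base => rfl
  | succ t' _ ih =>
    show (if (M.output (M.run ω G t').state).isSome then M.run ω G t' else _) = _
    have hs' : (M.output (M.run ω G t).state).isSome := hs
    rw [ih, if_pos hs']

theorem rnd_out_some (ω : Ω) (G : SimpleGraph (Fin n)) (t t' : ℕ) (b b' : Bool)
    (hs : M.out ω G t = some b) (hs' : M.out ω G t' = some b') : b = b' := by
  rcases le_total t t' with h | h
  · have := rnd_run_stable M ω G t t' h (by rw [hs]; rfl)
    unfold RMachine.out at hs hs'
    rw [this, hs] at hs'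
    exact Option.some.inj hs'
  · have := rnd_run_stable M ω G t' t h (by rw [hs']; rfl)
    unfold RMachine.out at hs hs'
    rw [this, hs'] at hs
    exact (Option.some.inj hs).symm

theorem rnd_steps_succ (ω : Ω) (G : SimpleGraph (Fin n)) (k : ℕ) :
    (M.run ω G k).steps ≤ (M.run ω G (k + 1)).steps := by
  show _ ≤ (if (M.output (M.run ω G k).state).isSome then M.run ω G k else
      M.op ω G (M.run ω G k)).steps
  split_ifs
  · exact le_rfl
  · unfold RMachine.op
    split
    · exact Nat.le_succ _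
    · exact le_rfl
    · exact le_rfl

theorem rnd_steps_mono (ω : Ω) (G : SimpleGraph (Fin n)) :
    Monotone fun k => (M.run ω G k).steps :=
  monotone_nat_of_le_succ fun k => rnd_steps_succ M ω G k

variable [Fintype Q] [Fintype A] [MeasurableSpace Ω] (μ : Measure Ω) [IsProbabilityMeasure μ]
  (G : SimpleGraph (Fin n))

theorem rnd_meas_out
    (hm : ∀ k t x, MeasurableSet {ω | (M.run ω G k).steps = t ∧ (M.run ω G k).state = x})
    (k : ℕ) (o : Option Bool) : MeasurableSet {ω | M.out ω G k = o} := by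
  classical
  have : {ω | M.out ω G k = o} =
      ⋃ x ∈ (Finset.univ.filter fun x : Q => M.output x = o),
        ⋃ t : ℕ, {ω | (M.run ω G k).steps = t ∧ (M.run ω G k).state = x} := by
    ext ω
    simp [RMachine.out]
  rw [this]
  exact Finset.measurableSet_biUnion _ fun x _ => MeasurableSet.iUnion fun t => hm k t x

theorem rnd_meas_steps
    (hm : ∀ k t x, MeasurableSet {ω | (M.run ω G k).steps = t ∧ (M.run ω G k).state = x})
    (k N : ℕ) : MeasurableSet {ω | (M.run ω G k).steps ≤ N} := by
  classical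
  have : {ω | (M.run ω G k).steps ≤ N} =
      ⋃ t ∈ Finset.range (N + 1), ⋃ x : Q,
        {ω | (M.run ω G k).steps = t ∧ (M.run ω G k).state = x} := by
    ext ω
    simp only [Set.mem_ofPred_eq, Set.mem_iUnion, Finset.mem_range, exists_prop]
    constructor
    · intro h
      exact ⟨_, Nat.lt_succ_of_le h, _, rfl, rfl⟩
    · rintro ⟨t, ht, x, h, -⟩
      omega
  rw [this]
  exact Finset.measurableSet_biUnion _ fun t _ => MeasurableSet.iUnion fun x => hm k t x

/-- The event that there is an expensive access in the operation number `t`. -/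
def rndS (P : A → Prop) (b : Bool) (t : ℕ) : Set Ω :=
  {ω | ∃ a, M.access b ω G t = some a ∧ ¬ P a}

theorem rnd_meas_S (ha : ∀ b t y, MeasurableSet {ω | M.access b ω G t = y}) (P : A → Prop)
    (b : Bool) (t : ℕ) : MeasurableSet (rndS M G P b t) := by
  have e : rndS M G P b t = ⋃ a : {a : A // ¬ P a}, {ω | M.access b ω G t = some a.1} := by
    ext ω
    simp only [rndS, Set.mem_ofPred_eq, Set.mem_iUnion]
    constructor
    · rintro ⟨a, h1, h2⟩
      exact ⟨⟨a, h2⟩, h1⟩
    · rintro ⟨⟨a, h2⟩, h1⟩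
      exact ⟨a, h1, h2⟩
  rw [e]
  exact MeasurableSet.iUnion fun a => ha b t _

open Classical in
theorem rnd_fcnt_succ (P : A → Prop) (b : Bool) (ω : Ω) (N : ℕ) :
    fcnt M P b ω G (N + 1) = fcnt M P b ω G N + if ω ∈ rndS M G P b N then 1 else 0 := by
  unfold fcnt
  rw [Finset.card_filter, Finset.card_filter, Finset.sum_range_succ]
  congr 1
  by_cases h : ∃ a, M.access b ω G N = some a ∧ ¬ P a
  · rw [if_pos h, if_pos (show ω ∈ rndS M G P b N from h)]
  · rw [if_neg h, if_neg (show ¬ ω ∈ rndS M G P b N from h)]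

theorem rnd_fcnt_mono (P : A → Prop) (b : Bool) (ω : Ω) : Monotone fun N => fcnt M P b ω G N := by
  classical
  refine monotone_nat_of_le_succ fun N => ?_
  rw [rnd_fcnt_succ]
  exact Nat.le_add_right _ _

theorem rnd_meas_fcnt (ha : ∀ b t y, MeasurableSet {ω | M.access b ω G t = y}) (P : A → Prop)
    (b : Bool) (N j : ℕ) : MeasurableSet {ω | fcnt M P b ω G N = j} := by
  classical
  induction N generalizing j with
  | zero =>
    have : {ω : Ω | fcnt M P b ω G 0 = j} = {_ω | 0 = j} := by
      ext ω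
      simp [fcnt]
    rw [this]
    exact MeasurableSet.const _
  | succ N ih =>
    have hc := rnd_meas_S M G ha P b N
    rcases j with _ | j
    · have : {ω | fcnt M P b ω G (N + 1) = 0} =
          {ω | fcnt M P b ω G N = 0} ∩ (rndS M G P b N)ᶜ := by
        ext ω
        simp only [Set.mem_ofPred_eq, Set.mem_inter_iff, Set.mem_compl_iff, rnd_fcnt_succ]
        split_ifs with h <;> simp [h]
      rw [this]
      exact (ih 0).inter hc.compl
    · have : {ω | fcnt M P b ω G (N + 1) = j + 1} =
          ({ω | fcnt M P b ω G N = j} ∩ rndS M G P b N) ∪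
          ({ω | fcnt M P b ω G N = j + 1} ∩ (rndS M G P b N)ᶜ) := by
        ext ω
        simp only [Set.mem_ofPred_eq, Set.mem_inter_iff, Set.mem_compl_iff, Set.mem_union,
          rnd_fcnt_succ]
        split_ifs with h <;> simp [h]
      rw [this]
      exact ((ih j).inter hc).union ((ih (j + 1)).inter hc.compl)

theorem rnd_meas_le (ha : ∀ b t y, MeasurableSet {ω | M.access b ω G t = y}) (P : A → Prop)
    (b : Bool) (N F : ℕ) : MeasurableSet {ω | fcnt M P b ω G N ≤ F} := by
  have : {ω | fcnt M P b ω G N ≤ F} = ⋃ j ∈ range (F + 1), {ω | fcnt M P b ω G N = j} := by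
    ext ω
    simp only [Set.mem_ofPred_eq, Set.mem_iUnion, Finset.mem_range, exists_prop,
      exists_eq_right', Nat.lt_succ_iff]
  rw [this]
  exact Finset.measurableSet_biUnion _ fun j _ => rnd_meas_fcnt M G ha P b N j

theorem rnd_meas_AE
    (hm : ∀ k t x, MeasurableSet {ω | (M.run ω G k).steps = t ∧ (M.run ω G k).state = x})
    (ha : ∀ b t y, MeasurableSet {ω | M.access b ω G t = y}) (P : A → Prop)
    (b : Bool) (N F : ℕ) : MeasurableSet (AE M P b G N F) := by
  have : AE M P b G N F = ⋃ k : ℕ, ({ω | M.out ω G k = some false} ∩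
      ({ω | (M.run ω G k).steps ≤ N} ∩ {ω | fcnt M P b ω G k ≤ F})) := by
    ext ω
    simp only [AE, Set.mem_ofPred_eq, Set.mem_iUnion, Set.mem_inter_iff]
  rw [this]
  exact MeasurableSet.iUnion fun k => (rnd_meas_out M G hm k _).inter
    ((rnd_meas_steps M G hm k N).inter (rnd_meas_le M G ha P b k F))

theorem rnd_term_nonneg (f : A → ℝ) (hf : ∀ a, 0 ≤ f a) (b : Bool) (ω : Ω) (t : ℕ) :
    0 ≤ (M.access b ω G t).elim 0 f := by
  cases M.access b ω G t with
  | none => exact le_rfl
  | some a => exact hf a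

theorem rnd_cost_steps (f : A → ℝ) (hf : ∀ a, 0 ≤ f a) (b : Bool) (ω : Ω) (k : ℕ) :
    ((M.run ω G k).steps : ℝ) ≤ M.cost f b ω G k := by
  unfold RMachine.cost
  have := Finset.sum_nonneg fun t (_ : t ∈ Finset.range k) => rnd_term_nonneg M G f hf b ω t
  linarith

theorem rnd_cost_far (f : A → ℝ) (hf : ∀ a, 0 ≤ f a) (P : A → Prop) (φ' : ℝ)
    (hP : ∀ a, ¬ P a → φ' ≤ f a) (b : Bool) (ω : Ω) (N : ℕ) :
    φ' * fcnt M P b ω G N ≤ M.cost f b ω G N := by
  classical
  unfold RMachine.cost fcnt
  rw [Finset.card_filter]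
  push_cast
  rw [Finset.mul_sum]
  have h0 : (0 : ℝ) ≤ (M.run ω G N).steps := Nat.cast_nonneg _
  refine le_trans ?_ (le_add_of_nonneg_left h0)
  refine Finset.sum_le_sum fun t _ => ?_
  have h1 := rnd_term_nonneg M G f hf b ω t
  by_cases h : ∃ a, M.access b ω G t = some a ∧ ¬ P a
  · obtain ⟨a, h2, h3⟩ := h
    rw [if_pos ⟨a, h2, h3⟩, mul_one, h2]
    exact hP a h3
  · rw [if_neg h, mul_zero]
    exact h1

/-- Markov's inequality for a cost which is at least `c` on a set. -/
theorem rnd_markov (g : Ω → ℝ) (S : Set Ω) (hS : MeasurableSet S) (c T : ℝ) (hc : 0 ≤ c)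
    (hT0 : 0 ≤ T) (hg : ∀ ω ∈ S, c ≤ g ω)
    (hT : ∫⁻ ω, ENNReal.ofReal (g ω) ∂μ ≤ ENNReal.ofReal T) : c * μ.real S ≤ T := by
  have h1 : ENNReal.ofReal c * μ S ≤ ENNReal.ofReal T := by
    refine le_trans ?_ hT
    calc ENNReal.ofReal c * μ S = ∫⁻ ω, S.indicator (fun _ => ENNReal.ofReal c) ω ∂μ :=
          (lintegral_indicator_const hS _).symm
      _ ≤ _ := by
          apply lintegral_mono
          intro ω
          by_cases h : ω ∈ S
          · rw [Set.indicator_of_mem h]
            exact ENNReal.ofReal_le_ofReal (hg ω h)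
          · rw [Set.indicator_of_notMem h]
            exact zero_le
  have h2 := ENNReal.toReal_mono ENNReal.ofReal_ne_top h1
  rw [ENNReal.toReal_mul, ENNReal.toReal_ofReal hT0, ENNReal.toReal_ofReal hc] at h2
  exact h2

theorem rnd_mono_bound (s : ℕ → Set Ω) (hs : Monotone s) (c : ℝ) (hc : 0 ≤ c)
    (h : ∀ k, μ.real (s k) ≤ c) : μ.real (⋃ k, s k) ≤ c := by
  rw [measureReal_def, hs.measure_iUnion]
  refine ENNReal.toReal_le_of_le_ofReal hc (iSup_le fun k => ?_)
  rw [ENNReal.le_ofReal_iff_toReal_le (measure_ne_top _ _) hc]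
  exact h k

end Runs

theorem t_RND : S_RND := by
  intro n Q A Γ Λ Ω _ _ _ _ μ _ M f P φ' b G N F hφ hf hP hN hNF hm ha hd hT
  have hN' : (0 : ℝ) < N := by exact_mod_cast hN
  have hT0 : (0 : ℝ) ≤ N / 20 := by positivity
  have hF0 : (0 : ℝ) < F + 1 := by positivity
  have hAE := rnd_meas_AE M G hm ha P b N F
  refine ⟨hAE, ?_, ?_⟩
  · intro hG
    have h1 : μ.real (⋃ k, {ω | (M.run ω G k).steps ≤ N}ᶜ) ≤ 1 / 20 := by
      refine rnd_mono_bound μ _ ?_ _ (by norm_num) fun k => ?_
      · intro k k' hk ω hω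
        simp only [Set.mem_compl_iff, Set.mem_ofPred_eq, not_le] at hω ⊢
        exact lt_of_lt_of_le hω (rnd_steps_mono M ω G hk)
      · have h2 := rnd_markov μ (fun ω => M.cost f b ω G k) ({ω | (M.run ω G k).steps ≤ N}ᶜ)
          (rnd_meas_steps M G hm k N).compl (N + 1) (N / 20) (by positivity) hT0
          (fun ω hω => by
            have h3 : N + 1 ≤ (M.run ω G k).steps := by
              have : ¬ (M.run ω G k).steps ≤ N := hω
              omega
            have h4 : ((N : ℝ) + 1) ≤ (M.run ω G k).steps := by exact_mod_cast h3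
            exact h4.trans (rnd_cost_steps M G f hf b ω k)) (hT k)
        by_contra hcon
        push Not at hcon
        have h5 := mul_lt_mul_of_pos_left hcon (by positivity : (0 : ℝ) < N + 1)
        linarith
    have h3 : μ.real (⋃ k, {ω | fcnt M P b ω G k ≤ F}ᶜ) ≤ 1 / 10 := by
      refine rnd_mono_bound μ _ ?_ _ (by norm_num) fun k => ?_
      · intro k k' hk ω hω
        simp only [Set.mem_compl_iff, Set.mem_ofPred_eq, not_le] at hω ⊢
        exact lt_of_lt_of_le hω (rnd_fcnt_mono M G P b ω hk)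
      · have h2 := rnd_markov μ (fun ω => M.cost f b ω G k) ({ω | fcnt M P b ω G k ≤ F}ᶜ)
          (rnd_meas_le M G ha P b k F).compl (φ' * (F + 1)) (N / 20) (by positivity) hT0
          (fun ω hω => by
            have h4 : F + 1 ≤ fcnt M P b ω G k := by
              have : ¬ fcnt M P b ω G k ≤ F := hω
              omega
            have h5 : ((F : ℝ) + 1) ≤ fcnt M P b ω G k := by exact_mod_cast h4
            exact (mul_le_mul_of_nonneg_left h5 hφ.le).trans
              (rnd_cost_far M G f hf P φ' hP b ω k)) (hT k)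
        by_contra hcon
        push Not at hcon
        have hpos : (0 : ℝ) < φ' * (F + 1) := by positivity
        have := mul_lt_mul_of_pos_left hcon hpos
        linarith
    have h5 : μ.real {ω | ∃ k b, M.out ω G k = some b ∧ (b = true ↔ ¬ G.CliqueFree 3)} ≤
        μ.real (AE M P b G N F ∪ ((⋃ k, {ω | (M.run ω G k).steps ≤ N}ᶜ) ∪
          ⋃ k, {ω | fcnt M P b ω G k ≤ F}ᶜ)) := by
      apply measureReal_mono
      · rintro ω ⟨k, b', hb, hb'⟩
        have hbf : b' = false := by
          cases b'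
          · rfl
          · exact absurd hG (hb'.1 rfl)
        subst hbf
        by_cases h6 : (M.run ω G k).steps ≤ N
        · by_cases h7 : fcnt M P b ω G k ≤ F
          · exact Or.inl ⟨k, hb, h6, h7⟩
          · exact Or.inr (Or.inr (Set.mem_iUnion.2 ⟨k, h7⟩))
        · exact Or.inr (Or.inl (Set.mem_iUnion.2 ⟨k, h6⟩))
      · exact measure_ne_top _ _
    have h6 := measureReal_union_le (μ := μ) (AE M P b G N F)
      ((⋃ k, {ω | (M.run ω G k).steps ≤ N}ᶜ) ∪ ⋃ k, {ω | fcnt M P b ω G k ≤ F}ᶜ)
    have h7 := measureReal_union_le (μ := μ) (⋃ k, {ω | (M.run ω G k).steps ≤ N}ᶜ)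
      (⋃ k, {ω | fcnt M P b ω G k ≤ F}ᶜ)
    linarith
  · intro hG
    have h1 : μ.real {ω | ∃ k b, M.out ω G k = some b ∧ (b = true ↔ ¬ G.CliqueFree 3)} ≤
        μ.real ((AE M P b G N F)ᶜ) := by
      apply measureReal_mono
      · rintro ω ⟨k, b', hb, hb'⟩ ⟨k', hk', -⟩
        have hbt : b' = true := hb'.2 hG
        subst hbt
        have := rnd_out_some M ω G k k' true false hb hk'
        exact absurd this (by decide)
      · exact measure_ne_top _ _
    rw [measureReal_compl hAE, probReal_univ] at h1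
    linarith

end Pool.Agent.RSA
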