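import Mathlib
import Pool.Agent.RAC.Main
import Pool.Agent.RSA.Main0
import Pool.Agent.RSA.Ds
import Pool.Agent.RSA.Cap
import Pool.Agent.RSA.Enc
import Pool.Agent.RSA.Rnd
import Pool.Agent.RSA.Comb
import Pool.Agent.RSA.Cx
import Pool.Agent.RSA.Par
import Pool.Agent.RSA.Siz

/-!
# The main theorem
-/

set_option autoImplicit false

open MeasureTheory

namespace Pool.Agent.RSA

open Pool.Agent.RAC (t_GOOD t_BOTH t_TFC t_HM t_EXP t_LIFT t_PERM t_CHO)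

theorem t_MAIN : S_MAIN :=
  t_MAIN0 (t_SIZ (t_PAR (t_COMB (t_GOOD t_BOTH) t_TFC t_DS t_CAP t_ENC t_RND) t_HM t_CX)
    (t_EXP (t_LIFT t_PERM)) t_TFC) t_CHO

/-- The main theorem. -/
theorem main_bound (κ : ℕ) (ε : ℝ) (hε : 0 < ε) : ∃ c : ℝ, 0 < c ∧ ∃ s₀ : ℕ, ∀ (s : ℕ) (φ : ℝ),
    s₀ ≤ s → (s₀ : ℝ) ≤ φ → ∃ (n : ℕ) (δ : Fin n → ℕ), 2 * n + ∑ v, δ v = 2 * s ∧
      ∀ (Q A Γ Λ Ω : Type) [Fintype Q] [Fintype A] [Fintype Γ] [MeasurableSpace Ω]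
        (μ : Measure Ω) [IsProbabilityMeasure μ] (M : RMachine n Q A Γ Λ Ω) (g : ℕ) (f : A → ℝ)
        (b : Bool) (T : ℝ), 1 ≤ g → (Fintype.card Q : ℝ) ≤ 2 ^ ((s : ℝ) ^ (1 - ε)) →
        Fintype.card A ≤ s ^ κ → Fintype.card Γ ≤ s ^ (κ * g) → (∀ a, 0 ≤ f a) →
        (Nat.card {a : A // f a < φ * g} : ℝ) * g ≤ (s : ℝ) ^ (1 - ε) →
        M.DetectsTriangles μ δ → M.ExpectedCostLE μ δ f b T →
        c * s * (min (Real.log s) (Real.log φ) / Real.log (min (Real.log s) (Real.log φ))) ≤ T :=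
  t_MAIN κ ε hε

end Pool.Agent.RSA
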