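import Mathlib
import Pool.Agent.RAC.Stmts
import Pool.Agent.RSA.Stmts

/-!
# Machines without a stack are machines with a stack
-/

set_option autoImplicit false
set_option linter.unusedVariables false

open MeasureTheory

namespace Pool.Agent.RSA

open Finset Pool.Agent.TS Pool.Agent.TR
open Pool.Agent.ACC (write)

variable {n : ℕ} {Q A Γ Ω : Type}

/-- The machine that never uses its stack. -/
def ofRAC (Λ : Type) (M : RAC.RMachine n Q A Γ Ω) : RMachine n Q A Γ Λ Ω where
  start := M.start
  init := M.init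
  act _ _ _ := .step
  rd := M.rd
  ask := M.ask
  next := M.next
  output := M.output

variable (Λ : Type) (M : RAC.RMachine n Q A Γ Ω) (ω : Ω) (G : SimpleGraph (Fin n))

/-- The number of the steps made before time `k`. -/
noncomputable def nst (k : ℕ) : ℕ := ∑ j ∈ range k, if M.out ω G j = none then 1 else 0

lemma nst_eq (k : ℕ) (h : M.out ω G k = none) : nst M ω G k = k := by
  have key : ∀ k, M.out ω G k = none → ∀ j ≤ k, M.out ω G j = none := by
    intro k
    induction k with
    | zero => intro h j hj; rw [Nat.le_zero.1 hj]; exact h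
    | succ k ih =>
      intro h j hj
      have h1 : M.out ω G k = none := by
        by_contra hcon
        have h2 : (M.output (M.run ω G k).1).isSome = true :=
          Option.isSome_iff_ne_none.2 hcon
        have h3 : M.run ω G (k + 1) = M.run ω G k := by
          rw [RAC.RMachine.run, if_pos h2]
        have h4 : M.out ω G (k + 1) = M.out ω G k := by
          unfold RAC.RMachine.out
          rw [h3]
        exact hcon (h4 ▸ h)
      rcases Nat.le_succ_iff.1 hj with h2 | h2
      · exact ih h1 j h2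
      · rw [h2]; exact h
  unfold nst
  rw [Finset.sum_congr rfl (g := fun _ => 1)]
  · simp
  · intro j hj
    rw [if_pos (key k h j (by have := Finset.mem_range.1 hj; omega))]

lemma run_ofRAC (k : ℕ) : (ofRAC Λ M).run ω G k =
    ⟨nst M ω G k, (M.run ω G k).1, (M.run ω G k).2, []⟩ := by
  induction k with
  | zero => rfl
  | succ k ih =>
    have hn : nst M ω G (k + 1) = nst M ω G k + if M.out ω G k = none then 1 else 0 := by
      unfold nst
      rw [Finset.sum_range_succ]
    rw [RMachine.run, ih, hn]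
    by_cases h : (M.output (M.run ω G k).1).isSome = true
    · have h1 : M.out ω G k ≠ none := Option.isSome_iff_ne_none.1 h
      rw [if_neg h1, RAC.RMachine.run, if_pos h]
      show (if (M.output (M.run ω G k).1).isSome = true then _ else _) = _
      rw [if_pos h]
      rfl
    · have h1 : M.out ω G k = none := by
        by_contra hcon
        exact h (Option.isSome_iff_ne_none.2 hcon)
      rw [if_pos h1, RAC.RMachine.run, if_neg h]
      show (if (M.output (M.run ω G k).1).isSome = true then _ else _) = _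
      rw [if_neg h, nst_eq M ω G k h1]
      rfl

lemma out_ofRAC (k : ℕ) : (ofRAC Λ M).out ω G k = M.out ω G k := by
  unfold RMachine.out
  rw [run_ofRAC]
  rfl

lemma access_ofRAC (b : Bool) (k : ℕ) : (ofRAC Λ M).access b ω G k = M.access b ω G k := by
  unfold RMachine.access RAC.RMachine.access
  rw [out_ofRAC]
  by_cases h : (M.out ω G k).isSome = true
  · rw [if_pos h, if_pos h]
  · rw [if_neg h, if_neg h]
    have h1 : M.out ω G k = none := by
      by_contra hcon
      exact h (Option.isSome_iff_ne_none.2 hcon)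
    rw [run_ofRAC, nst_eq M ω G k h1]
    rfl

lemma cost_ofRAC (f : A → ℝ) (b : Bool) (m : ℕ) :
    (ofRAC Λ M).cost f b ω G m = M.cost f b ω G m := by
  unfold RMachine.cost RAC.RMachine.cost
  rw [Finset.sum_add_distrib, run_ofRAC]
  congr 1
  · show ((nst M ω G m : ℕ) : ℝ) = _
    unfold nst
    push_cast
    rfl
  · exact Finset.sum_congr rfl fun k _ => by rw [access_ofRAC]

lemma expected_ofRAC [MeasurableSpace Ω] (μ : Measure Ω) (δ : Fin n → ℕ) (f : A → ℝ) (b : Bool)
    (T : ℝ) (h : M.ExpectedCostLE μ δ f b T) : (ofRAC Λ M).ExpectedCostLE μ δ f b T := by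
  intro G hG m
  simp_rw [cost_ofRAC]
  exact h G hG m

lemma detects_ofRAC [Fintype Q] [MeasurableSpace Ω] (μ : Measure Ω) (δ : Fin n → ℕ)
    (h : M.DetectsTriangles μ δ) : (ofRAC Λ M).DetectsTriangles μ δ := by
  classical
  intro G hG
  obtain ⟨h1, h2, h3⟩ := h G hG
  have hout : ∀ k, MeasurableSet {ω | M.out ω G k = none} := by
    intro k
    have : {ω | M.out ω G k = none} = ⋃ x : Q, {ω | (M.run ω G k).1 = x ∧ M.output x = none} := by
      ext ω
      simp [RAC.RMachine.out]
    rw [this]
    refine MeasurableSet.iUnion fun x => ?_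
    by_cases hx : M.output x = none
    · have : {ω | (M.run ω G k).1 = x ∧ M.output x = none} = {ω | (M.run ω G k).1 = x} := by
        ext ω
        simp [hx]
      rw [this]
      exact h1 k x
    · have : {ω | (M.run ω G k).1 = x ∧ M.output x = none} = ∅ := by
        ext ω
        simp [hx]
      rw [this]
      exact MeasurableSet.empty
  have hn : ∀ k, Measurable fun ω => nst M ω G k := by
    intro k
    unfold nst
    refine Finset.measurable_sum _ fun j _ => ?_
    exact Measurable.ite (hout j) measurable_const measurable_const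
  refine ⟨?_, ?_, ?_⟩
  · intro k t x
    have : {ω | ((ofRAC Λ M).run ω G k).steps = t ∧ ((ofRAC Λ M).run ω G k).state = x} =
        {ω | nst M ω G k = t} ∩ {ω | (M.run ω G k).1 = x} := by
      ext ω
      simp only [Set.mem_ofPred_eq, Set.mem_inter_iff]
      rw [run_ofRAC]
    rw [this]
    exact (hn k (measurableSet_singleton t)).inter (h1 k x)
  · intro b k y
    simp_rw [access_ofRAC]
    exact h2 b k y
  · simp_rw [out_ofRAC]
    exact h3

/-- The main theorem for machines with a stack contains the main theorem for machines without a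
stack. -/
theorem old_of_new (h : S_MAIN) : RAC.S_MAIN := by
  intro κ ε hε
  obtain ⟨ε', hε'⟩ : ∃ ε' : ℝ, ε' = min ε (1 / 2) := ⟨_, rfl⟩
  have he0 : 0 < ε' := by rw [hε']; exact lt_min hε (by norm_num)
  have he1 : ε' ≤ 1 / 2 := by rw [hε']; exact min_le_right _ _
  have hee : ε' ≤ ε := by rw [hε']; exact min_le_left _ _
  obtain ⟨c, hc, s₀, h1⟩ := h κ ε' he0
  -- `s ^ κ ≤ 2 ^ (s ^ (1/2))` for large `s`
  obtain ⟨s₁, hs₁⟩ : ∃ s₁ : ℕ, ∀ s : ℕ, s₁ ≤ s → ((s : ℝ)) ^ κ ≤ 2 ^ ((s : ℝ) ^ (1 - ε')) := by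
    have h2 : Filter.Tendsto (fun s : ℕ => (κ : ℝ) * Real.log s / (s : ℝ) ^ (1 / 2 : ℝ))
        Filter.atTop (nhds 0) := by
      have h3 : Filter.Tendsto (fun x : ℝ => Real.log x / x ^ (1 / 2 : ℝ)) Filter.atTop
          (nhds 0) := (isLittleO_log_rpow_atTop (by norm_num)).tendsto_div_nhds_zero
      have h4 := (h3.comp tendsto_natCast_atTop_atTop).const_mul (κ : ℝ)
      rw [mul_zero] at h4
      refine h4.congr fun s => ?_
      simp only [Function.comp]
      ring
    have h5 := (h2.eventually (gt_mem_nhds (Real.log_pos one_lt_two))).and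
      (Filter.eventually_ge_atTop 1)
    obtain ⟨s₁, hs₁⟩ := Filter.eventually_atTop.1 h5
    refine ⟨s₁, fun s hs => ?_⟩
    obtain ⟨h6, h7⟩ := hs₁ s hs
    have h8 : (1 : ℝ) ≤ s := by exact_mod_cast h7
    have h9 : (0 : ℝ) < (s : ℝ) ^ (1 / 2 : ℝ) := by positivity
    have h10 : (κ : ℝ) * Real.log s ≤ Real.log 2 * (s : ℝ) ^ (1 / 2 : ℝ) := by
      have := (div_lt_iff₀ h9).1 h6
      linarith
    have h11 : (s : ℝ) ^ (1 / 2 : ℝ) ≤ (s : ℝ) ^ (1 - ε') :=
      Real.rpow_le_rpow_of_exponent_le h8 (by linarith)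
    rw [← Real.rpow_natCast, Real.rpow_def_of_pos (by linarith), Real.rpow_def_of_pos two_pos]
    refine Real.exp_le_exp.2 ?_
    have h12 : Real.log 2 * (s : ℝ) ^ (1 / 2 : ℝ) ≤ Real.log 2 * (s : ℝ) ^ (1 - ε') :=
      mul_le_mul_of_nonneg_left h11 (Real.log_pos one_lt_two).le
    linarith
  refine ⟨c, hc, max (max s₀ s₁) 1, ?_⟩
  intro s φ hs hφ
  have hs0 : s₀ ≤ s := (le_max_left _ _).trans ((le_max_left _ _).trans hs)
  have hs1 : s₁ ≤ s := (le_max_right _ _).trans ((le_max_left _ _).trans hs)
  have hs2 : 1 ≤ s := (le_max_right _ _).trans hs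
  have hs3 : (1 : ℝ) ≤ s := by exact_mod_cast hs2
  have hφ0 : (s₀ : ℝ) ≤ φ := le_trans (by
    exact_mod_cast (le_max_left s₀ s₁).trans (le_max_left _ 1)) hφ
  obtain ⟨n, δ, hnδ, h2⟩ := h1 s φ hs0 hφ0
  refine ⟨n, δ, hnδ, ?_⟩
  intro Q A Γ Ω _ _ _ _ μ _ M g f b T hg hQ hA hΓ hf hnear hdet hexp
  refine h2 Q A Γ Unit Ω μ (ofRAC Unit M) g f b T hg ?_ hA hΓ hf ?_ (detects_ofRAC Unit M μ δ hdet)
    (expected_ofRAC Unit M μ δ f b T hexp)
  · refine le_trans ?_ (hs₁ s hs1)
    exact_mod_cast hQ
  · exact hnear.trans (Real.rpow_le_rpow_of_exponent_le hs3 (by linarith))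

end Pool.Agent.RSA
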